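import Mathlib

/-!
# Dilated sumsets: definitions (MP_e5d0a4_an)
-/

set_option autoImplicit false

open MeasureTheory Set

namespace Pool.Agent.NH64.DS

/-- Frostman condition with exponent `s` and constant `C` for a measure on the line -/
def Fros (μ : Measure ℝ) (s C : ℝ) : Prop :=
  ∀ x r : ℝ, 0 < r → μ (Metric.closedBall x r) ≤ ENNReal.ofReal (C * r ^ s)

/-- half-open dyadic interval of length `2 ^ (-j)` -/
def dy (j : ℕ) (i : ℤ) : Set ℝ := Set.Ico ((i : ℝ) * (2 : ℝ)⁻¹ ^ j) (((i : ℝ) + 1) * (2 : ℝ)⁻¹ ^ j)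

/-- squared `L²` norm of the `j`-th dyadic martingale difference of the density of `ν` -/
noncomputable def ej (ν : Measure ℝ) (j : ℕ) : ℝ :=
  ∑' i : ℤ, (2 : ℝ) ^ j * (ν.real (dy (j + 1) (2 * i)) - ν.real (dy (j + 1) (2 * i + 1))) ^ 2

/-- the law of `a_0 + ∑ t_i a_i + θ` for independent `a_i` with law `μ` -/
noncomputable def sumLaw (μ : Measure ℝ) {k : ℕ} (t : Fin k → ℝ) (θ : ℝ) : Measure ℝ :=
  Measure.map (fun p : ℝ × (Fin k → ℝ) => p.1 + ∑ i, t i * p.2 i + θ)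
    (μ.prod (Measure.pi fun _ : Fin k => μ))

end Pool.Agent.NH64.DS
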