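import Mathlib
import Pool.Agent.NH64.DS.Defs

/-!
# Fejer kernel identities
-/

set_option autoImplicit false

open MeasureTheory Set Real
open scoped ComplexConjugate

namespace Pool.Agent.NH64.DS.Mn

/-- the additive character `exp(2 π i x)` -/
noncomputable def ee (x : ℝ) : ℂ := Complex.exp (((2 * π * x : ℝ) : ℂ) * Complex.I)

lemma ee_norm (x : ℝ) : ‖ee x‖ = 1 := Complex.norm_exp_ofReal_mul_I _

lemma ee_add (x y : ℝ) : ee (x + y) = ee x * ee y := by
  unfold ee
  rw [← Complex.exp_add]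
  congr 1
  push_cast
  ring

lemma ee_zero : ee 0 = 1 := by simp [ee]

lemma ee_conj (x : ℝ) : conj (ee x) = ee (-x) := by
  unfold ee
  rw [← Complex.exp_conj]
  congr 1
  simp only [map_mul, Complex.conj_ofReal, Complex.conj_I]
  push_cast
  ring

lemma ee_cont : Continuous ee := by
  unfold ee
  fun_prop

lemma ee_meas : Measurable ee := ee_cont.measurable

lemma ee_re (x : ℝ) : (ee x).re = cos (2 * π * x) := by
  unfold ee
  rw [Complex.exp_ofReal_mul_I_re]

/-- Fejer kernel -/
noncomputable def fej (R x : ℝ) : ℝ := ∫ ξ in (0:ℝ)..R, (1 - ξ / R) * cos (2 * π * (x * ξ))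

lemma fej_zero {R : ℝ} (hR : 0 < R) : fej R 0 = R / 2 := by
  unfold fej
  have h : ∀ ξ : ℝ, (1 - ξ / R) * cos (2 * π * (0 * ξ)) = 1 - ξ / R := by intro ξ; simp
  simp only [h]
  rw [intervalIntegral.integral_sub (by simp) (by
    apply Continuous.intervalIntegrable; fun_prop)]
  simp only [intervalIntegral.integral_const, sub_zero, smul_eq_mul, mul_one,
    intervalIntegral.integral_div, integral_id]
  field_simp
  ring

lemma fej_eq {R x : ℝ} (hR : 0 < R) (hx : x ≠ 0) :
    fej R x = (1 - cos (2 * π * x * R)) / (R * (2 * π * x) ^ 2) := by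
  unfold fej
  have hpx : (2 * π * x) ≠ 0 := by positivity
  have hd : ∀ ξ : ℝ, HasDerivAt (fun ξ => (1 - ξ / R) * (sin (2 * π * x * ξ) / (2 * π * x))
      - cos (2 * π * x * ξ) / (R * (2 * π * x) ^ 2)) ((1 - ξ / R) * cos (2 * π * (x * ξ))) ξ := by
    intro ξ
    have h1 : HasDerivAt (fun ξ : ℝ => 1 - ξ / R) (-(1 / R)) ξ := by
      simpa using ((hasDerivAt_id ξ).div_const R).const_sub 1
    have hl : HasDerivAt (fun ξ : ℝ => 2 * π * x * ξ) (2 * π * x) ξ := by
      simpa using (hasDerivAt_id ξ).const_mul (2 * π * x)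
    have h2 : HasDerivAt (fun ξ : ℝ => sin (2 * π * x * ξ) / (2 * π * x))
        (cos (2 * π * x * ξ)) ξ := by
      refine ((hl.sin).div_const (2 * π * x)).congr_deriv ?_
      field_simp
    have h3 : HasDerivAt (fun ξ : ℝ => cos (2 * π * x * ξ) / (R * (2 * π * x) ^ 2))
        (- sin (2 * π * x * ξ) / (R * (2 * π * x))) ξ := by
      refine ((hl.cos).div_const (R * (2 * π * x) ^ 2)).congr_deriv ?_
      field_simp
    refine ((h1.mul h2).sub h3).congr_deriv ?_
    have e1 : (2 * π * (x * ξ)) = 2 * π * x * ξ := by ring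
    rw [e1]
    field_simp
    ring
  rw [intervalIntegral.integral_eq_sub_of_hasDerivAt (fun ξ _ => hd ξ)
    (by apply Continuous.intervalIntegrable; fun_prop)]
  have : R / R = 1 := div_self hR.ne'
  simp only [this, sub_self, zero_mul, mul_zero, sin_zero, cos_zero, zero_div, zero_sub, sub_zero]
  ring

lemma fej_nonneg {R : ℝ} (hR : 0 < R) (x : ℝ) : 0 ≤ fej R x := by
  by_cases hx : x = 0
  · rw [hx, fej_zero hR]; positivity
  · rw [fej_eq hR hx]
    have := cos_le_one (2 * π * x * R)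
    apply div_nonneg (by linarith) (by positivity)

lemma fej_le {R : ℝ} (hR : 0 < R) (x : ℝ) : fej R x ≤ R / 2 := by
  rw [← fej_zero hR]
  unfold fej
  apply intervalIntegral.integral_mono_on hR.le
  · apply Continuous.intervalIntegrable; fun_prop
  · apply Continuous.intervalIntegrable; fun_prop
  intro ξ hξ
  have h1 : 0 ≤ 1 - ξ / R := by
    rw [sub_nonneg, div_le_one hR]; exact hξ.2
  apply mul_le_mul_of_nonneg_left _ h1
  simp [cos_le_one]

lemma fej_le' {R x : ℝ} (hR : 0 < R) (hx : x ≠ 0) : fej R x ≤ 1 / (2 * π ^ 2 * R * x ^ 2) := by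
  rw [fej_eq hR hx]
  have := neg_one_le_cos (2 * π * x * R)
  have hx2 : 0 < x ^ 2 := by positivity
  rw [div_le_div_iff₀ (by positivity) (by positivity)]
  have h3 : 0 < 2 * π ^ 2 * R * x ^ 2 := by positivity
  nlinarith [h3]

lemma fej_ge {R x : ℝ} (hR : 0 < R) (hx : |x| ≤ 1 / (2 * R)) : 2 / π ^ 2 * R ≤ fej R x := by
  have hpi : 0 < π := pi_pos
  by_cases hx0 : x = 0
  · rw [hx0, fej_zero hR]
    have h2 : (4 : ℝ) ≤ π ^ 2 := by nlinarith [pi_gt_three]
    have : 2 / π ^ 2 ≤ 1 / 2 := by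
      rw [div_le_div_iff₀ (by positivity) (by norm_num)]; linarith
    nlinarith
  · rw [fej_eq hR hx0]
    have h1 : |2 * π * x * R| ≤ π := by
      rw [abs_mul, abs_mul, abs_of_pos hR, abs_of_pos (by positivity : (0:ℝ) < 2 * π)]
      have : |x| * R ≤ 1 / 2 := by
        calc |x| * R ≤ 1 / (2 * R) * R := by gcongr
          _ = 1 / 2 := by field_simp
      nlinarith
    have h2 := cos_le_one_sub_mul_cos_sq h1
    rw [le_div_iff₀ (by positivity)]
    have h3 : 2 / π ^ 2 * (2 * π * x * R) ^ 2 = 8 * x ^ 2 * R ^ 2 := by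
      field_simp; ring
    have h4 : 2 / π ^ 2 * R * (R * (2 * π * x) ^ 2) = 8 * x ^ 2 * R ^ 2 := by
      field_simp; ring
    linarith

lemma fej_cont {R : ℝ} : Continuous (fej R) := by
  unfold fej
  apply intervalIntegral.continuous_parametric_intervalIntegral_of_continuous' (by fun_prop)

lemma fej_meas {R : ℝ} : Measurable (fej R) := fej_cont.measurable

/-- Fubini identity for the Fejer kernel -/
lemma fej_integral {X : Type*} [MeasurableSpace X] (ρ : Measure X) [IsFiniteMeasure ρ]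
    {R : ℝ} (hR : 0 < R) {g : X → ℝ} (hg : Measurable g) :
    ∫ x, fej R (g x) ∂ρ = ∫ ξ in (0:ℝ)..R, (1 - ξ / R) * (∫ x, ee (g x * ξ) ∂ρ).re := by
  unfold fej
  simp only [intervalIntegral.integral_of_le hR.le]
  rw [integral_integral_swap]
  · apply integral_congr_ae
    filter_upwards with ξ
    rw [integral_const_mul]
    congr 1
    have : ∀ x, cos (2 * π * (g x * ξ)) = (ee (g x * ξ)).re := fun x => (ee_re _).symm
    simp only [this]
    have hint : Integrable (fun x => ee (g x * ξ)) ρ := by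
      apply Integrable.of_bound (C := 1)
      · exact (ee_meas.comp (hg.mul_const ξ)).aestronglyMeasurable
      · filter_upwards with x using by simp [ee_norm]
    exact integral_re hint
  · apply Integrable.of_bound (C := 1)
    · apply Measurable.aestronglyMeasurable
      unfold Function.uncurry
      fun_prop
    · have hae : ∀ᵐ z ∂(ρ.prod (volume.restrict (Ioc 0 R))), z.2 ∈ Ioc 0 R := by
        have := ae_restrict_mem (μ := (volume : Measure ℝ)) (measurableSet_Ioc (a := (0:ℝ)) (b := R))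
        exact (Measure.quasiMeasurePreserving_snd.ae this)
      filter_upwards [hae] with z hz
      simp only [Function.uncurry, norm_mul]
      have h1 : ‖1 - z.2 / R‖ ≤ 1 := by
        rw [norm_eq_abs, abs_le]
        have h2 : z.2 / R ≤ 1 := by rw [div_le_one hR]; exact hz.2
        have h3 : 0 ≤ z.2 / R := div_nonneg hz.1.le hR.le
        constructor <;> linarith
      have h2 : ‖cos (2 * π * (g z.1 * z.2))‖ ≤ 1 := by
        rw [norm_eq_abs]; exact abs_cos_le_one _
      calc _ ≤ (1:ℝ) * 1 := mul_le_mul h1 h2 (norm_nonneg _) zero_le_one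
        _ = 1 := one_mul 1

/-- squared version of the Fubini identity -/
lemma fej_integral_sq {X : Type*} [MeasurableSpace X] (ρ : Measure X) [IsFiniteMeasure ρ]
    {R : ℝ} (hR : 0 < R) {g : X → ℝ} (hg : Measurable g) :
    ∫ ξ in (0:ℝ)..R, (1 - ξ / R) * ‖∫ x, ee (g x * ξ) ∂ρ‖ ^ 2
      = ∫ z, fej R (g z.1 - g z.2) ∂(ρ.prod ρ) := by
  rw [fej_integral (ρ.prod ρ) hR (g := fun z : X × X => g z.1 - g z.2) (by fun_prop)]
  apply intervalIntegral.integral_congr
  intro ξ _
  simp only
  congr 1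
  have h1 : ∀ z : X × X, ee ((g z.1 - g z.2) * ξ) = ee (g z.1 * ξ) * conj (ee (g z.2 * ξ)) := by
    intro z
    rw [ee_conj, ← ee_add]
    congr 1
    ring
  simp only [h1]
  rw [integral_prod_mul (f := fun x => ee (g x * ξ)) (g := fun x => conj (ee (g x * ξ)))]
  rw [integral_conj, Complex.mul_conj, Complex.normSq_eq_norm_sq]
  exact (Complex.ofReal_re _).symm

/-- the sharp cutoff is dominated by the Fejer mean -/
lemma int_sq_le_fej {X : Type*} [MeasurableSpace X] (ρ : Measure X) [IsFiniteMeasure ρ]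
    {R : ℝ} (hR : 0 < R) {g : X → ℝ} (hg : Measurable g) :
    ∫ ξ in (0:ℝ)..R, ‖∫ x, ee (g x * ξ) ∂ρ‖ ^ 2
      ≤ 2 * ∫ z, fej (2 * R) (g z.1 - g z.2) ∂(ρ.prod ρ) := by
  rw [← fej_integral_sq ρ (by linarith : 0 < 2 * R) hg]
  set F : ℝ → ℝ := fun ξ => ‖∫ x, ee (g x * ξ) ∂ρ‖ ^ 2 with hF
  have hFc : Continuous F := by
    apply Continuous.pow
    apply Continuous.norm
    apply continuous_of_dominated (bound := fun _ => 1)
    · intro ξ
      exact (ee_meas.comp (hg.mul_const ξ)).aestronglyMeasurable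
    · intro ξ
      filter_upwards with x using by simp [ee_norm]
    · exact integrable_const _
    · filter_upwards with x
      exact ee_cont.comp (by fun_prop)
  have hF0 : ∀ ξ, 0 ≤ F ξ := fun ξ => by positivity
  have hi : ∀ a b : ℝ, IntervalIntegrable (fun ξ => (1 - ξ / (2 * R)) * F ξ) volume a b := by
    intro a b
    apply Continuous.intervalIntegrable; fun_prop
  have h1 : ∫ ξ in (0:ℝ)..R, F ξ ≤ 2 * ∫ ξ in (0:ℝ)..R, (1 - ξ / (2 * R)) * F ξ := by
    rw [← intervalIntegral.integral_const_mul]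
    apply intervalIntegral.integral_mono_on hR.le
    · exact hFc.intervalIntegrable _ _
    · exact (hi 0 R).const_mul 2
    · intro ξ hξ
      have : ξ / (2 * R) ≤ 1 / 2 := by
        rw [div_le_div_iff₀ (by positivity) (by norm_num)]
        linarith [hξ.2]
      nlinarith [hF0 ξ]
  have h2 : ∫ ξ in (0:ℝ)..R, (1 - ξ / (2 * R)) * F ξ
      ≤ ∫ ξ in (0:ℝ)..(2 * R), (1 - ξ / (2 * R)) * F ξ := by
    rw [← intervalIntegral.integral_add_adjacent_intervals (hi 0 R) (hi R (2 * R))]
    have : 0 ≤ ∫ ξ in R..(2 * R), (1 - ξ / (2 * R)) * F ξ := by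
      apply intervalIntegral.integral_nonneg (by linarith)
      intro ξ hξ
      apply mul_nonneg _ (hF0 ξ)
      rw [sub_nonneg, div_le_one (by positivity)]
      exact hξ.2
    linarith
  calc _ ≤ 2 * ∫ ξ in (0:ℝ)..R, (1 - ξ / (2 * R)) * F ξ := h1
    _ ≤ _ := by gcongr

end Pool.Agent.NH64.DS.Mn
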