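import Mathlib
import Pool.Agent.NH64.DS.Fejer

/-!
# A fourth-power bound for bilinear forms
-/

set_option autoImplicit false

open MeasureTheory Set Real
open scoped ComplexConjugate ENNReal

namespace Pool.Agent.NH64.DS.Mn

lemma cs_real {X : Type*} [MeasurableSpace X] {μ : Measure X} {f g : X → ℝ}
    (hf : Integrable (fun x => f x ^ 2) μ) (hg : Integrable (fun x => g x ^ 2) μ)
    (hfg : Integrable (fun x => f x * g x) μ) :
    (∫ x, f x * g x ∂μ) ^ 2 ≤ (∫ x, f x ^ 2 ∂μ) * ∫ x, g x ^ 2 ∂μ := by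
  have h : ∀ t : ℝ, 0 ≤ (∫ x, g x ^ 2 ∂μ) * (t * t) + (2 * ∫ x, f x * g x ∂μ) * t
      + ∫ x, f x ^ 2 ∂μ := by
    intro t
    have h0 : 0 ≤ ∫ x, (f x + t * g x) ^ 2 ∂μ := integral_nonneg (fun x => sq_nonneg _)
    have h1 : ∀ x, (f x + t * g x) ^ 2 = f x ^ 2 + (2 * t) * (f x * g x) + (t * t) * g x ^ 2 := by
      intro x; ring
    simp only [h1] at h0
    have hi : Integrable (fun x => f x ^ 2 + (2 * t) * (f x * g x)) μ :=
      hf.add (hfg.const_mul _)
    rw [integral_add hi (hg.const_mul _),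
      integral_add hf (hfg.const_mul _), integral_const_mul, integral_const_mul] at h0
    linarith
  have := discrim_le_zero h
  unfold discrim at this
  nlinarith

lemma integrable_bdd {X E : Type*} [MeasurableSpace X] [NormedAddCommGroup E] [MeasurableSpace E]
    [BorelSpace E] [SecondCountableTopology E] {μ : Measure X}
    [IsFiniteMeasure μ] {f : X → E} (hf : Measurable f) {C : ℝ} (h : ∀ x, ‖f x‖ ≤ C) :
    Integrable f μ :=
  Integrable.of_bound hf.aestronglyMeasurable C (Filter.Eventually.of_forall h)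

lemma cs_complex {X : Type*} [MeasurableSpace X] {μ : Measure X} [IsFiniteMeasure μ] {f g : X → ℂ}
    (hf : Measurable f) (hg : Measurable g) {A B : ℝ} (hA : ∀ x, ‖f x‖ ≤ A)
    (hB : ∀ x, ‖g x‖ ≤ B) :
    ‖∫ x, f x * g x ∂μ‖ ^ 2 ≤ (∫ x, ‖f x‖ ^ 2 ∂μ) * ∫ x, ‖g x‖ ^ 2 ∂μ := by
  have h1 : ‖∫ x, f x * g x ∂μ‖ ≤ ∫ x, ‖f x‖ * ‖g x‖ ∂μ := by
    refine (norm_integral_le_integral_norm _).trans (le_of_eq ?_)
    simp
  have h2 := cs_real (μ := μ) (f := fun x => ‖f x‖) (g := fun x => ‖g x‖)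
    (integrable_bdd (C := A ^ 2) (by fun_prop) (fun x => by
      rw [norm_pow, norm_norm]; exact pow_le_pow_left₀ (norm_nonneg _) (hA x) 2))
    (integrable_bdd (C := B ^ 2) (by fun_prop) (fun x => by
      rw [norm_pow, norm_norm]; exact pow_le_pow_left₀ (norm_nonneg _) (hB x) 2))
    (integrable_bdd (C := A * B) (by fun_prop) (fun x => by
      rw [norm_mul, norm_norm, norm_norm]
      exact mul_le_mul (hA x) (hB x) (norm_nonneg _) ((norm_nonneg _).trans (hA x))))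
  calc ‖∫ x, f x * g x ∂μ‖ ^ 2 ≤ (∫ x, ‖f x‖ * ‖g x‖ ∂μ) ^ 2 := by
        exact pow_le_pow_left₀ (norm_nonneg _) h1 2
    _ ≤ _ := h2

lemma schatten4 {X Y : Type*} [MeasurableSpace X] [MeasurableSpace Y] (μ : Measure X)
    (ν : Measure Y) [IsFiniteMeasure μ] [IsFiniteMeasure ν] {f : X → ℂ} {g : Y → ℂ}
    {K : X × Y → ℂ} (hf : Measurable f) (hg : Measurable g) (hK : Measurable K) {A B D : ℝ}
    (hA : ∀ x, ‖f x‖ ≤ A) (hB : ∀ y, ‖g y‖ ≤ B) (hD : ∀ z, ‖K z‖ ≤ D) :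
    ‖∫ z, f z.1 * g z.2 * K z ∂(μ.prod ν)‖ ^ 4 ≤
      (∫ x, ‖f x‖ ^ 2 ∂μ) ^ 2 * (∫ y, ‖g y‖ ^ 2 ∂ν) ^ 2 *
        ∫ z, ‖∫ y, K (z.1, y) * conj (K (z.2, y)) ∂ν‖ ^ 2 ∂(μ.prod μ) := by
  by_cases hX : IsEmpty X
  · have : μ = 0 := Measure.eq_zero_of_isEmpty μ
    subst this
    simp
  by_cases hY : IsEmpty Y
  · have : ν = 0 := Measure.eq_zero_of_isEmpty ν
    subst this
    simp
  rw [not_isEmpty_iff] at hX hY
  obtain ⟨x0⟩ := hX
  obtain ⟨y0⟩ := hY
  have hA0 : 0 ≤ A := (norm_nonneg _).trans (hA x0)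
  have hB0 : 0 ≤ B := (norm_nonneg _).trans (hB y0)
  have hD0 : 0 ≤ D := (norm_nonneg _).trans (hD (x0, y0))
  set F : Y → ℂ := fun y => ∫ x, f x * K (x, y) ∂μ with hF
  have hFm : Measurable F := by
    apply StronglyMeasurable.measurable
    apply StronglyMeasurable.integral_prod_left'
      (f := fun z : X × Y => f z.1 * K (z.1, z.2))
    apply Measurable.stronglyMeasurable
    fun_prop
  have hFb : ∀ y, ‖F y‖ ≤ A * D * μ.real univ := by
    intro y
    calc ‖F y‖ ≤ (A * D) * μ.real univ := by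
          apply norm_integral_le_of_norm_le_const
          filter_upwards with x
          rw [norm_mul]
          exact mul_le_mul (hA x) (hD _) (norm_nonneg _) hA0
      _ = _ := rfl
  -- step 1
  have hI : ∫ z, f z.1 * g z.2 * K z ∂(μ.prod ν) = ∫ y, g y * F y ∂ν := by
    rw [integral_prod_symm]
    · congr 1
      ext y
      rw [hF, ← integral_const_mul]
      congr 1
      ext x
      ring
    · apply integrable_bdd (C := A * B * D) (by fun_prop)
      intro z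
      rw [norm_mul, norm_mul]
      gcongr
      · exact hA _
      · exact hB _
      · exact hD _
  have h1 : ‖∫ z, f z.1 * g z.2 * K z ∂(μ.prod ν)‖ ^ 2
      ≤ (∫ y, ‖g y‖ ^ 2 ∂ν) * ∫ y, ‖F y‖ ^ 2 ∂ν := by
    rw [hI]
    exact cs_complex hg hFm hB hFb
  -- step 2
  set κ : X × X → ℂ := fun z => ∫ y, K (z.1, y) * conj (K (z.2, y)) ∂ν with hκ
  have hκm : Measurable κ := by
    apply StronglyMeasurable.measurable
    apply StronglyMeasurable.integral_prod_right'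
      (f := fun w : (X × X) × Y => K (w.1.1, w.2) * conj (K (w.1.2, w.2)))
    apply Measurable.stronglyMeasurable
    have : Measurable (fun z : ℂ => conj z) := Complex.continuous_conj.measurable
    fun_prop
  have hκb : ∀ z, ‖κ z‖ ≤ D * D * ν.real univ := by
    intro z
    apply norm_integral_le_of_norm_le_const
    filter_upwards with x
    rw [norm_mul, RCLike.norm_conj]
    exact mul_le_mul (hD _) (hD _) (norm_nonneg _) hD0
  have h2 : ((∫ y, ‖F y‖ ^ 2 ∂ν : ℝ) : ℂ)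
      = ∫ z, f z.1 * conj (f z.2) * κ z ∂(μ.prod μ) := by
    rw [← integral_complex_ofReal]
    have h3 : ∀ y, ((‖F y‖ ^ 2 : ℝ) : ℂ)
        = ∫ z, (f z.1 * K (z.1, y)) * conj (f z.2 * K (z.2, y)) ∂(μ.prod μ) := by
      intro y
      rw [integral_prod_mul (f := fun x => f x * K (x, y))
        (g := fun x => conj (f x * K (x, y))), integral_conj, ← Complex.normSq_eq_norm_sq,
        ← Complex.mul_conj]
    simp only [h3]
    rw [integral_integral_swap]
    · congr 1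
      ext z
      rw [hκ, ← integral_const_mul]
      congr 1
      ext y
      simp only [map_mul]
      ring
    · have hc : Measurable (fun z : ℂ => conj z) := Complex.continuous_conj.measurable
      apply integrable_bdd (C := (A * D) * (A * D))
      · unfold Function.uncurry
        fun_prop
      · intro z
        simp only [Function.uncurry, norm_mul, RCLike.norm_conj]
        gcongr
        · exact hA _
        · exact hD _
        · exact hA _
        · exact hD _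
  have h4 : (∫ y, ‖F y‖ ^ 2 ∂ν) ^ 2 ≤ (∫ x, ‖f x‖ ^ 2 ∂μ) ^ 2 * ∫ z, ‖κ z‖ ^ 2 ∂(μ.prod μ) := by
    have h5 : (∫ y, ‖F y‖ ^ 2 ∂ν) ^ 2 = ‖∫ z, f z.1 * conj (f z.2) * κ z ∂(μ.prod μ)‖ ^ 2 := by
      rw [← h2, Complex.norm_real, norm_eq_abs, sq_abs]
    rw [h5]
    have hc : Measurable (fun z : ℂ => conj z) := Complex.continuous_conj.measurable
    refine (cs_complex (A := A * A) (B := D * D * ν.real univ)
      (f := fun z : X × X => f z.1 * conj (f z.2)) (g := κ) (by fun_prop) hκm ?_ hκb).trans ?_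
    · intro z
      rw [norm_mul, RCLike.norm_conj]
      gcongr
      · exact hA _
      · exact hA _
    · apply le_of_eq
      congr 1
      have : ∀ z : X × X, ‖f z.1 * conj (f z.2)‖ ^ 2 = ‖f z.1‖ ^ 2 * ‖f z.2‖ ^ 2 := by
        intro z
        rw [norm_mul, RCLike.norm_conj, mul_pow]
      simp only [this]
      rw [integral_prod_mul (f := fun x => ‖f x‖ ^ 2) (g := fun x => ‖f x‖ ^ 2)]
      ring
  calc ‖∫ z, f z.1 * g z.2 * K z ∂(μ.prod ν)‖ ^ 4
      = (‖∫ z, f z.1 * g z.2 * K z ∂(μ.prod ν)‖ ^ 2) ^ 2 := by ring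
    _ ≤ ((∫ y, ‖g y‖ ^ 2 ∂ν) * ∫ y, ‖F y‖ ^ 2 ∂ν) ^ 2 := by gcongr
    _ = (∫ y, ‖g y‖ ^ 2 ∂ν) ^ 2 * (∫ y, ‖F y‖ ^ 2 ∂ν) ^ 2 := by ring
    _ ≤ (∫ y, ‖g y‖ ^ 2 ∂ν) ^ 2 * ((∫ x, ‖f x‖ ^ 2 ∂μ) ^ 2 * ∫ z, ‖κ z‖ ^ 2 ∂(μ.prod μ)) := by
        gcongr
    _ = _ := by ring

end Pool.Agent.NH64.DS.Mn
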