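import Mathlib

/-!
# A counting argument in the plane
-/

set_option autoImplicit false

open MeasureTheory Set Real
open scoped ENNReal

namespace Pool.Agent.NH64.DS.Mn

lemma cs_enn {X : Type*} [MeasurableSpace X] (μ : Measure X) {G : X → ℝ≥0∞}
    (hG : Measurable G) :
    (∫⁻ x, G x ∂μ) ^ 2 ≤ μ univ * ∫⁻ x, (G x) ^ 2 ∂μ := by
  have h := ENNReal.lintegral_mul_le_Lp_mul_Lq μ (p := 2) (q := 2)
    (Real.holderConjugate_iff.mpr ⟨by norm_num, by norm_num⟩) (f := G) (g := fun _ => 1)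
    hG.aemeasurable aemeasurable_const
  simp only [Pi.mul_apply, mul_one, ENNReal.one_rpow, lintegral_const, one_mul] at h
  calc (∫⁻ x, G x ∂μ) ^ 2
      ≤ ((∫⁻ x, G x ^ (2:ℝ) ∂μ) ^ (1 / (2:ℝ)) * μ univ ^ (1 / (2:ℝ))) ^ 2 := by gcongr
    _ = μ univ * ∫⁻ x, (G x) ^ 2 ∂μ := by
        rw [mul_pow, ← ENNReal.rpow_natCast, ← ENNReal.rpow_natCast, ← ENNReal.rpow_mul,
          ← ENNReal.rpow_mul]
        norm_num
        rw [mul_comm]

/-- the slice of quadruples -/
def slc (S : Set (ℝ × ℝ)) (lam a b : ℝ) : Set ℝ :=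
  {q | (a - q, q) ∈ S ∧ (a - q, q + lam) ∈ S ∧ (b, q) ∈ S ∧ (b - lam, q + lam) ∈ S}

lemma slc_meas {S : Set (ℝ × ℝ)} (hS : MeasurableSet S) (lam a b : ℝ) :
    MeasurableSet (slc S lam a b) := by
  unfold slc
  simp only [ofPred_and]
  refine MeasurableSet.inter ?_ (MeasurableSet.inter ?_ (MeasurableSet.inter ?_ ?_))
  · exact hS.preimage (by fun_prop : Measurable fun q : ℝ => (a - q, q))
  · exact hS.preimage (by fun_prop : Measurable fun q : ℝ => (a - q, q + lam))
  · exact hS.preimage (by fun_prop : Measurable fun q : ℝ => (b, q))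
  · exact hS.preimage (by fun_prop : Measurable fun q : ℝ => (b - lam, q + lam))

/-- indicator function with values in the extended nonnegative reals -/
noncomputable def sg (S : Set (ℝ × ℝ)) (p q : ℝ) : ℝ≥0∞ := S.indicator (fun _ => 1) (p, q)

lemma sg_meas {S : Set (ℝ × ℝ)} (hS : MeasurableSet S) :
    Measurable (fun z : ℝ × ℝ => sg S z.1 z.2) := by
  unfold sg
  exact measurable_const.indicator hS

lemma sg_meas' {S : Set (ℝ × ℝ)} (hS : MeasurableSet S) {X : Type*} [MeasurableSpace X]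
    {f g : X → ℝ} (hf : Measurable f) (hg : Measurable g) :
    Measurable (fun x => sg S (f x) (g x)) :=
  (sg_meas hS).comp (hf.prodMk hg)

lemma slc_int {S : Set (ℝ × ℝ)} (hS : MeasurableSet S) (lam a b : ℝ) :
    volume (slc S lam a b) = ∫⁻ q, sg S (a - q) q * sg S (a - q) (q + lam) * sg S b q *
      sg S (b - lam) (q + lam) := by
  classical
  rw [← lintegral_indicator_one (slc_meas hS lam a b)]
  congr 1
  ext q
  unfold sg
  simp only [indicator_apply, slc, mem_ofPred_eq, Pi.one_apply]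
  by_cases h1 : (a - q, q) ∈ S <;> by_cases h2 : (a - q, q + lam) ∈ S <;>
    by_cases h3 : (b, q) ∈ S <;> by_cases h4 : (b - lam, q + lam) ∈ S <;> simp [h1, h2, h3, h4]

/-- total count, first form -/
lemma count_eq {S : Set (ℝ × ℝ)} (hS : MeasurableSet S) :
    ∫⁻ y : ℝ × (ℝ × ℝ), volume (slc S y.1 y.2.1 y.2.2) =
      ∫⁻ z : ℝ × ℝ, (∫⁻ q, sg S z.1 q * sg S (z.2 - q) q) ^ 2 := by
  have e0 : ∫⁻ y : ℝ × (ℝ × ℝ), volume (slc S y.1 y.2.1 y.2.2) =
      ∫⁻ y : ℝ × (ℝ × ℝ), ∫⁻ q, sg S (y.2.1 - q) q * sg S (y.2.1 - q) (q + y.1) * sg S y.2.2 q *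
      sg S (y.2.2 - y.1) (q + y.1) := by
    congr 1
    ext y
    rw [slc_int hS]
  rw [e0, lintegral_lintegral_swap]
  swap
  · apply Measurable.aemeasurable
    unfold Function.uncurry
    refine ((Measurable.mul ?_ ?_).mul ?_).mul ?_
    · exact sg_meas' hS (by fun_prop) (by fun_prop)
    · exact sg_meas' hS (by fun_prop) (by fun_prop)
    · exact sg_meas' hS (by fun_prop) (by fun_prop)
    · exact sg_meas' hS (by fun_prop) (by fun_prop)
  have e1 : ∀ q : ℝ, ∫⁻ y : ℝ × (ℝ × ℝ), sg S (y.2.1 - q) q * sg S (y.2.1 - q) (q + y.1) *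
      sg S y.2.2 q * sg S (y.2.2 - y.1) (q + y.1)
      = ∫⁻ q' : ℝ, ∫⁻ z : ℝ × ℝ, (sg S z.1 q * sg S (z.2 - q) q) *
        (sg S z.1 q' * sg S (z.2 - q') q') := by
    intro q
    rw [Measure.volume_eq_prod, lintegral_prod]
    swap
    · apply Measurable.aemeasurable
      refine ((Measurable.mul ?_ ?_).mul ?_).mul ?_
      · exact sg_meas' hS (by fun_prop) (by fun_prop)
      · exact sg_meas' hS (by fun_prop) (by fun_prop)
      · exact sg_meas' hS (by fun_prop) (by fun_prop)
      · exact sg_meas' hS (by fun_prop) (by fun_prop)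
    rw [← lintegral_sub_right_eq_self _ q]
    congr 1
    ext q'
    rw [Measure.volume_eq_prod, lintegral_prod, lintegral_prod]
    rotate_left
    · apply Measurable.aemeasurable
      refine (Measurable.mul ?_ ?_).mul (Measurable.mul ?_ ?_)
      · exact sg_meas' hS (by fun_prop) (by fun_prop)
      · exact sg_meas' hS (by fun_prop) (by fun_prop)
      · exact sg_meas' hS (by fun_prop) (by fun_prop)
      · exact sg_meas' hS (by fun_prop) (by fun_prop)
    · apply Measurable.aemeasurable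
      refine ((Measurable.mul ?_ ?_).mul ?_).mul ?_
      · exact sg_meas' hS (by fun_prop) (by fun_prop)
      · exact sg_meas' hS (by fun_prop) (by fun_prop)
      · exact sg_meas' hS (by fun_prop) (by fun_prop)
      · exact sg_meas' hS (by fun_prop) (by fun_prop)
    rw [← lintegral_add_right_eq_self _ q]
    congr 1
    ext p
    rw [← lintegral_sub_right_eq_self _ q]
    congr 1
    ext x
    have a1 : p + q - q = p := by ring
    have a2 : q + (q' - q) = q' := by ring
    have a3 : x - q - (q' - q) = x - q' := by ring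
    simp only [a1, a2, a3]
    ring
  simp only [e1]
  have e2 : ∫⁻ q : ℝ, ∫⁻ q' : ℝ, ∫⁻ z : ℝ × ℝ, (sg S z.1 q * sg S (z.2 - q) q) *
        (sg S z.1 q' * sg S (z.2 - q') q')
      = ∫⁻ y : ℝ × ℝ, ∫⁻ z : ℝ × ℝ, (sg S z.1 y.1 * sg S (z.2 - y.1) y.1) *
        (sg S z.1 y.2 * sg S (z.2 - y.2) y.2) := by
    conv_rhs => rw [Measure.volume_eq_prod]
    rw [lintegral_prod]
    · simp only [Measure.volume_eq_prod]
    · apply Measurable.aemeasurable
      apply Measurable.lintegral_prod_right'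
        (f := fun w : (ℝ × ℝ) × (ℝ × ℝ) => (sg S w.2.1 w.1.1 * sg S (w.2.2 - w.1.1) w.1.1) *
        (sg S w.2.1 w.1.2 * sg S (w.2.2 - w.1.2) w.1.2))
      refine (Measurable.mul ?_ ?_).mul (Measurable.mul ?_ ?_)
      · exact sg_meas' hS (by fun_prop) (by fun_prop)
      · exact sg_meas' hS (by fun_prop) (by fun_prop)
      · exact sg_meas' hS (by fun_prop) (by fun_prop)
      · exact sg_meas' hS (by fun_prop) (by fun_prop)
  rw [e2, lintegral_lintegral_swap]
  swap
  · apply Measurable.aemeasurable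
    unfold Function.uncurry
    refine (Measurable.mul ?_ ?_).mul (Measurable.mul ?_ ?_)
    · exact sg_meas' hS (by fun_prop) (by fun_prop)
    · exact sg_meas' hS (by fun_prop) (by fun_prop)
    · exact sg_meas' hS (by fun_prop) (by fun_prop)
    · exact sg_meas' hS (by fun_prop) (by fun_prop)
  congr 1
  ext z
  have hm : Measurable (fun q => sg S z.1 q * sg S (z.2 - q) q) := by
    refine Measurable.mul ?_ ?_
    · exact sg_meas' hS (by fun_prop) (by fun_prop)
    · exact sg_meas' hS (by fun_prop) (by fun_prop)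
  rw [pow_two]
  rw [Measure.volume_eq_prod,
    lintegral_prod_mul (f := fun q => sg S z.1 q * sg S (z.2 - q) q)
      (g := fun q => sg S z.1 q * sg S (z.2 - q) q) hm.aemeasurable hm.aemeasurable]

/-- lower bound for the total count -/
lemma count_ge {S : Set (ℝ × ℝ)} (hS : MeasurableSet S)
    (hb : ∀ z ∈ S, z.1 ∈ Icc (-2 : ℝ) 2 ∧ z.2 ∈ Icc (-1 : ℝ) 1 ∧ z.1 + z.2 ∈ Icc (-1 : ℝ) 1) :
    (volume S) ^ 4 ≤ 32 * ∫⁻ z : ℝ × ℝ, (∫⁻ q, sg S z.1 q * sg S (z.2 - q) q) ^ 2 := by
  set G : ℝ × ℝ → ℝ≥0∞ := fun z => ∫⁻ q, sg S z.1 q * sg S (z.2 - q) q with hG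
  have hkm : Measurable (fun w : (ℝ × ℝ) × ℝ => sg S w.1.1 w.2 * sg S (w.1.2 - w.2) w.2) := by
    refine Measurable.mul ?_ ?_
    · exact sg_meas' hS (by fun_prop) (by fun_prop)
    · exact sg_meas' hS (by fun_prop) (by fun_prop)
  have hGm : Measurable G := hkm.lintegral_prod_right'
  set D : Set (ℝ × ℝ) := Icc (-2 : ℝ) 2 ×ˢ Icc (-1 : ℝ) 1 with hD
  have hDv : volume D = 8 := by
    rw [hD, Measure.volume_eq_prod, Measure.prod_prod, Real.volume_Icc, Real.volume_Icc,
      ← ENNReal.ofReal_mul (by norm_num)]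
    norm_num
  have hG0 : ∀ z, z ∉ D → G z = 0 := by
    intro z hz
    rw [hG]
    simp only
    have hkz : Measurable (fun q : ℝ => sg S z.1 q * sg S (z.2 - q) q) :=
      hkm.comp (by fun_prop : Measurable fun q : ℝ => (z, q))
    rw [lintegral_eq_zero_iff hkz]
    filter_upwards with q
    simp only [Pi.zero_apply, mul_eq_zero]
    by_contra hc
    push Not at hc
    apply hz
    have h1 : (z.1, q) ∈ S := by
      by_contra h
      exact hc.1 (by unfold sg; rw [indicator_of_notMem h])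
    have h2 : (z.2 - q, q) ∈ S := by
      by_contra h
      exact hc.2 (by unfold sg; rw [indicator_of_notMem h])
    have h3 := (hb _ h1).1
    have h4 := (hb _ h2).2.2
    simp only [sub_add_cancel] at h4
    exact ⟨h3, h4⟩
  -- first moment
  set sq : ℝ → ℝ≥0∞ := fun q => ∫⁻ p, sg S p q with hsq
  have hsqm : Measurable sq := by
    have : Measurable (fun w : ℝ × ℝ => sg S w.2 w.1) :=
      sg_meas' hS (by fun_prop) (by fun_prop)
    exact this.lintegral_prod_right'
  have hfirst : ∫⁻ z, G z = ∫⁻ q, (sq q) ^ 2 := by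
    rw [hG, lintegral_lintegral_swap (by unfold Function.uncurry; exact hkm.aemeasurable)]
    congr 1
    ext q
    rw [Measure.volume_eq_prod,
      lintegral_prod_mul (f := fun p => sg S p q) (g := fun x => sg S (x - q) q)
      (sg_meas' hS (by fun_prop) (by fun_prop)).aemeasurable
      (sg_meas' hS (by fun_prop) (by fun_prop)).aemeasurable,
      lintegral_sub_right_eq_self (fun x => sg S x q) q, pow_two]
  have hsq0 : ∀ q, q ∉ Icc (-1 : ℝ) 1 → sq q = 0 := by
    intro q hq
    rw [hsq]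
    simp only
    rw [lintegral_eq_zero_iff (sg_meas' hS (by fun_prop) (by fun_prop))]
    filter_upwards with p
    unfold sg
    rw [indicator_of_notMem]
    · rfl
    · intro h
      exact hq (hb _ h).2.1
  have hV : volume S = ∫⁻ q, sq q := by
    rw [← lintegral_indicator_one hS, Measure.volume_eq_prod, lintegral_prod_symm]
    · rfl
    · exact (measurable_one.indicator hS).aemeasurable
  have h1 : (volume S) ^ 2 ≤ 2 * ∫⁻ q, (sq q) ^ 2 := by
    have e1 : ∫⁻ q, sq q = ∫⁻ q in Icc (-1 : ℝ) 1, sq q := by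
      symm
      apply setLIntegral_eq_of_support_subset
      intro q hq
      by_contra hc
      exact hq (hsq0 q hc)
    rw [hV, e1]
    refine (cs_enn (volume.restrict (Icc (-1 : ℝ) 1)) hsqm).trans ?_
    have e2 : (volume.restrict (Icc (-1 : ℝ) 1)) univ = 2 := by
      rw [Measure.restrict_apply_univ, Real.volume_Icc]; norm_num
    rw [e2]
    gcongr
    exact Measure.restrict_le_self
  have h2 : (∫⁻ z, G z) ^ 2 ≤ 8 * ∫⁻ z, (G z) ^ 2 := by
    have e1 : ∫⁻ z, G z = ∫⁻ z in D, G z := by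
      symm
      apply setLIntegral_eq_of_support_subset
      intro q hq
      by_contra hc
      exact hq (hG0 q hc)
    rw [e1]
    refine (cs_enn (volume.restrict D) hGm).trans ?_
    rw [Measure.restrict_apply_univ, hDv]
    gcongr
    exact Measure.restrict_le_self
  calc (volume S) ^ 4 = ((volume S) ^ 2) ^ 2 := by ring
    _ ≤ (2 * ∫⁻ z, G z) ^ 2 := by rw [hfirst]; gcongr
    _ = 4 * (∫⁻ z, G z) ^ 2 := by ring
    _ ≤ 4 * (8 * ∫⁻ z, (G z) ^ 2) := by gcongr
    _ = _ := by ring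

/-- existence of a rich slice with `lam` away from zero -/
theorem exists_slice {S : Set (ℝ × ℝ)} (hS : MeasurableSet S)
    (hb : ∀ z ∈ S, z.1 ∈ Icc (-2 : ℝ) 2 ∧ z.2 ∈ Icc (-1 : ℝ) 1 ∧ z.1 + z.2 ∈ Icc (-1 : ℝ) 1)
    {ν : ℝ} (hν : 0 < ν) (hVν : ENNReal.ofReal (2048 * ν) < (volume S) ^ 4) :
    ∃ lam a b : ℝ, ν < |lam| ∧ ENNReal.ofReal ν < volume (slc S lam a b) := by
  by_contra hcon
  push Not at hcon
  have hge := count_ge hS hb
  rw [← count_eq hS] at hge
  set B : Set (ℝ × (ℝ × ℝ)) := Icc (-2 : ℝ) 2 ×ˢ (Icc (-1 : ℝ) 1 ×ˢ Icc (-2 : ℝ) 2) with hB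
  set B' : Set (ℝ × (ℝ × ℝ)) := Icc (-ν) ν ×ˢ (Icc (-1 : ℝ) 1 ×ˢ Icc (-2 : ℝ) 2) with hB'
  have hbox : ∀ lam a b q, q ∈ slc S lam a b →
      lam ∈ Icc (-2 : ℝ) 2 ∧ a ∈ Icc (-1 : ℝ) 1 ∧ b ∈ Icc (-2 : ℝ) 2 ∧ q ∈ Icc (-1 : ℝ) 1 := by
    intro lam a b q ⟨h1, h2, h3, h4⟩
    have g1 := hb _ h1
    have g2 := hb _ h2
    have g3 := hb _ h3
    have g4 := hb _ h4
    simp only [mem_Icc, sub_add_cancel] at *
    refine ⟨⟨?_, ?_⟩, ⟨?_, ?_⟩, ⟨?_, ?_⟩, ⟨?_, ?_⟩⟩ <;> linarith
  have hpt : ∀ y : ℝ × (ℝ × ℝ), volume (slc S y.1 y.2.1 y.2.2) ≤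
      B'.indicator (fun _ => 2) y + B.indicator (fun _ => ENNReal.ofReal ν) y := by
    intro y
    by_cases hy : y ∈ B
    · rw [indicator_of_mem hy]
      by_cases hl : ν < |y.1|
      · exact (hcon y.1 y.2.1 y.2.2 hl).trans le_add_self
      · have hy' : y ∈ B' := by
          rw [not_lt, abs_le] at hl
          exact ⟨hl, hy.2⟩
        rw [indicator_of_mem hy']
        refine le_trans ?_ le_self_add
        calc volume (slc S y.1 y.2.1 y.2.2) ≤ volume (Icc (-1 : ℝ) 1) := by
              apply measure_mono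
              intro q hq
              exact (hbox _ _ _ q hq).2.2.2
          _ = 2 := by rw [Real.volume_Icc]; norm_num
    · have : slc S y.1 y.2.1 y.2.2 = ∅ := by
        ext q
        simp only [mem_empty_iff_false, iff_false]
        intro hq
        apply hy
        have := hbox _ _ _ q hq
        exact ⟨this.1, this.2.1, this.2.2.1⟩
      rw [this]
      simp
  have hBm : MeasurableSet B := measurableSet_Icc.prod (measurableSet_Icc.prod measurableSet_Icc)
  have hBm' : MeasurableSet B' := measurableSet_Icc.prod (measurableSet_Icc.prod measurableSet_Icc)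
  have hBv : volume B = 32 := by
    rw [hB, Measure.volume_eq_prod, Measure.prod_prod, Measure.volume_eq_prod, Measure.prod_prod,
      Real.volume_Icc, Real.volume_Icc, ← ENNReal.ofReal_mul (by norm_num),
      ← ENNReal.ofReal_mul (by norm_num)]
    norm_num
  have hBv' : volume B' = ENNReal.ofReal (16 * ν) := by
    rw [hB', Measure.volume_eq_prod, Measure.prod_prod, Measure.volume_eq_prod, Measure.prod_prod,
      Real.volume_Icc, Real.volume_Icc, Real.volume_Icc, ← ENNReal.ofReal_mul (by norm_num),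
      ← ENNReal.ofReal_mul (by linarith)]
    congr 1
    ring
  have htot : ∫⁻ y : ℝ × (ℝ × ℝ), volume (slc S y.1 y.2.1 y.2.2) ≤ ENNReal.ofReal (64 * ν) := by
    calc ∫⁻ y : ℝ × (ℝ × ℝ), volume (slc S y.1 y.2.1 y.2.2)
        ≤ ∫⁻ y, (B'.indicator (fun _ => 2) y + B.indicator (fun _ => ENNReal.ofReal ν) y) :=
          lintegral_mono hpt
      _ = 2 * volume B' + ENNReal.ofReal ν * volume B := by
          rw [lintegral_add_left (measurable_const.indicator hBm'),
            lintegral_indicator_const hBm', lintegral_indicator_const hBm]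
      _ = ENNReal.ofReal (64 * ν) := by
          rw [hBv, hBv']
          have h2 : (2 : ℝ≥0∞) = ENNReal.ofReal 2 := by simp
          have h32 : (32 : ℝ≥0∞) = ENNReal.ofReal 32 := by simp
          rw [h2, h32, ← ENNReal.ofReal_mul (by norm_num), ← ENNReal.ofReal_mul hν.le,
            ← ENNReal.ofReal_add (by positivity) (by positivity)]
          congr 1
          ring
  have : (volume S) ^ 4 ≤ ENNReal.ofReal (2048 * ν) := by
    calc (volume S) ^ 4 ≤ 32 * ENNReal.ofReal (64 * ν) := hge.trans (by gcongr)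
      _ = ENNReal.ofReal (2048 * ν) := by
        have h32 : (32 : ℝ≥0∞) = ENNReal.ofReal 32 := by simp
        rw [h32, ← ENNReal.ofReal_mul (by norm_num)]
        congr 1
        ring
  exact absurd hVν (not_lt.mpr this)

end Pool.Agent.NH64.DS.Mn
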