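import Mathlib
import Pool.Agent.NH64.DS.Fejer

/-!
# Energy estimate for Frostman measures
-/

set_option autoImplicit false

open MeasureTheory Set Real
open scoped ComplexConjugate ENNReal

namespace Pool.Agent.NH64.DS.Mn

lemma fej_dyadic {R : ℝ} (hR : 0 < R) (y : ℝ) :
    ENNReal.ofReal (fej (2 * R) y) ≤
      ∑' k : ℕ, (Metric.closedBall (0 : ℝ) (2 ^ k / R)).indicator
        (fun _ => ENNReal.ofReal (R * (1 / 4) ^ k)) y := by
  classical
  -- the least k with |y| ≤ 2^k / R
  have hex : ∃ k : ℕ, |y| ≤ 2 ^ k / R := by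
    obtain ⟨k, hk⟩ := pow_unbounded_of_one_lt (|y| * R) (one_lt_two)
    exact ⟨k, by rw [le_div_iff₀ hR]; exact hk.le⟩
  set k := Nat.find hex with hk
  have hk1 : |y| ≤ 2 ^ k / R := Nat.find_spec hex
  have hle : ENNReal.ofReal (fej (2 * R) y) ≤ ENNReal.ofReal (R * (1 / 4) ^ k) := by
    apply ENNReal.ofReal_le_ofReal
    rcases Nat.eq_zero_or_pos k with h0 | hpos
    · rw [h0]
      have := fej_le (by linarith : 0 < 2 * R) y
      simp only [pow_zero, mul_one]
      linarith
    · have hmin := Nat.find_min hex (m := k - 1) (by rw [← hk]; omega)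
      rw [not_le] at hmin
      have hk2 : (2 : ℝ) ^ k = 2 * 2 ^ (k - 1) := by
        rw [← pow_succ']
        congr 1
        omega
      have hy : y ≠ 0 := by
        rintro rfl
        simp only [abs_zero] at hmin
        have : (0:ℝ) < 2 ^ (k - 1) / R := by positivity
        linarith
      refine (fej_le' (by linarith : 0 < 2 * R) hy).trans ?_
      have h4 : ((1:ℝ) / 4) ^ k = (1 / 4) / (2 ^ (k - 1)) ^ 2 := by
        rw [← pow_mul, mul_comm (k-1) 2, pow_mul]
        have : k = (k - 1) + 1 := by omega
        conv_lhs => rw [this]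
        rw [pow_succ, one_div_pow]
        norm_num
        ring
      rw [h4]
      have h5 : (2 ^ (k - 1)) / R < |y| := hmin
      have h6 : (2 ^ (k - 1) / R) ^ 2 < y ^ 2 := by
        rw [← sq_abs y]
        gcongr
      have hp : (0:ℝ) < 2 ^ (k - 1) := by positivity
      rw [div_pow, div_lt_iff₀ (by positivity)] at h6
      rw [← mul_div_assoc, div_le_div_iff₀ (by positivity) (by positivity)]
      have hpi : (1:ℝ) ≤ π ^ 2 := by nlinarith [pi_gt_three]
      have hz : 0 < y ^ 2 * R ^ 2 := by positivity
      nlinarith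
  refine hle.trans ?_
  have hmem : y ∈ Metric.closedBall (0 : ℝ) (2 ^ k / R) := by
    rw [Metric.mem_closedBall, dist_zero_right]; exact hk1
  have := ENNReal.le_tsum (f := fun k : ℕ => (Metric.closedBall (0 : ℝ) (2 ^ k / R)).indicator
        (fun _ => ENNReal.ofReal (R * (1 / 4) ^ k)) y) k
  simp only [indicator_of_mem hmem] at this
  exact this

lemma fej_frostman (μ : Measure ℝ) [IsProbabilityMeasure μ] {s C : ℝ} (hs0 : 0 < s) (hs1 : s < 1)
    (hC : 0 ≤ C) (hμ : Fros μ s C) {R : ℝ} (hR : 0 < R) (x : ℝ) :
    ∫ a, fej (2 * R) (x - a) ∂μ ≤ 2 * C * R ^ (1 - s) := by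
  have hR1 : 0 < R ^ (1 - s) := by positivity
  rw [integral_eq_lintegral_of_nonneg_ae]
  · apply ENNReal.toReal_le_of_le_ofReal (by positivity)
    calc ∫⁻ a, ENNReal.ofReal (fej (2 * R) (x - a)) ∂μ
        ≤ ∫⁻ a, ∑' k : ℕ, (Metric.closedBall x (2 ^ k / R)).indicator
            (fun _ => ENNReal.ofReal (R * (1 / 4) ^ k)) a ∂μ := by
          apply lintegral_mono
          intro a
          refine (fej_dyadic hR (x - a)).trans (le_of_eq ?_)
          congr 1
          ext k
          by_cases h : a ∈ Metric.closedBall x (2 ^ k / R)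
          · rw [indicator_of_mem h, indicator_of_mem]
            rw [Metric.mem_closedBall, dist_zero_right]
            rwa [Metric.mem_closedBall, dist_comm, dist_eq_norm] at h
          · rw [indicator_of_notMem h, indicator_of_notMem]
            rw [Metric.mem_closedBall, dist_zero_right]
            rwa [Metric.mem_closedBall, dist_comm, dist_eq_norm] at h
      _ = ∑' k : ℕ, ENNReal.ofReal (R * (1 / 4) ^ k) * μ (Metric.closedBall x (2 ^ k / R)) := by
          rw [lintegral_tsum]
          · congr 1
            ext k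
            rw [lintegral_indicator_const Metric.isClosed_closedBall.measurableSet]
          · intro k
            exact (measurable_const.indicator
              Metric.isClosed_closedBall.measurableSet).aemeasurable
      _ ≤ ∑' k : ℕ, ENNReal.ofReal (C * R ^ (1 - s) * (1 / 2) ^ k) := by
          apply ENNReal.tsum_le_tsum
          intro k
          calc ENNReal.ofReal (R * (1 / 4) ^ k) * μ (Metric.closedBall x (2 ^ k / R))
              ≤ ENNReal.ofReal (R * (1 / 4) ^ k) * ENNReal.ofReal (C * (2 ^ k / R) ^ s) := by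
                gcongr
                exact hμ x _ (by positivity)
            _ = ENNReal.ofReal (R * (1 / 4) ^ k * (C * (2 ^ k / R) ^ s)) := by
                rw [ENNReal.ofReal_mul (by positivity : (0:ℝ) ≤ R * (1 / 4) ^ k)]
            _ ≤ _ := by
                apply ENNReal.ofReal_le_ofReal
                have h1 : ((2:ℝ) ^ k / R) ^ s = ((2:ℝ) ^ k) ^ s / R ^ s :=
                  Real.div_rpow (by positivity) hR.le s
                have h2 : ((2:ℝ) ^ k) ^ s ≤ 2 ^ k := by
                  calc ((2:ℝ) ^ k) ^ s ≤ ((2:ℝ) ^ k) ^ (1:ℝ) :=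
                        Real.rpow_le_rpow_of_exponent_le (one_le_pow₀ one_le_two) hs1.le
                    _ = 2 ^ k := Real.rpow_one _
                have h3 : R ^ (1 - s) = R / R ^ s := by
                  rw [Real.rpow_sub hR, Real.rpow_one]
                rw [h1, h3]
                have h4 : ((1:ℝ) / 2) ^ k = (1 / 4) ^ k * 2 ^ k := by
                  rw [← mul_pow]; norm_num
                rw [h4]
                have hRs : 0 < R ^ s := by positivity
                calc R * (1 / 4) ^ k * (C * (((2:ℝ) ^ k) ^ s / R ^ s))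
                    ≤ R * (1 / 4) ^ k * (C * (2 ^ k / R ^ s)) := by gcongr
                  _ = _ := by ring
      _ = ENNReal.ofReal (∑' k : ℕ, C * R ^ (1 - s) * (1 / 2) ^ k) := by
          rw [ENNReal.ofReal_tsum_of_nonneg]
          · intro k; positivity
          · exact summable_geometric_two.mul_left _
      _ ≤ ENNReal.ofReal (2 * C * R ^ (1 - s)) := by
          rw [tsum_mul_left, tsum_geometric_two]
          apply ENNReal.ofReal_le_ofReal
          linarith
  · filter_upwards with a using fej_nonneg (by linarith) _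
  · exact (fej_meas.comp (by fun_prop)).aestronglyMeasurable

/-- Fourier transform of a measure -/
noncomputable def mm (μ : Measure ℝ) (ξ : ℝ) : ℂ := ∫ a, ee (a * ξ) ∂μ

lemma mm_cont (μ : Measure ℝ) [IsProbabilityMeasure μ] : Continuous (mm μ) := by
  apply continuous_of_dominated (bound := fun _ => 1)
  · intro ξ
    exact (ee_meas.comp (measurable_id.mul_const ξ)).aestronglyMeasurable
  · intro ξ
    filter_upwards with x using by simp [ee_norm]
  · exact integrable_const _
  · filter_upwards with x
    exact ee_cont.comp (by fun_prop)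

lemma mm_norm (μ : Measure ℝ) [IsProbabilityMeasure μ] (ξ : ℝ) : ‖mm μ ξ‖ ≤ 1 := by
  unfold mm
  calc ‖∫ a, ee (a * ξ) ∂μ‖ ≤ ∫ a, ‖ee (a * ξ)‖ ∂μ := norm_integral_le_integral_norm _
    _ = 1 := by simp [ee_norm]

/-- the energy estimate -/
lemma energy (μ : Measure ℝ) [IsProbabilityMeasure μ] {s C : ℝ} (hs0 : 0 < s) (hs1 : s < 1)
    (hC : 0 ≤ C) (hμ : Fros μ s C) {R : ℝ} (hR : 0 < R) :
    ∫ ξ in (0:ℝ)..R, ‖mm μ ξ‖ ^ 2 ≤ 4 * C * R ^ (1 - s) := by
  have h1 := int_sq_le_fej μ hR (g := fun a => a) measurable_id
  have h2 : ∫ z, fej (2 * R) (z.1 - z.2) ∂(μ.prod μ) ≤ 2 * C * R ^ (1 - s) := by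
    have hint : Integrable (fun z : ℝ × ℝ => fej (2 * R) (z.1 - z.2)) (μ.prod μ) := by
      apply Integrable.of_bound (C := R)
      · exact (fej_meas.comp (by fun_prop)).aestronglyMeasurable
      · filter_upwards with z
        rw [norm_eq_abs, abs_of_nonneg (fej_nonneg (by linarith) _)]
        have := fej_le (by linarith : 0 < 2 * R) (z.1 - z.2)
        linarith
    rw [integral_prod _ hint]
    calc ∫ x, ∫ y, fej (2 * R) (x - y) ∂μ ∂μ ≤ ∫ x, 2 * C * R ^ (1 - s) ∂μ := by
          apply integral_mono_of_nonneg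
          · filter_upwards with x
            exact integral_nonneg (fun y => fej_nonneg (by linarith) _)
          · exact integrable_const _
          · filter_upwards with x
            exact fej_frostman μ hs0 hs1 hC hμ hR x
      _ = _ := by simp
  calc _ ≤ _ := h1
    _ ≤ 2 * (2 * C * R ^ (1 - s)) := by gcongr
    _ = _ := by ring

end Pool.Agent.NH64.DS.Mn
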