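import Mathlib
import Pool.Agent.NH64.DS.Energy
import Pool.Agent.NH64.DS.S4

/-!
# The high-frequency part
-/

set_option autoImplicit false

open MeasureTheory Set Real
open scoped ComplexConjugate ENNReal

namespace Pool.Agent.NH64.DS.Mn

/-- mass of the strip `|a - e^l a' - w l| ≤ 1/(2R)` -/
noncomputable def PP (μ : Measure ℝ) (w : ℝ → ℝ) (R l : ℝ) : ℝ :=
  (μ.prod μ).real {z : ℝ × ℝ | |z.1 - exp l * z.2 - w l| ≤ 1 / (2 * R)}

lemma PP_set_meas (w : ℝ → ℝ) (R l : ℝ) :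
    MeasurableSet {z : ℝ × ℝ | |z.1 - exp l * z.2 - w l| ≤ 1 / (2 * R)} := by
  apply measurableSet_le _ measurable_const
  fun_prop

lemma PP_le_fej (μ : Measure ℝ) [IsProbabilityMeasure μ] (w : ℝ → ℝ) {R : ℝ} (hR : 0 < R) (l : ℝ) :
    PP μ w R l ≤ π ^ 2 / (2 * R) * ∫ z, fej R (z.1 - exp l * z.2 - w l) ∂(μ.prod μ) := by
  unfold PP
  rw [← integral_indicator_one (PP_set_meas w R l), ← integral_const_mul]
  apply integral_mono_of_nonneg
  · filter_upwards with z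
    exact indicator_nonneg (fun _ _ => zero_le_one) _
  · apply Integrable.const_mul
    apply integrable_bdd (C := R / 2) (fej_meas.comp (by fun_prop))
    intro z
    rw [norm_eq_abs, Function.comp, abs_of_nonneg (fej_nonneg hR _)]
    exact fej_le hR _
  · filter_upwards with z
    by_cases hz : z ∈ {z : ℝ × ℝ | |z.1 - exp l * z.2 - w l| ≤ 1 / (2 * R)}
    · rw [indicator_of_mem hz]
      have := fej_ge hR hz
      have h2 : π ^ 2 / (2 * R) * (2 / π ^ 2 * R) = 1 := by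
        field_simp
      calc (1 : ℝ) = π ^ 2 / (2 * R) * (2 / π ^ 2 * R) := h2.symm
        _ ≤ _ := by gcongr
    · rw [indicator_of_notMem hz]
      have := fej_nonneg hR (z.1 - exp l * z.2 - w l)
      positivity

/-- the integrand of the frequency integral -/
noncomputable def hh (μ : Measure ℝ) (w : ℝ → ℝ) (R l ξ : ℝ) : ℂ :=
  ((1 - ξ / R : ℝ) : ℂ) * (mm μ ξ * conj (mm μ (exp l * ξ)) * ee (-(w l * ξ)))

lemma hh_cont (μ : Measure ℝ) [IsProbabilityMeasure μ] (w : ℝ → ℝ) (R l : ℝ) :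
    Continuous (hh μ w R l) := by
  unfold hh
  have h1 := mm_cont μ
  have h2 := ee_cont
  have h3 := Complex.continuous_conj
  have h4 : Continuous (fun ξ => conj (mm μ (exp l * ξ))) := h3.comp (h1.comp (by fun_prop))
  have h5 : Continuous (fun ξ => ee (-(w l * ξ))) := h2.comp (by fun_prop)
  fun_prop

lemma fej_int_eq (μ : Measure ℝ) [IsProbabilityMeasure μ] (w : ℝ → ℝ) {R : ℝ} (hR : 0 < R)
    (l : ℝ) :
    ∫ z, fej R (z.1 - exp l * z.2 - w l) ∂(μ.prod μ) = (∫ ξ in (0:ℝ)..R, hh μ w R l ξ).re := by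
  rw [fej_integral (μ.prod μ) hR (g := fun z : ℝ × ℝ => z.1 - exp l * z.2 - w l) (by fun_prop)]
  have h0 : (∫ ξ in (0:ℝ)..R, hh μ w R l ξ).re = ∫ ξ in (0:ℝ)..R, (hh μ w R l ξ).re := by
    have := (Complex.reCLM).intervalIntegral_comp_comm
      ((hh_cont μ w R l).intervalIntegrable (μ := volume) 0 R)
    simpa using this.symm
  rw [h0]
  apply intervalIntegral.integral_congr
  intro ξ _
  simp only
  unfold hh
  rw [Complex.re_ofReal_mul]
  congr 2
  have h1 : ∀ z : ℝ × ℝ, ee ((z.1 - exp l * z.2 - w l) * ξ)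
      = ee (-(w l * ξ)) * (ee (z.1 * ξ) * conj (ee (z.2 * (exp l * ξ)))) := by
    intro z
    rw [ee_conj, ← ee_add, ← ee_add]
    congr 1
    ring
  simp only [h1]
  rw [integral_const_mul, integral_prod_mul (f := fun x => ee (x * ξ))
    (g := fun x => conj (ee (x * (exp l * ξ)))), integral_conj]
  unfold mm
  ring

lemma int_scale (μ : Measure ℝ) {c R : ℝ} (hc : 0 < c) :
    ∫ ξ in (0:ℝ)..R, ‖mm μ (c * ξ)‖ ^ 2 = c⁻¹ * ∫ ξ in (0:ℝ)..(c * R), ‖mm μ ξ‖ ^ 2 := by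
  rw [intervalIntegral.integral_comp_mul_left (fun ξ => ‖mm μ ξ‖ ^ 2) hc.ne']
  simp

lemma low_part (μ : Measure ℝ) [IsProbabilityMeasure μ] (w : ℝ → ℝ) {s C : ℝ} (hs0 : 0 < s)
    (hs1 : s < 1) (hC : 0 ≤ C) (hμ : Fros μ s C) {R R0 : ℝ} (hR0 : 0 < R0) (hR : R0 ≤ R)
    {l : ℝ} (hl : l ∈ Icc (-1 : ℝ) 1) :
    ‖∫ ξ in (0:ℝ)..R0, hh μ w R l ξ‖ ≤ 8 * C * R0 ^ (1 - s) := by
  have hRp : 0 < R := by linarith
  have h1 : ‖∫ ξ in (0:ℝ)..R0, hh μ w R l ξ‖
      ≤ ∫ ξ in (0:ℝ)..R0, (1 / 2) * (‖mm μ ξ‖ ^ 2 + ‖mm μ (exp l * ξ)‖ ^ 2) := by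
    have hmc := mm_cont μ
    have hmc2 : Continuous (fun ξ => mm μ (exp l * ξ)) := hmc.comp (by fun_prop)
    apply intervalIntegral.norm_integral_le_of_norm_le hR0.le
    · apply Filter.Eventually.of_forall
      intro ξ hξ
      unfold hh
      rw [norm_mul, norm_mul, norm_mul, ee_norm, RCLike.norm_conj, mul_one]
      have h2 : ‖((1 - ξ / R : ℝ) : ℂ)‖ ≤ 1 := by
        rw [Complex.norm_real, norm_eq_abs, abs_le]
        have h2 : ξ / R ≤ 1 := by rw [div_le_one hRp]; linarith [hξ.2]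
        have h3 : 0 ≤ ξ / R := div_nonneg hξ.1.le hRp.le
        constructor <;> linarith
      have h3 : ‖mm μ ξ‖ * ‖mm μ (exp l * ξ)‖
          ≤ (1 / 2) * (‖mm μ ξ‖ ^ 2 + ‖mm μ (exp l * ξ)‖ ^ 2) := by
        nlinarith [sq_nonneg (‖mm μ ξ‖ - ‖mm μ (exp l * ξ)‖)]
      calc _ ≤ 1 * (‖mm μ ξ‖ * ‖mm μ (exp l * ξ)‖) := by gcongr
        _ ≤ _ := by rw [one_mul]; exact h3
    · apply Continuous.intervalIntegrable
      fun_prop
  refine h1.trans ?_
  have hmc := mm_cont μ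
  have hmc2 : Continuous (fun ξ => mm μ (exp l * ξ)) := hmc.comp (by fun_prop)
  rw [intervalIntegral.integral_const_mul, intervalIntegral.integral_add
    (Continuous.intervalIntegrable (by fun_prop) _ _)
    (Continuous.intervalIntegrable (by fun_prop) _ _)]
  rw [int_scale μ (exp_pos l)]
  have e1 := energy μ hs0 hs1 hC hμ hR0
  have e2 := energy μ hs0 hs1 hC hμ (R := exp l * R0) (by positivity)
  have e3 : (exp l)⁻¹ * ∫ ξ in (0:ℝ)..(exp l * R0), ‖mm μ ξ‖ ^ 2 ≤ 12 * C * R0 ^ (1 - s) := by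
    have h5 : (exp l)⁻¹ * (4 * C * (exp l * R0) ^ (1 - s)) ≤ 12 * C * R0 ^ (1 - s) := by
      rw [Real.mul_rpow (exp_pos l).le hR0.le, ← Real.exp_mul, ← Real.exp_neg]
      have h6 : exp (-l) * exp (l * (1 - s)) ≤ 3 := by
        rw [← Real.exp_add]
        have : -l + l * (1 - s) ≤ 1 := by
          have := hl.1
          have := hl.2
          nlinarith
        calc _ ≤ exp 1 := Real.exp_le_exp.mpr this
          _ ≤ 3 := by linarith [Real.exp_one_lt_d9]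
      have h7 : 0 ≤ C * R0 ^ (1 - s) := by positivity
      calc exp (-l) * (4 * C * (exp (l * (1 - s)) * R0 ^ (1 - s)))
          = 4 * (C * R0 ^ (1 - s)) * (exp (-l) * exp (l * (1 - s))) := by ring
        _ ≤ 4 * (C * R0 ^ (1 - s)) * 3 := by gcongr
        _ = _ := by ring
    calc _ ≤ (exp l)⁻¹ * (4 * C * (exp l * R0) ^ (1 - s)) := by gcongr
      _ ≤ _ := h5
  linarith

lemma fej_split (μ : Measure ℝ) [IsProbabilityMeasure μ] (w : ℝ → ℝ) {s C : ℝ} (hs0 : 0 < s)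
    (hs1 : s < 1) (hC : 0 ≤ C) (hμ : Fros μ s C) {R R0 : ℝ} (hR0 : 0 < R0) (hR : R0 ≤ R)
    {l : ℝ} (hl : l ∈ Icc (-1 : ℝ) 1) :
    PP μ w R l ≤ π ^ 2 / (2 * R) *
      (8 * C * R0 ^ (1 - s) + (∫ ξ in R0..R, hh μ w R l ξ).re) := by
  have hRp : 0 < R := by linarith
  refine (PP_le_fej μ w hRp l).trans ?_
  rw [fej_int_eq μ w hRp l]
  have hc := hh_cont μ w R l
  rw [← intervalIntegral.integral_add_adjacent_intervals (b := R0)
    (hc.intervalIntegrable _ _) (hc.intervalIntegrable _ _), Complex.add_re]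
  have h1 := low_part μ w hs0 hs1 hC hμ hR0 hR hl
  have h2 := (Complex.re_le_norm (∫ ξ in (0:ℝ)..R0, hh μ w R l ξ)).trans h1
  gcongr

end Pool.Agent.NH64.DS.Mn
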