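import Mathlib
import Pool.Agent.NH64.DS.High

/-!
# The high-frequency part, continued: reduction to a four-fold configuration
-/

set_option autoImplicit false

open MeasureTheory Set Real
open scoped ComplexConjugate ENNReal

namespace Pool.Agent.NH64.DS.Mn

/-- the phase function -/
noncomputable def om (w : ℝ → ℝ) (h l : ℝ) : ℝ := exp h * w (l - h) - w l

/-- the overlap set -/
def ov (Λ : Set ℝ) (h : ℝ) : Set ℝ := Λ ∩ {l | l - h ∈ Λ}

/-- correlation function -/
noncomputable def Phi (Λ : Set ℝ) (w : ℝ → ℝ) (h ξ : ℝ) : ℂ :=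
  ∫ l in ov Λ h, ee (om w h l * ξ)

/-- the set of configurations -/
def TT (Λ : Set ℝ) (w : ℝ → ℝ) (M : ℝ) : Set (ℝ × (ℝ × ℝ)) :=
  {z | z.2.1 ∈ ov Λ z.1 ∧ z.2.2 ∈ ov Λ z.1 ∧ |om w z.1 z.2.1 - om w z.1 z.2.2| ≤ M}

lemma integrable_prod_restrict {s t : Set ℝ} (hs : MeasurableSet s) (ht : MeasurableSet t)
    [IsFiniteMeasure (volume.restrict s)] [IsFiniteMeasure (volume.restrict t)]
    {E : Type*} [NormedAddCommGroup E] [MeasurableSpace E]
    [BorelSpace E] [SecondCountableTopology E]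
    {F : ℝ × ℝ → E} (hF : Measurable F) {C : ℝ} (hb : ∀ z ∈ s ×ˢ t, ‖F z‖ ≤ C) :
    Integrable F ((volume.restrict s).prod (volume.restrict t)) := by
  apply Integrable.of_bound hF.aestronglyMeasurable C
  rw [Measure.prod_restrict]
  filter_upwards [ae_restrict_mem (hs.prod ht)] with z hz using hb z hz

lemma ov_meas {Λ : Set ℝ} (hΛ : MeasurableSet Λ) (h : ℝ) : MeasurableSet (ov Λ h) :=
  hΛ.inter (hΛ.preimage (by fun_prop : Measurable fun l : ℝ => l - h))

lemma ov_sub {Λ : Set ℝ} (hsub : Λ ⊆ Icc (-1) 1) (h : ℝ) : ov Λ h ⊆ Icc (-1) 1 :=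
  inter_subset_left.trans hsub

lemma ov_empty {Λ : Set ℝ} (hsub : Λ ⊆ Icc (-1) 1) {h : ℝ} (hh : h ∉ Icc (-2 : ℝ) 2) :
    ov Λ h = ∅ := by
  ext l
  simp only [ov, mem_inter_iff, mem_ofPred_eq, mem_empty_iff_false, iff_false, not_and]
  intro h1 h2
  have h3 := hsub h1
  have h4 := hsub h2
  apply hh
  simp only [mem_Icc] at *
  constructor <;> linarith

lemma vol_ov {Λ : Set ℝ} (hsub : Λ ⊆ Icc (-1) 1) (h : ℝ) : volume (ov Λ h) ≤ 2 := by
  calc volume (ov Λ h) ≤ volume (Icc (-1 : ℝ) 1) := measure_mono (ov_sub hsub h)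
    _ = 2 := by rw [Real.volume_Icc]; norm_num

lemma om_meas {w : ℝ → ℝ} (hw : Measurable w) : Measurable (fun z : ℝ × ℝ => om w z.1 z.2) := by
  unfold om
  fun_prop

lemma ovset_meas {Λ : Set ℝ} (hΛ : MeasurableSet Λ) :
    MeasurableSet {z : ℝ × ℝ | z.2 ∈ ov Λ z.1} := by
  unfold ov
  simp only [mem_inter_iff, mem_ofPred_eq, ofPred_and]
  exact (hΛ.preimage measurable_snd).inter
    (hΛ.preimage (by fun_prop : Measurable fun z : ℝ × ℝ => z.2 - z.1))

lemma TT_meas {Λ : Set ℝ} (hΛ : MeasurableSet Λ) {w : ℝ → ℝ} (hw : Measurable w) (M : ℝ) :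
    MeasurableSet (TT Λ w M) := by
  unfold TT
  simp only [ofPred_and]
  refine MeasurableSet.inter ?_ (MeasurableSet.inter ?_ ?_)
  · exact (ovset_meas hΛ).preimage (by fun_prop : Measurable fun z : ℝ × (ℝ × ℝ) => (z.1, z.2.1))
  · exact (ovset_meas hΛ).preimage (by fun_prop : Measurable fun z : ℝ × (ℝ × ℝ) => (z.1, z.2.2))
  · apply measurableSet_le _ measurable_const
    have h1 : Measurable (fun z : ℝ × (ℝ × ℝ) => om w z.1 z.2.1) :=
      (om_meas hw).comp (by fun_prop : Measurable fun z : ℝ × (ℝ × ℝ) => (z.1, z.2.1))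
    have h2 : Measurable (fun z : ℝ × (ℝ × ℝ) => om w z.1 z.2.2) :=
      (om_meas hw).comp (by fun_prop : Measurable fun z : ℝ × (ℝ × ℝ) => (z.1, z.2.2))
    have h3 : Measurable (fun z : ℝ × (ℝ × ℝ) => om w z.1 z.2.1 - om w z.1 z.2.2) := h1.sub h2
    simpa only [Real.norm_eq_abs] using h3.norm

lemma Phi_meas {Λ : Set ℝ} (hΛ : MeasurableSet Λ) {w : ℝ → ℝ} (hw : Measurable w) :
    Measurable (fun z : ℝ × ℝ => Phi Λ w z.1 z.2) := by
  have h1 : ∀ z : ℝ × ℝ, Phi Λ w z.1 z.2
      = ∫ l, ({z : ℝ × ℝ | z.2 ∈ ov Λ z.1}.indicator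
          (fun y => (1 : ℂ)) (z.1, l)) * ee (om w z.1 l * z.2) := by
    intro z
    unfold Phi
    rw [← integral_indicator (ov_meas hΛ z.1)]
    congr 1
    ext l
    by_cases hl : l ∈ ov Λ z.1
    · rw [indicator_of_mem hl, indicator_of_mem (by exact hl), one_mul]
    · rw [indicator_of_notMem hl, indicator_of_notMem (by exact hl), zero_mul]
  simp only [h1]
  apply StronglyMeasurable.measurable
  apply StronglyMeasurable.integral_prod_right'
    (f := fun y : (ℝ × ℝ) × ℝ => ({z : ℝ × ℝ | z.2 ∈ ov Λ z.1}.indicator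
          (fun y => (1 : ℂ)) (y.1.1, y.2)) * ee (om w y.1.1 y.2 * y.1.2))
  apply Measurable.stronglyMeasurable
  have h2 : Measurable ({z : ℝ × ℝ | z.2 ∈ ov Λ z.1}.indicator (fun _ => (1 : ℂ))) :=
    measurable_const.indicator (ovset_meas hΛ)
  have h3 : Measurable (fun y : (ℝ × ℝ) × ℝ => {z : ℝ × ℝ | z.2 ∈ ov Λ z.1}.indicator
      (fun _ => (1 : ℂ)) (y.1.1, y.2)) :=
    h2.comp (by fun_prop : Measurable fun y : (ℝ × ℝ) × ℝ => (y.1.1, y.2))
  have h4 : Measurable (fun y : (ℝ × ℝ) × ℝ => om w y.1.1 y.2) :=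
    (om_meas hw).comp (by fun_prop : Measurable fun y : (ℝ × ℝ) × ℝ => (y.1.1, y.2))
  have h5 : Measurable (fun y : (ℝ × ℝ) × ℝ => ee (om w y.1.1 y.2 * y.1.2)) :=
    ee_meas.comp (h4.mul (by fun_prop))
  exact h3.mul h5

lemma Phi_norm {Λ : Set ℝ} (hsub : Λ ⊆ Icc (-1) 1) (w : ℝ → ℝ) (h ξ : ℝ) :
    ‖Phi Λ w h ξ‖ ≤ 2 := by
  unfold Phi
  have hfin : IsFiniteMeasure (volume.restrict (ov Λ h)) := by
    constructor
    rw [Measure.restrict_apply_univ]
    exact (vol_ov hsub h).trans_lt (by simp)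
  have h1 := norm_integral_le_of_norm_le_const (μ := volume.restrict (ov Λ h)) (C := 1)
    (f := fun l => ee (om w h l * ξ)) (Filter.Eventually.of_forall fun l => by rw [ee_norm])
  refine h1.trans ?_
  rw [one_mul, measureReal_def, Measure.restrict_apply_univ]
  exact ENNReal.toReal_le_of_le_ofReal (by norm_num) (by
    rw [ENNReal.ofReal_ofNat]; exact vol_ov hsub h)

lemma Phi_zero {Λ : Set ℝ} (hsub : Λ ⊆ Icc (-1) 1) (w : ℝ → ℝ) {h : ℝ}
    (hh : h ∉ Icc (-2 : ℝ) 2) (ξ : ℝ) : Phi Λ w h ξ = 0 := by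
  unfold Phi
  rw [ov_empty hsub hh]
  simp

/-- frequency integral of `|Phi|^2` at fixed `h` -/
lemma Phi_int {Λ : Set ℝ} (hsub : Λ ⊆ Icc (-1) 1) {w : ℝ → ℝ}
    (hw : Measurable w) (h : ℝ) {R M : ℝ} (hR : 0 < R) (hM : 0 < M) :
    ∫ ξ in (0:ℝ)..R, ‖Phi Λ w h ξ‖ ^ 2 ≤
      2 * (R * (volume (Prod.mk h ⁻¹' TT Λ w M)).toReal + 4 / (R * M ^ 2)) := by
  have hfin : IsFiniteMeasure (volume.restrict (ov Λ h)) := by
    constructor
    rw [Measure.restrict_apply_univ]
    exact (vol_ov hsub h).trans_lt (by simp)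
  set ρ := volume.restrict (ov Λ h) with hρ
  have hom : Measurable (om w h) := (om_meas hw).comp (by fun_prop : Measurable fun l : ℝ => (h, l))
  have h1 := int_sq_le_fej ρ hR hom
  refine h1.trans ?_
  gcongr
  have hS : MeasurableSet {z : ℝ × ℝ | |om w h z.1 - om w h z.2| ≤ M} := by
    apply measurableSet_le _ measurable_const
    have : Measurable (fun z : ℝ × ℝ => om w h z.1 - om w h z.2) := by fun_prop
    simpa only [Real.norm_eq_abs] using this.norm
  have h2 : ∀ z : ℝ × ℝ, fej (2 * R) (om w h z.1 - om w h z.2) ≤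
      R * {z : ℝ × ℝ | |om w h z.1 - om w h z.2| ≤ M}.indicator 1 z + 1 / (R * M ^ 2) := by
    intro z
    by_cases hz : |om w h z.1 - om w h z.2| ≤ M
    · rw [indicator_of_mem (by exact hz)]
      have h3 := fej_le (by linarith : 0 < 2 * R) (om w h z.1 - om w h z.2)
      have h4 : 0 < 1 / (R * M ^ 2) := by positivity
      simp only [Pi.one_apply]
      linarith
    · rw [indicator_of_notMem (by exact hz)]
      push Not at hz
      have hne : om w h z.1 - om w h z.2 ≠ 0 := by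
        intro h0
        rw [h0, abs_zero] at hz
        linarith
      have h3 := fej_le' (by linarith : 0 < 2 * R) hne
      refine h3.trans ?_
      rw [mul_zero, zero_add]
      have h5 : M ^ 2 ≤ (om w h z.1 - om w h z.2) ^ 2 := by
        rw [← sq_abs (om w h z.1 - om w h z.2)]
        gcongr
      have hpi : (1:ℝ) ≤ π ^ 2 := by nlinarith [pi_gt_three]
      apply one_div_le_one_div_of_le (by positivity)
      have h6 : 0 < R * M ^ 2 := by positivity
      calc R * M ^ 2 ≤ R * (om w h z.1 - om w h z.2) ^ 2 := by gcongr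
        _ ≤ 2 * π ^ 2 * (2 * R) * (om w h z.1 - om w h z.2) ^ 2 := by
          have h7 : 0 ≤ R * (om w h z.1 - om w h z.2) ^ 2 := by positivity
          nlinarith
  have h3 : ∫ z, fej (2 * R) (om w h z.1 - om w h z.2) ∂(ρ.prod ρ) ≤
      ∫ z, (R * {z : ℝ × ℝ | |om w h z.1 - om w h z.2| ≤ M}.indicator 1 z
        + 1 / (R * M ^ 2)) ∂(ρ.prod ρ) := by
    apply integral_mono_of_nonneg
    · filter_upwards with z using fej_nonneg (by linarith) _
    · apply Integrable.add _ (integrable_const _)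
      apply Integrable.const_mul
      exact (integrable_const (1:ℝ)).indicator hS
    · filter_upwards with z using h2 z
  refine h3.trans ?_
  rw [integral_add _ (integrable_const _), integral_const_mul, integral_indicator_one hS]
  · have hmass : (ρ.prod ρ).real univ ≤ 4 := by
      have e1 : (ρ.prod ρ) univ ≤ 4 := by
        rw [← univ_prod_univ, Measure.prod_prod, hρ, Measure.restrict_apply_univ]
        calc volume (ov Λ h) * volume (ov Λ h) ≤ 2 * 2 := by
              gcongr <;> exact vol_ov hsub h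
          _ = 4 := by norm_num
      exact ENNReal.toReal_le_of_le_ofReal (by norm_num) (by
        rw [ENNReal.ofReal_ofNat]; exact e1)
    have hset : (ρ.prod ρ).real {z : ℝ × ℝ | |om w h z.1 - om w h z.2| ≤ M}
        = (volume (Prod.mk h ⁻¹' TT Λ w M)).toReal := by
      rw [measureReal_def, hρ, Measure.prod_restrict, Measure.restrict_apply hS]
      congr 2
      ext z
      simp only [TT, mem_inter_iff, mem_ofPred_eq, mem_prod, mem_preimage]
      tauto
    rw [hset]
    simp only [integral_const, smul_eq_mul]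
    have : (ρ.prod ρ).real univ * (1 / (R * M ^ 2)) ≤ 4 * (1 / (R * M ^ 2)) := by gcongr
    have e2 : 4 * (1 / (R * M ^ 2)) = 4 / (R * M ^ 2) := by ring
    linarith
  · apply Integrable.const_mul
    exact (integrable_const (1:ℝ)).indicator hS

end Pool.Agent.NH64.DS.Mn
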