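import Mathlib
import Pool.Agent.NH64.DS.High2

/-!
# The high-frequency part, continued: the fourth power estimate
-/

set_option autoImplicit false

open MeasureTheory Set Real
open scoped ComplexConjugate ENNReal

namespace Pool.Agent.NH64.DS.Mn

/-- kernel in logarithmic coordinates -/
noncomputable def KK (Λ : Set ℝ) (w : ℝ → ℝ) (z : ℝ × ℝ) : ℂ :=
  Λ.indicator (fun _ => (1:ℂ)) (z.2 - z.1) * ee (-(w (z.2 - z.1) * exp z.1))

/-- first function -/
noncomputable def ff (μ : Measure ℝ) (R α β : ℝ) : ℝ → ℂ :=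
  (Ioc α β).indicator (fun u => ((1 - exp u / R : ℝ) : ℂ) * mm μ (exp u) * ((exp u : ℝ) : ℂ))

/-- second function -/
noncomputable def gg (μ : Measure ℝ) : ℝ → ℂ := fun v => conj (mm μ (exp v))

lemma KK_meas {Λ : Set ℝ} (hΛ : MeasurableSet Λ) {w : ℝ → ℝ} (hw : Measurable w) :
    Measurable (KK Λ w) := by
  unfold KK
  have h1 : Measurable (Λ.indicator (fun _ => (1:ℂ))) := measurable_const.indicator hΛ
  have h2 : Measurable (fun z : ℝ × ℝ => Λ.indicator (fun _ => (1:ℂ)) (z.2 - z.1)) :=
    h1.comp (by fun_prop)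
  have h3 : Measurable (fun z : ℝ × ℝ => ee (-(w (z.2 - z.1) * exp z.1))) :=
    ee_meas.comp (by fun_prop)
  exact h2.mul h3

lemma KK_norm (Λ : Set ℝ) (w : ℝ → ℝ) (z : ℝ × ℝ) : ‖KK Λ w z‖ ≤ 1 := by
  unfold KK
  rw [norm_mul, ee_norm, mul_one]
  by_cases h : z.2 - z.1 ∈ Λ
  · rw [indicator_of_mem h]; simp
  · rw [indicator_of_notMem h]; simp

lemma gg_cont (μ : Measure ℝ) [IsProbabilityMeasure μ] : Continuous (gg μ) :=
  Complex.continuous_conj.comp ((mm_cont μ).comp Real.continuous_exp)

lemma gg_norm (μ : Measure ℝ) [IsProbabilityMeasure μ] (v : ℝ) : ‖gg μ v‖ ≤ 1 := by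
  unfold gg
  rw [RCLike.norm_conj]
  exact mm_norm μ _

lemma ff_meas (μ : Measure ℝ) [IsProbabilityMeasure μ] (R α β : ℝ) : Measurable (ff μ R α β) := by
  unfold ff
  apply Measurable.indicator _ measurableSet_Ioc
  have h1 : Measurable (fun u => mm μ (exp u)) := (mm_cont μ).measurable.comp (by fun_prop)
  fun_prop

lemma ff_norm (μ : Measure ℝ) [IsProbabilityMeasure μ] {R α : ℝ} (hR : 0 < R) (u : ℝ) :
    ‖ff μ R α (log R) u‖ ≤ R := by
  unfold ff
  by_cases h : u ∈ Ioc α (log R)
  · rw [indicator_of_mem h, norm_mul, norm_mul, Complex.norm_real, Complex.norm_real]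
    have h1 : exp u ≤ R := by
      calc exp u ≤ exp (log R) := Real.exp_le_exp.mpr h.2
        _ = R := Real.exp_log hR
    have h2 : ‖1 - exp u / R‖ ≤ 1 := by
      rw [norm_eq_abs, abs_le]
      have h2 : exp u / R ≤ 1 := by rw [div_le_one hR]; exact h1
      have h3 : 0 ≤ exp u / R := by positivity
      constructor <;> linarith
    rw [norm_eq_abs (exp u), abs_of_pos (exp_pos u)]
    calc _ ≤ 1 * 1 * R := by
          gcongr
          exact mm_norm μ _
      _ = R := by ring
  · rw [indicator_of_notMem h]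
    simpa using hR.le

/-- change of variables `ξ = e^u` -/
lemma exp_subst {E : Type*} [NormedAddCommGroup E] [NormedSpace ℝ E] {R0 R : ℝ}
    (hR0 : 0 < R0) (hR : R0 ≤ R) {F : ℝ → E} (hF : Continuous F) :
    ∫ ξ in R0..R, F ξ = ∫ u in (log R0)..(log R), exp u • F (exp u) := by
  have hRp : 0 < R := by linarith
  have h := intervalIntegral.integral_deriv_smul_comp (a := log R0) (b := log R) (f := exp)
    (f' := exp) (g := F) (fun x _ => Real.hasDerivAt_exp x) (Real.continuous_exp.continuousOn) hF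
  rw [Real.exp_log hR0, Real.exp_log hRp] at h
  exact h.symm

lemma I_eq (μ : Measure ℝ) [IsProbabilityMeasure μ] {Λ : Set ℝ} (hΛ : MeasurableSet Λ)
    (hsub : Λ ⊆ Icc (-1) 1) {w : ℝ → ℝ} (hw : Measurable w) {R R0 : ℝ} (hR0 : 0 < R0)
    (hR : R0 ≤ R) :
    ∫ l in Λ, ∫ ξ in R0..R, hh μ w R l ξ =
      ∫ z, ff μ R (log R0) (log R) z.1 * gg μ z.2 * KK Λ w z
        ∂((volume.restrict (Ioc (log R0) (log R))).prod
          (volume.restrict (Icc (log R0 - 1) (log R + 1)))) := by
  have hRp : 0 < R := by linarith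
  have hfin : IsFiniteMeasure (volume.restrict Λ) := by
    constructor
    rw [Measure.restrict_apply_univ]
    calc volume Λ ≤ volume (Icc (-1 : ℝ) 1) := measure_mono hsub
      _ < ⊤ := by simp
  set α := log R0
  set β := log R
  have hαβ : α ≤ β := Real.log_le_log hR0 hR
  -- right-hand side
  rw [integral_prod]
  swap
  · apply integrable_bdd (C := R * 1 * 1)
    · exact (((ff_meas μ R α β).comp measurable_fst).mul
        ((gg_cont μ).measurable.comp measurable_snd)).mul (KK_meas hΛ hw)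
    · intro z
      rw [norm_mul, norm_mul]
      gcongr
      · exact ff_norm μ hRp z.1
      · exact gg_norm μ _
      · exact KK_norm _ _ _
  have key : ∀ u ∈ Ioc α β, ∫ y in Icc (α - 1) (β + 1), ff μ R α β u * gg μ y * KK Λ w (u, y)
      = ∫ l in Λ, exp u • hh μ w R l (exp u) := by
    intro u hu
    rw [setIntegral_eq_integral_of_forall_compl_eq_zero]
    · rw [← integral_add_right_eq_self _ u, ← integral_indicator hΛ]
      congr 1
      ext l
      unfold KK
      simp only [add_sub_cancel_right]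
      by_cases hl : l ∈ Λ
      · rw [indicator_of_mem hl, indicator_of_mem hl]
        unfold ff gg hh
        rw [indicator_of_mem hu, Real.exp_add]
        rw [Complex.real_smul]
        ring
      · rw [indicator_of_notMem hl, indicator_of_notMem hl]
        simp
    · intro y hy
      unfold KK
      have : y - u ∉ Λ := by
        intro hc
        apply hy
        have := hsub hc
        simp only [mem_Icc, mem_Ioc] at *
        constructor <;> linarith
      simp only
      rw [indicator_of_notMem this]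
      simp
  rw [setIntegral_congr_fun measurableSet_Ioc key, integral_integral_swap]
  · congr 1
    ext l
    rw [exp_subst hR0 hR (hh_cont μ w R l), intervalIntegral.integral_of_le hαβ]
  · apply integrable_prod_restrict measurableSet_Ioc hΛ (C := R * (1 * (1 * 1 * 1)))
    · unfold Function.uncurry hh
      have h1 := (mm_cont μ).measurable
      have h2 := ee_meas
      have h3 : Measurable (fun z : ℂ => conj z) := Complex.continuous_conj.measurable
      have h4 : Measurable (fun z : ℝ × ℝ => mm μ (exp z.1)) := h1.comp (by fun_prop)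
      have h5 : Measurable (fun z : ℝ × ℝ => conj (mm μ (exp z.2 * exp z.1))) :=
        h3.comp (h1.comp (by fun_prop))
      have h6 : Measurable (fun z : ℝ × ℝ => ee (-(w z.2 * exp z.1))) :=
        h2.comp (by fun_prop)
      have h7 : Measurable (fun z : ℝ × ℝ => exp z.1) := by fun_prop
      apply Measurable.smul h7
      fun_prop
    · intro z hz
      have hz1 : z.1 ∈ Ioc α β := hz.1
      have h1 : exp z.1 ≤ R := by
        calc exp z.1 ≤ exp (log R) := Real.exp_le_exp.mpr hz1.2
          _ = R := Real.exp_log hRp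
      simp only [Function.uncurry]
      unfold hh
      rw [norm_smul, norm_mul, norm_mul, norm_mul, ee_norm, RCLike.norm_conj, norm_eq_abs,
        abs_of_pos (exp_pos _), Complex.norm_real]
      have h2 : ‖1 - exp z.1 / R‖ ≤ 1 := by
        rw [norm_eq_abs, abs_le]
        have h2 : exp z.1 / R ≤ 1 := by rw [div_le_one hRp]; exact h1
        have h3 : 0 ≤ exp z.1 / R := by positivity
        constructor <;> linarith
      gcongr
      · exact mm_norm μ _
      · exact mm_norm μ _

lemma ff_sq (μ : Measure ℝ) [IsProbabilityMeasure μ] {s C : ℝ} (hs0 : 0 < s)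
    (hs1 : s < 1) (hC : 0 ≤ C) (hμ : Fros μ s C) {R R0 : ℝ} (hR0 : 0 < R0) (hR : R0 ≤ R) :
    ∫ u in Ioc (log R0) (log R), ‖ff μ R (log R0) (log R) u‖ ^ 2 ≤ R * (4 * C * R ^ (1 - s)) := by
  have hRp : 0 < R := by linarith
  have hαβ : log R0 ≤ log R := Real.log_le_log hR0 hR
  have hmc := mm_cont μ
  have hF : Continuous (fun ξ => ‖mm μ ξ‖ ^ 2) := by fun_prop
  have h1 : ∫ u in Ioc (log R0) (log R), ‖ff μ R (log R0) (log R) u‖ ^ 2
      ≤ ∫ u in Ioc (log R0) (log R), R * (exp u • ‖mm μ (exp u)‖ ^ 2) := by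
    apply setIntegral_mono_on
    · apply integrable_bdd (C := R ^ 2) ((ff_meas μ R _ _).norm.pow_const 2)
      intro u
      rw [norm_pow, norm_norm]
      exact pow_le_pow_left₀ (norm_nonneg _) (ff_norm μ hRp u) 2
    · apply Continuous.integrableOn_Ioc
      fun_prop
    · exact measurableSet_Ioc
    · intro u hu
      unfold ff
      rw [indicator_of_mem hu, norm_mul, norm_mul, Complex.norm_real, Complex.norm_real]
      have h1 : exp u ≤ R := by
        calc exp u ≤ exp (log R) := Real.exp_le_exp.mpr hu.2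
          _ = R := Real.exp_log hRp
      have h2 : ‖1 - exp u / R‖ ≤ 1 := by
        rw [norm_eq_abs, abs_le]
        have h2 : exp u / R ≤ 1 := by rw [div_le_one hRp]; exact h1
        have h3 : 0 ≤ exp u / R := by positivity
        constructor <;> linarith
      rw [norm_eq_abs (exp u), abs_of_pos (exp_pos u), smul_eq_mul, mul_pow, mul_pow]
      have h3 : ‖1 - exp u / R‖ ^ 2 ≤ 1 := pow_le_one₀ (norm_nonneg _) h2
      calc ‖1 - exp u / R‖ ^ 2 * ‖mm μ (exp u)‖ ^ 2 * exp u ^ 2
          ≤ 1 * ‖mm μ (exp u)‖ ^ 2 * (R * exp u) := by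
            gcongr
            rw [pow_two]
            gcongr
        _ = _ := by ring
  refine h1.trans ?_
  rw [integral_const_mul, ← intervalIntegral.integral_of_le hαβ, ← exp_subst hR0 hR hF]
  gcongr
  refine le_trans ?_ (energy μ hs0 hs1 hC hμ hRp)
  rw [← intervalIntegral.integral_add_adjacent_intervals (b := R0) (a := 0)
    (hF.intervalIntegrable _ _) (hF.intervalIntegrable _ _)]
  have : 0 ≤ ∫ ξ in (0:ℝ)..R0, ‖mm μ ξ‖ ^ 2 :=
    intervalIntegral.integral_nonneg hR0.le (fun x _ => by positivity)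
  linarith

lemma gg_sq (μ : Measure ℝ) [IsProbabilityMeasure μ] {s C : ℝ} (hs0 : 0 < s)
    (hs1 : s < 1) (hC : 0 ≤ C) (hμ : Fros μ s C) {R R0 : ℝ} (hR0 : 0 < R0) (hR : R0 ≤ R) :
    ∫ u in Icc (log R0 - 1) (log R + 1), ‖gg μ u‖ ^ 2 ≤ 36 * C * R ^ (1 - s) / R0 := by
  have hRp : 0 < R := by linarith
  have hαβ : log R0 ≤ log R := Real.log_le_log hR0 hR
  have hmc := mm_cont μ
  have hF : Continuous (fun ξ => ‖mm μ ξ‖ ^ 2) := by fun_prop
  have he3 : exp 1 ≤ 3 := by linarith [Real.exp_one_lt_d9]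
  have h1 : ∫ u in Icc (log R0 - 1) (log R + 1), ‖gg μ u‖ ^ 2
      ≤ ∫ u in Icc (log R0 - 1) (log R + 1), (3 / R0) * (exp u • ‖mm μ (exp u)‖ ^ 2) := by
    apply setIntegral_mono_on
    · apply Continuous.integrableOn_Icc
      have := gg_cont μ
      fun_prop
    · apply Continuous.integrableOn_Icc
      fun_prop
    · exact measurableSet_Icc
    · intro u hu
      unfold gg
      rw [RCLike.norm_conj, smul_eq_mul, ← mul_assoc]
      have h2 : R0 / 3 ≤ exp u := by
        calc R0 / 3 ≤ R0 / exp 1 := by gcongr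
          _ = exp (log R0 - 1) := by rw [Real.exp_sub, Real.exp_log hR0]
          _ ≤ exp u := Real.exp_le_exp.mpr hu.1
      have h3 : 1 ≤ 3 / R0 * exp u := by
        rw [div_mul_eq_mul_div, le_div_iff₀ hR0]
        linarith
      nlinarith [sq_nonneg ‖mm μ (exp u)‖]
  refine h1.trans ?_
  have hR0' : 0 < R0 / exp 1 := by positivity
  have hR' : R0 / exp 1 ≤ exp 1 * R := by
    have : (1:ℝ) ≤ exp 1 := Real.one_le_exp zero_le_one
    calc R0 / exp 1 ≤ R0 := div_le_self hR0.le this
      _ ≤ R := hR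
      _ ≤ exp 1 * R := by nlinarith
  have h4 := exp_subst hR0' hR' hF
  rw [Real.log_div hR0.ne' (exp_pos 1).ne', Real.log_exp,
    Real.log_mul (exp_pos 1).ne' hRp.ne', Real.log_exp, add_comm 1 (log R)] at h4
  rw [integral_const_mul, integral_Icc_eq_integral_Ioc,
    ← intervalIntegral.integral_of_le (by linarith), ← h4]
  have h5 : ∫ ξ in (R0 / exp 1)..(exp 1 * R), ‖mm μ ξ‖ ^ 2 ≤ 12 * C * R ^ (1 - s) := by
    have h6 := energy μ hs0 hs1 hC hμ (R := exp 1 * R) (by positivity)
    have h7 : 4 * C * (exp 1 * R) ^ (1 - s) ≤ 12 * C * R ^ (1 - s) := by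
      rw [Real.mul_rpow (exp_pos 1).le hRp.le, ← Real.exp_mul]
      have h8 : exp (1 * (1 - s)) ≤ 3 := by
        calc _ ≤ exp 1 := Real.exp_le_exp.mpr (by linarith)
          _ ≤ 3 := he3
      have h9 : 0 ≤ C * R ^ (1 - s) := by positivity
      calc 4 * C * (exp (1 * (1 - s)) * R ^ (1 - s))
          = 4 * (C * R ^ (1 - s)) * exp (1 * (1 - s)) := by ring
        _ ≤ 4 * (C * R ^ (1 - s)) * 3 := by gcongr
        _ = _ := by ring
    refine le_trans ?_ (h6.trans h7)
    rw [← intervalIntegral.integral_add_adjacent_intervals (b := R0 / exp 1) (a := 0)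
      (hF.intervalIntegrable _ _) (hF.intervalIntegrable _ _)]
    have : 0 ≤ ∫ ξ in (0:ℝ)..(R0 / exp 1), ‖mm μ ξ‖ ^ 2 :=
      intervalIntegral.integral_nonneg hR0'.le (fun x _ => by positivity)
    linarith
  calc 3 / R0 * ∫ ξ in (R0 / exp 1)..(exp 1 * R), ‖mm μ ξ‖ ^ 2
      ≤ 3 / R0 * (12 * C * R ^ (1 - s)) := by gcongr
    _ = _ := by ring

end Pool.Agent.NH64.DS.Mn
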