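import Mathlib
import Pool.Agent.NH64.DS.High3

/-!
# The high-frequency part, continued: bound for the four-fold integral
-/

set_option autoImplicit false

open MeasureTheory Set Real
open scoped ComplexConjugate ENNReal

namespace Pool.Agent.NH64.DS.Mn

lemma KK_inner {Λ : Set ℝ} (hΛ : MeasurableSet Λ)
    (hsub : Λ ⊆ Icc (-1) 1) {w : ℝ → ℝ} {α β u u' : ℝ} (hu : u ∈ Ioc α β) :
    ∫ y in Icc (α - 1) (β + 1), KK Λ w (u, y) * conj (KK Λ w (u', y))
      = Phi Λ w (u' - u) (exp u) := by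
  rw [setIntegral_eq_integral_of_forall_compl_eq_zero]
  · rw [← integral_add_right_eq_self _ u]
    unfold Phi
    rw [← integral_indicator (ov_meas hΛ _)]
    congr 1
    ext l
    unfold KK
    have e1 : l + u - u' = l - (u' - u) := by ring
    simp only [add_sub_cancel_right, e1]
    by_cases hl : l ∈ Λ
    · by_cases hl' : l - (u' - u) ∈ Λ
      · have h3 : l ∈ ov Λ (u' - u) := ⟨hl, hl'⟩
        rw [indicator_of_mem hl, indicator_of_mem hl', indicator_of_mem h3, one_mul, one_mul,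
          ee_conj, ← ee_add]
        congr 1
        unfold om
        have : exp (u' - u) * exp u = exp u' := by rw [← Real.exp_add]; congr 1; ring
        rw [sub_mul, mul_right_comm, this]
        ring
      · have h3 : l ∉ ov Λ (u' - u) := fun h => hl' h.2
        rw [indicator_of_notMem hl', indicator_of_notMem h3]
        simp
    · have h3 : l ∉ ov Λ (u' - u) := fun h => hl h.1
      rw [indicator_of_notMem hl, indicator_of_notMem h3]
      simp
  · intro y hy
    unfold KK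
    have : y - u ∉ Λ := by
      intro hc
      apply hy
      have := hsub hc
      simp only [mem_Icc, mem_Ioc] at *
      constructor <;> linarith
    simp only
    rw [indicator_of_notMem this]
    simp

lemma Phi_cont {Λ : Set ℝ} (hsub : Λ ⊆ Icc (-1) 1) {w : ℝ → ℝ} (hw : Measurable w) (h : ℝ) :
    Continuous (Phi Λ w h) := by
  have hfin : IsFiniteMeasure (volume.restrict (ov Λ h)) := by
    constructor
    rw [Measure.restrict_apply_univ]
    exact (vol_ov hsub h).trans_lt (by simp)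
  have hom : Measurable (om w h) := (om_meas hw).comp (by fun_prop : Measurable fun l : ℝ => (h, l))
  apply continuous_of_dominated (bound := fun _ => 1)
  · intro ξ
    exact (ee_meas.comp (hom.mul_const ξ)).aestronglyMeasurable
  · intro ξ
    filter_upwards with x using by simp [ee_norm]
  · exact integrable_const _
  · filter_upwards with x
    exact ee_cont.comp (by fun_prop)

lemma slice_finite {Λ : Set ℝ} (hsub : Λ ⊆ Icc (-1) 1) (w : ℝ → ℝ) (M h : ℝ) :
    volume (Prod.mk h ⁻¹' TT Λ w M) ≤ 4 := by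
  calc volume (Prod.mk h ⁻¹' TT Λ w M) ≤ volume (Icc (-1 : ℝ) 1 ×ˢ Icc (-1 : ℝ) 1) := by
        apply measure_mono
        intro z hz
        exact ⟨hsub hz.1.1, hsub hz.2.1.1⟩
    _ = 4 := by
        rw [Measure.volume_eq_prod, Measure.prod_prod, Real.volume_Icc]
        norm_num [← ENNReal.ofReal_mul]

lemma TT_vol {Λ : Set ℝ} (hΛ : MeasurableSet Λ) (hsub : Λ ⊆ Icc (-1) 1) {w : ℝ → ℝ}
    (hw : Measurable w) (M : ℝ) :
    volume (TT Λ w M) = ∫⁻ h in Icc (-2 : ℝ) 2, volume (Prod.mk h ⁻¹' TT Λ w M) := by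
  rw [Measure.volume_eq_prod, Measure.prod_apply (TT_meas hΛ hw M)]
  symm
  apply setLIntegral_eq_of_support_subset
  intro h hh
  by_contra hc
  apply hh
  have : Prod.mk h ⁻¹' TT Λ w M = ∅ := by
    ext z
    simp only [mem_preimage, TT, mem_ofPred_eq, mem_empty_iff_false, iff_false]
    rw [ov_empty hsub hc]
    simp
  show volume (Prod.mk h ⁻¹' TT Λ w M) = 0
  rw [this]
  simp

lemma slice_meas {Λ : Set ℝ} (hΛ : MeasurableSet Λ) {w : ℝ → ℝ}
    (hw : Measurable w) (M : ℝ) :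
    Measurable (fun h => volume (Prod.mk h ⁻¹' TT Λ w M)) :=
  measurable_measure_prodMk_left (TT_meas hΛ hw M)

lemma TT_int {Λ : Set ℝ} (hΛ : MeasurableSet Λ) (hsub : Λ ⊆ Icc (-1) 1) {w : ℝ → ℝ}
    (hw : Measurable w) (M : ℝ) :
    ∫ h in Icc (-2 : ℝ) 2, (volume (Prod.mk h ⁻¹' TT Λ w M)).toReal = (volume (TT Λ w M)).toReal := by
  rw [TT_vol hΛ hsub hw M, integral_toReal (slice_meas hΛ hw M).aemeasurable]
  filter_upwards with h
  exact (slice_finite hsub w M h).trans_lt (by simp)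

/-- the bound for the four-fold integral -/
lemma Q_bound {Λ : Set ℝ} (hΛ : MeasurableSet Λ) (hsub : Λ ⊆ Icc (-1) 1) {w : ℝ → ℝ}
    (hw : Measurable w) {R R0 M : ℝ} (hR0 : 0 < R0) (hR : R0 ≤ R) (hM : 0 < M) :
    ∫ z, ‖∫ y in Icc (log R0 - 1) (log R + 1), KK Λ w (z.1, y) * conj (KK Λ w (z.2, y))‖ ^ 2
        ∂((volume.restrict (Ioc (log R0) (log R))).prod (volume.restrict (Ioc (log R0) (log R))))
      ≤ 2 / R0 * (R * (volume (TT Λ w M)).toReal + 16 / (R * M ^ 2)) := by
  have hRp : 0 < R := by linarith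
  have hαβ : log R0 ≤ log R := Real.log_le_log hR0 hR
  set α := log R0 with hα
  set β := log R with hβ
  have hPm := Phi_meas hΛ hw
  -- rewrite
  have h1 : ∫ z, ‖∫ y in Icc (α - 1) (β + 1), KK Λ w (z.1, y) * conj (KK Λ w (z.2, y))‖ ^ 2
        ∂((volume.restrict (Ioc α β)).prod (volume.restrict (Ioc α β)))
      = ∫ z, ‖Phi Λ w (z.2 - z.1) (exp z.1)‖ ^ 2
        ∂((volume.restrict (Ioc α β)).prod (volume.restrict (Ioc α β))) := by
    rw [Measure.prod_restrict]
    apply setIntegral_congr_fun (measurableSet_Ioc.prod measurableSet_Ioc)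
    intro z hz
    simp only
    rw [KK_inner hΛ hsub hz.1]
  rw [h1]
  have hm2 : Measurable (fun z : ℝ × ℝ => ‖Phi Λ w (z.2 - z.1) (exp z.1)‖ ^ 2) := by
    have : Measurable (fun z : ℝ × ℝ => Phi Λ w (z.2 - z.1) (exp z.1)) :=
      hPm.comp (by fun_prop : Measurable fun z : ℝ × ℝ => (z.2 - z.1, exp z.1))
    fun_prop
  have hb4 : ∀ h ξ, ‖Phi Λ w h ξ‖ ^ 2 ≤ 4 := by
    intro h ξ
    have := Phi_norm hsub w h ξ
    nlinarith [norm_nonneg (Phi Λ w h ξ)]
  rw [integral_prod _ (integrable_bdd (C := 4) hm2 (fun z => by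
    rw [norm_pow, norm_norm]; exact hb4 _ _))]
  -- inner bound
  have h2 : ∀ u, ∫ u' in Ioc α β, ‖Phi Λ w (u' - u) (exp u)‖ ^ 2
      ≤ ∫ h in Icc (-2 : ℝ) 2, ‖Phi Λ w h (exp u)‖ ^ 2 := by
    intro u
    have hmu : Measurable (fun h => ‖Phi Λ w h (exp u)‖ ^ 2) := by
      have : Measurable (fun h : ℝ => Phi Λ w h (exp u)) :=
        hPm.comp (by fun_prop : Measurable fun h : ℝ => (h, exp u))
      fun_prop
    have hsupp : ∀ h, h ∉ Icc (-2 : ℝ) 2 → ‖Phi Λ w h (exp u)‖ ^ 2 = 0 := by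
      intro h hh
      rw [Phi_zero hsub w hh]
      simp
    have hint : Integrable (fun h => ‖Phi Λ w h (exp u)‖ ^ 2) volume := by
      rw [← integrableOn_iff_integrable_of_support_subset (s := Icc (-2 : ℝ) 2)]
      · apply integrable_bdd (C := 4) hmu
        intro h
        rw [norm_pow, norm_norm]
        exact hb4 _ _
      · intro h hh
        by_contra hc
        exact hh (hsupp h hc)
    calc ∫ u' in Ioc α β, ‖Phi Λ w (u' - u) (exp u)‖ ^ 2
        ≤ ∫ u', ‖Phi Λ w (u' - u) (exp u)‖ ^ 2 := by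
          apply setIntegral_le_integral
          · exact hint.comp_sub_right u
          · filter_upwards with x using by positivity
      _ = ∫ h, ‖Phi Λ w h (exp u)‖ ^ 2 :=
          integral_sub_right_eq_self (fun h => ‖Phi Λ w h (exp u)‖ ^ 2) u
      _ = ∫ h in Icc (-2 : ℝ) 2, ‖Phi Λ w h (exp u)‖ ^ 2 := by
          symm
          exact setIntegral_eq_integral_of_forall_compl_eq_zero hsupp
  have hm3 : Measurable (fun z : ℝ × ℝ => ‖Phi Λ w z.2 (exp z.1)‖ ^ 2) := by
    have : Measurable (fun z : ℝ × ℝ => Phi Λ w z.2 (exp z.1)) :=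
      hPm.comp (by fun_prop : Measurable fun z : ℝ × ℝ => (z.2, exp z.1))
    fun_prop
  have hi3 : Integrable (fun z : ℝ × ℝ => ‖Phi Λ w z.2 (exp z.1)‖ ^ 2)
      ((volume.restrict (Ioc α β)).prod (volume.restrict (Icc (-2) 2))) :=
    integrable_bdd (C := 4) hm3 (fun z => by
      rw [norm_pow, norm_norm]; exact hb4 _ _)
  have h3 : ∫ u in Ioc α β, ∫ u' in Ioc α β, ‖Phi Λ w (u' - u) (exp u)‖ ^ 2
      ≤ ∫ u in Ioc α β, ∫ h in Icc (-2 : ℝ) 2, ‖Phi Λ w h (exp u)‖ ^ 2 := by
    apply integral_mono_of_nonneg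
    · filter_upwards with u
      apply integral_nonneg
      intro x
      positivity
    · exact hi3.integral_prod_left
    · filter_upwards with u using h2 u
  refine h3.trans ?_
  rw [integral_integral_swap hi3]
  -- bound for fixed h
  have h4 : ∀ h, ∫ u in Ioc α β, ‖Phi Λ w h (exp u)‖ ^ 2
      ≤ 2 / R0 * (R * (volume (Prod.mk h ⁻¹' TT Λ w M)).toReal + 4 / (R * M ^ 2)) := by
    intro h
    have hPc := Phi_cont hsub hw h
    have hFc : Continuous (fun ξ => ‖Phi Λ w h ξ‖ ^ 2) := by fun_prop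
    have h5 : ∫ u in Ioc α β, ‖Phi Λ w h (exp u)‖ ^ 2
        ≤ ∫ u in Ioc α β, R0⁻¹ * (exp u • ‖Phi Λ w h (exp u)‖ ^ 2) := by
      apply setIntegral_mono_on
      · apply Continuous.integrableOn_Ioc
        fun_prop
      · apply Continuous.integrableOn_Ioc
        fun_prop
      · exact measurableSet_Ioc
      · intro u hu
        have h6 : R0 ≤ exp u := by
          calc R0 = exp α := (Real.exp_log hR0).symm
            _ ≤ exp u := Real.exp_le_exp.mpr hu.1.le
        rw [smul_eq_mul, ← mul_assoc]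
        have h7 : 1 ≤ R0⁻¹ * exp u := by
          rw [inv_mul_eq_div, le_div_iff₀ hR0]
          linarith
        nlinarith [sq_nonneg ‖Phi Λ w h (exp u)‖]
    refine h5.trans ?_
    rw [integral_const_mul, ← intervalIntegral.integral_of_le hαβ, ← exp_subst hR0 hR hFc]
    have h8 : ∫ ξ in R0..R, ‖Phi Λ w h ξ‖ ^ 2 ≤ ∫ ξ in (0:ℝ)..R, ‖Phi Λ w h ξ‖ ^ 2 := by
      rw [← intervalIntegral.integral_add_adjacent_intervals (b := R0) (a := 0)
        (hFc.intervalIntegrable _ _) (hFc.intervalIntegrable _ _)]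
      have : 0 ≤ ∫ ξ in (0:ℝ)..R0, ‖Phi Λ w h ξ‖ ^ 2 :=
        intervalIntegral.integral_nonneg hR0.le (fun x _ => by positivity)
      linarith
    have h9 := Phi_int hsub hw h hRp hM
    calc R0⁻¹ * ∫ ξ in R0..R, ‖Phi Λ w h ξ‖ ^ 2
        ≤ R0⁻¹ * (2 * (R * (volume (Prod.mk h ⁻¹' TT Λ w M)).toReal + 4 / (R * M ^ 2))) := by
          gcongr
          exact h8.trans h9
      _ = _ := by ring
  have h5 : ∫ h in Icc (-2 : ℝ) 2, ∫ u in Ioc α β, ‖Phi Λ w h (exp u)‖ ^ 2
      ≤ ∫ h in Icc (-2 : ℝ) 2,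
        2 / R0 * (R * (volume (Prod.mk h ⁻¹' TT Λ w M)).toReal + 4 / (R * M ^ 2)) := by
    have hmi : Integrable (fun h => (volume (Prod.mk h ⁻¹' TT Λ w M)).toReal)
        (volume.restrict (Icc (-2 : ℝ) 2)) := by
      apply integrable_bdd (C := 4) (slice_meas hΛ hw M).ennreal_toReal
      intro h
      rw [norm_eq_abs, abs_of_nonneg ENNReal.toReal_nonneg]
      exact ENNReal.toReal_le_of_le_ofReal (by norm_num) (by
        rw [ENNReal.ofReal_ofNat]; exact slice_finite hsub w M h)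
    apply integral_mono_of_nonneg
    · filter_upwards with h
      apply integral_nonneg
      intro x
      positivity
    · exact ((hmi.const_mul R).add (integrable_const _)).const_mul _
    · filter_upwards with h using h4 h
  refine h5.trans ?_
  have hmi : Integrable (fun h => (volume (Prod.mk h ⁻¹' TT Λ w M)).toReal)
      (volume.restrict (Icc (-2 : ℝ) 2)) := by
    apply integrable_bdd (C := 4) (slice_meas hΛ hw M).ennreal_toReal
    intro h
    rw [norm_eq_abs, abs_of_nonneg ENNReal.toReal_nonneg]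
    exact ENNReal.toReal_le_of_le_ofReal (by norm_num) (by
      rw [ENNReal.ofReal_ofNat]; exact slice_finite hsub w M h)
  rw [integral_const_mul, integral_add (hmi.const_mul R) (integrable_const _), integral_const_mul,
    TT_int hΛ hsub hw M]
  simp only [integral_const, smul_eq_mul]
  have : (volume.restrict (Icc (-2 : ℝ) 2)).real univ = 4 := by
    rw [measureReal_def, Measure.restrict_apply_univ, Real.volume_Icc]
    norm_num
  rw [this]
  apply le_of_eq
  ring

/-- the fourth power estimate -/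
theorem fourth_power (μ : Measure ℝ) [IsProbabilityMeasure μ] {s C : ℝ} (hs0 : 0 < s)
    (hs1 : s < 1) (hC : 0 ≤ C) (hμ : Fros μ s C) {Λ : Set ℝ} (hΛ : MeasurableSet Λ)
    (hsub : Λ ⊆ Icc (-1) 1) {w : ℝ → ℝ} (hw : Measurable w) {R R0 M : ℝ} (hR0 : 0 < R0)
    (hR : R0 ≤ R) (hM : 0 < M) :
    ‖∫ l in Λ, ∫ ξ in R0..R, hh μ w R l ξ‖ ^ 4 ≤
      (R * (4 * C * R ^ (1 - s))) ^ 2 * (36 * C * R ^ (1 - s) / R0) ^ 2 *
        (2 / R0 * (R * (volume (TT Λ w M)).toReal + 16 / (R * M ^ 2))) := by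
  have hRp : 0 < R := by linarith
  rw [I_eq μ hΛ hsub hw hR0 hR]
  refine (schatten4 (volume.restrict (Ioc (log R0) (log R)))
    (volume.restrict (Icc (log R0 - 1) (log R + 1))) (ff_meas μ R _ _) (gg_cont μ).measurable
    (KK_meas hΛ hw) (ff_norm μ hRp) (gg_norm μ) (KK_norm Λ w)).trans ?_
  have h1 := ff_sq μ hs0 hs1 hC hμ hR0 hR
  have h2 := gg_sq μ hs0 hs1 hC hμ hR0 hR
  have h3 := Q_bound hΛ hsub hw hR0 hR hM
  have h01 : 0 ≤ ∫ u in Ioc (log R0) (log R), ‖ff μ R (log R0) (log R) u‖ ^ 2 :=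
    integral_nonneg (fun x => by positivity)
  have h02 : 0 ≤ ∫ u in Icc (log R0 - 1) (log R + 1), ‖gg μ u‖ ^ 2 :=
    integral_nonneg (fun x => by positivity)
  have h03 : 0 ≤ ∫ z, ‖∫ y in Icc (log R0 - 1) (log R + 1),
      KK Λ w (z.1, y) * conj (KK Λ w (z.2, y))‖ ^ 2
        ∂((volume.restrict (Ioc (log R0) (log R))).prod
          (volume.restrict (Ioc (log R0) (log R)))) :=
    integral_nonneg (fun x => by positivity)
  gcongr

end Pool.Agent.NH64.DS.Mn
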