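import Mathlib
import Pool.Agent.NH64.DS.High4
import Pool.Agent.NH64.DS.Comb

/-!
# Affine structure from many four-fold configurations
-/

set_option autoImplicit false

open MeasureTheory Set Real
open scoped ENNReal

namespace Pool.Agent.NH64.DS.Mn

/-- two-dimensional slice -/
def SS (Λ : Set ℝ) (w : ℝ → ℝ) (M l0 : ℝ) : Set (ℝ × ℝ) :=
  {z | (z.1, (z.1 + z.2, l0)) ∈ TT Λ w M}

lemma SS_meas {Λ : Set ℝ} (hΛ : MeasurableSet Λ) {w : ℝ → ℝ} (hw : Measurable w) (M l0 : ℝ) :
    MeasurableSet (SS Λ w M l0) :=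
  (TT_meas hΛ hw M).preimage (by fun_prop : Measurable fun z : ℝ × ℝ => (z.1, (z.1 + z.2, l0)))

lemma TT_eq_SS {Λ : Set ℝ} (hΛ : MeasurableSet Λ) {w : ℝ → ℝ} (hw : Measurable w) (M : ℝ) :
    volume (TT Λ w M) = ∫⁻ l', volume (SS Λ w M l') := by
  have hT := TT_meas hΛ hw M
  have hχ : Measurable ((TT Λ w M).indicator (1 : ℝ × (ℝ × ℝ) → ℝ≥0∞)) :=
    measurable_one.indicator hT
  rw [← lintegral_indicator_one hT, Measure.volume_eq_prod, lintegral_prod _ hχ.aemeasurable]
  have e1 : ∀ h : ℝ, ∫⁻ y : ℝ × ℝ, (TT Λ w M).indicator 1 (h, y)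
      = ∫⁻ l' : ℝ, ∫⁻ q : ℝ, (TT Λ w M).indicator (1 : ℝ × (ℝ × ℝ) → ℝ≥0∞) (h, (h + q, l')) := by
    intro h
    rw [Measure.volume_eq_prod, lintegral_prod_symm]
    · congr 1
      ext l'
      rw [lintegral_add_left_eq_self (fun l => (TT Λ w M).indicator 1 (h, (l, l'))) h]
    · exact (hχ.comp (by fun_prop : Measurable fun y : ℝ × ℝ => (h, y))).aemeasurable
  simp only [e1]
  rw [lintegral_lintegral_swap]
  · congr 1
    ext l'
    rw [← lintegral_indicator_one (SS_meas hΛ hw M l'), Measure.volume_eq_prod, lintegral_prod]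
    · rfl
    · exact (measurable_one.indicator (SS_meas hΛ hw M l')).aemeasurable
  · apply Measurable.aemeasurable
    unfold Function.uncurry
    have : Measurable (fun w' : (ℝ × ℝ) × ℝ =>
        (TT Λ w M).indicator (1 : ℝ × (ℝ × ℝ) → ℝ≥0∞) (w'.1.1, (w'.1.1 + w'.2, w'.1.2))) :=
      hχ.comp (by fun_prop)
    exact this.lintegral_prod_right'

lemma exp_sub_one_ge {x : ℝ} (hx : |x| ≤ 2) : |x| / 3 ≤ |exp x - 1| := by
  rcases le_or_gt 0 x with h | h
  · have h1 := Real.add_one_le_exp x
    rw [abs_of_nonneg h, abs_of_nonneg (by linarith)]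
    linarith
  · rw [abs_of_neg h] at hx ⊢
    have h1 := Real.add_one_le_exp (-x)
    have h2 : exp x * exp (-x) = 1 := by rw [← Real.exp_add]; simp
    have h3 : exp x ≤ 1 / (1 - x) := by
      rw [le_div_iff₀ (by linarith)]
      calc exp x * (1 - x) ≤ exp x * exp (-x) := by
            gcongr
            linarith
        _ = 1 := h2
    have h4 : 1 / (1 - x) ≤ 1 + x / 3 := by
      rw [div_le_iff₀ (by linarith)]
      nlinarith
    rw [abs_of_nonpos (by linarith)]
    linarith

/-- affine structure -/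
theorem affine_structure {Λ : Set ℝ} (hΛ : MeasurableSet Λ) (hsub : Λ ⊆ Icc (-1) 1)
    {w : ℝ → ℝ} (hw : Measurable w) {M : ℝ} (hM : 0 < M) {τ : ℝ} (hτ : 0 < τ)
    (hT : ENNReal.ofReal τ ≤ volume (TT Λ w M)) :
    ∃ A B : ℝ, ∃ Q ⊆ Λ, MeasurableSet Q ∧ ENNReal.ofReal (τ ^ 4 / 2 ^ 16) ≤ volume Q ∧
      ∀ q ∈ Q, |w q - (A * exp q + B)| ≤ 2 ^ 26 * M / τ ^ 4 := by
  -- step 1
  have hstep1 : ∃ l0, ENNReal.ofReal (9 / 20 * τ) < volume (SS Λ w M l0) := by
    by_contra hcon
    push Not at hcon
    rw [TT_eq_SS hΛ hw M] at hT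
    have h1 : ∫⁻ l', volume (SS Λ w M l') = ∫⁻ l' in Icc (-1 : ℝ) 1, volume (SS Λ w M l') := by
      symm
      apply setLIntegral_eq_of_support_subset
      intro l hl
      by_contra hc
      apply hl
      have : SS Λ w M l = ∅ := by
        ext z
        simp only [mem_empty_iff_false, iff_false]
        intro hz
        exact hc (hsub hz.2.1.1)
      show volume (SS Λ w M l) = 0
      rw [this]
      simp
    rw [h1] at hT
    have h2 : ∫⁻ l' in Icc (-1 : ℝ) 1, volume (SS Λ w M l')
        ≤ ∫⁻ l' in Icc (-1 : ℝ) 1, ENNReal.ofReal (9 / 20 * τ) := lintegral_mono hcon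
    rw [setLIntegral_const, Real.volume_Icc] at h2
    have h3 := hT.trans h2
    rw [← ENNReal.ofReal_mul (by positivity), ENNReal.ofReal_le_ofReal_iff (by positivity)] at h3
    linarith
  obtain ⟨l0, hl0⟩ := hstep1
  -- bounds on the slice
  have hb : ∀ z ∈ SS Λ w M l0,
      z.1 ∈ Icc (-2 : ℝ) 2 ∧ z.2 ∈ Icc (-1 : ℝ) 1 ∧ z.1 + z.2 ∈ Icc (-1 : ℝ) 1 := by
    intro z hz
    have h1 := hsub hz.1.1
    have h2 := hsub hz.1.2
    simp only [add_sub_cancel_left] at h2
    simp only [mem_Icc] at *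
    refine ⟨⟨?_, ?_⟩, h2, h1⟩ <;> linarith
  have hνV : ENNReal.ofReal (2048 * (τ ^ 4 / 2 ^ 16)) < (volume (SS Λ w M l0)) ^ 4 := by
    calc ENNReal.ofReal (2048 * (τ ^ 4 / 2 ^ 16)) ≤ ENNReal.ofReal ((9 / 20 * τ) ^ 4) := by
          apply ENNReal.ofReal_le_ofReal
          have : 0 < τ ^ 4 := by positivity
          rw [mul_pow]
          nlinarith
      _ = (ENNReal.ofReal (9 / 20 * τ)) ^ 4 := ENNReal.ofReal_pow (by positivity) 4
      _ < (volume (SS Λ w M l0)) ^ 4 := by gcongr
  obtain ⟨lam, a, b, hlam, hvol⟩ := exists_slice (SS_meas hΛ hw M l0) hb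
    (ν := τ ^ 4 / 2 ^ 16) (by positivity) hνV
  have hne : (slc (SS Λ w M l0) lam a b).Nonempty := by
    by_contra hc
    rw [not_nonempty_iff_eq_empty] at hc
    rw [hc] at hvol
    simp at hvol
  -- bounds on the parameters
  have hbox : |lam| ≤ 2 ∧ |a| ≤ 1 ∧ |b| ≤ 2 := by
    obtain ⟨q, h1, h2, h3, h4⟩ := hne
    have g1 := hb _ h1
    have g2 := hb _ h2
    have g3 := hb _ h3
    have g4 := hb _ h4
    simp only [mem_Icc, sub_add_cancel] at *
    refine ⟨?_, ?_, ?_⟩ <;> rw [abs_le] <;> constructor <;> linarith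
  have hlam0 : 0 < |lam| := lt_trans (by positivity) hlam
  have hE := exp_sub_one_ge hbox.1
  have hE0 : 0 < |exp lam - 1| := by
    have : 0 < |lam| / 3 := by positivity
    linarith
  have hEne : exp lam - 1 ≠ 0 := abs_pos.mp hE0
  set c : ℝ → ℝ := fun p => w l0 - exp p * w (l0 - p) with hc
  have hrel : ∀ p q, (p, q) ∈ SS Λ w M l0 → |exp p * w q - w (p + q) + c p| ≤ M := by
    intro p q hpq
    have h1 := hpq.2.2
    unfold om at h1
    simp only [add_sub_cancel_left] at h1
    have : exp p * w q - w (p + q) + c p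
        = exp p * w q - w (p + q) - (exp p * w (l0 - p) - w l0) := by
      rw [hc]; ring
    rw [this]
    exact h1
  refine ⟨exp (-a) * (w (a + lam) - w a) / (exp lam - 1),
    -(exp (lam - b) * (c b - c (b - lam))) / (exp lam - 1), slc (SS Λ w M l0) lam a b,
    ?_, slc_meas (SS_meas hΛ hw M l0) _ _ _, hvol.le, ?_⟩
  · intro q hq
    have h2 := hq.2.2.1.1.2
    simp only [add_sub_cancel_left, mem_ofPred_eq] at h2
    exact h2
  · intro q hq
    obtain ⟨h1, h2, h3, h4⟩ := hq
    have hq1 := (hb _ h1).2.1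
    have r1 := hrel _ _ h1
    have r2 := hrel _ _ h2
    have r3 := hrel _ _ h3
    have r4 := hrel _ _ h4
    have e1 : a - q + q = a := by ring
    have e2 : a - q + (q + lam) = a + lam := by ring
    have e3 : b - lam + (q + lam) = b + q := by ring
    rw [e1] at r1
    rw [e2] at r2
    rw [e3] at r4
    -- first difference
    have d1 : |exp (a - q) * (w (q + lam) - w q) - (w (a + lam) - w a)| ≤ 2 * M := by
      have : exp (a - q) * (w (q + lam) - w q) - (w (a + lam) - w a)
          = (exp (a - q) * w (q + lam) - w (a + lam) + c (a - q))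
            - (exp (a - q) * w q - w a + c (a - q)) := by ring
      rw [this]
      calc _ ≤ _ := abs_sub _ _
        _ ≤ 2 * M := by linarith
    have d2 : |exp b * w q - exp (b - lam) * w (q + lam) + (c b - c (b - lam))| ≤ 2 * M := by
      have : exp b * w q - exp (b - lam) * w (q + lam) + (c b - c (b - lam))
          = (exp b * w q - w (b + q) + c b)
            - (exp (b - lam) * w (q + lam) - w (b + q) + c (b - lam)) := by ring
      rw [this]
      calc _ ≤ _ := abs_sub _ _
        _ ≤ 2 * M := by linarith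
    have hx1 : exp (q - a) ≤ 9 := by
      have ha := (abs_le.mp hbox.2.1).1
      calc exp (q - a) ≤ exp (1 + 1) := Real.exp_le_exp.mpr (by linarith [hq1.2])
        _ = exp 1 * exp 1 := Real.exp_add 1 1
        _ ≤ 3 * 3 := by
          have : exp 1 ≤ 3 := by linarith [Real.exp_one_lt_d9]
          gcongr
        _ = 9 := by norm_num
    have hx2 : exp (lam - b) ≤ 81 := by
      have ha := (abs_le.mp hbox.2.2).1
      have hb' := (abs_le.mp hbox.1).2
      calc exp (lam - b) ≤ exp (1 + 1 + (1 + 1)) := Real.exp_le_exp.mpr (by linarith)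
        _ = exp 1 * exp 1 * (exp 1 * exp 1) := by rw [Real.exp_add, Real.exp_add]
        _ ≤ 3 * 3 * (3 * 3) := by
          have : exp 1 ≤ 3 := by linarith [Real.exp_one_lt_d9]
          gcongr
        _ = 81 := by norm_num
    -- combine
    have m1 : |w (q + lam) - w q - exp (q - a) * (w (a + lam) - w a)| ≤ 18 * M := by
      have : w (q + lam) - w q - exp (q - a) * (w (a + lam) - w a)
          = exp (q - a) * (exp (a - q) * (w (q + lam) - w q) - (w (a + lam) - w a)) := by
        have : exp (q - a) * exp (a - q) = 1 := by rw [← Real.exp_add]; simp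
        linear_combination (-(w (q + lam) - w q)) * this
      rw [this, abs_mul, abs_of_pos (exp_pos _)]
      calc _ ≤ 9 * (2 * M) := by gcongr
        _ = 18 * M := by ring
    have m2 : |exp lam * w q - w (q + lam) + exp (lam - b) * (c b - c (b - lam))| ≤ 162 * M := by
      have : exp lam * w q - w (q + lam) + exp (lam - b) * (c b - c (b - lam))
          = exp (lam - b) * (exp b * w q - exp (b - lam) * w (q + lam) + (c b - c (b - lam))) := by
        have h5 : exp (lam - b) * exp b = exp lam := by rw [← Real.exp_add]; simp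
        have h6 : exp (lam - b) * exp (b - lam) = 1 := by rw [← Real.exp_add]; simp
        linear_combination (-(w q)) * h5 + w (q + lam) * h6
      rw [this, abs_mul, abs_of_pos (exp_pos _)]
      calc _ ≤ 81 * (2 * M) := by gcongr
        _ = 162 * M := by ring
    have m3 : |(exp lam - 1) * w q - exp (q - a) * (w (a + lam) - w a)
        + exp (lam - b) * (c b - c (b - lam))| ≤ 180 * M := by
      have : (exp lam - 1) * w q - exp (q - a) * (w (a + lam) - w a)
        + exp (lam - b) * (c b - c (b - lam))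
        = (w (q + lam) - w q - exp (q - a) * (w (a + lam) - w a))
          + (exp lam * w q - w (q + lam) + exp (lam - b) * (c b - c (b - lam))) := by ring
      rw [this]
      calc _ ≤ _ := abs_add_le _ _
        _ ≤ 180 * M := by linarith
    have m4 : w q - (exp (-a) * (w (a + lam) - w a) / (exp lam - 1) * exp q
        + -(exp (lam - b) * (c b - c (b - lam))) / (exp lam - 1))
        = ((exp lam - 1) * w q - exp (q - a) * (w (a + lam) - w a)
        + exp (lam - b) * (c b - c (b - lam))) / (exp lam - 1) := by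
      have : exp (q - a) = exp (-a) * exp q := by rw [← Real.exp_add]; congr 1; ring
      rw [this]
      field_simp
      ring
    rw [m4, abs_div]
    rw [div_le_div_iff₀ hE0 (by positivity)]
    have hl2 : τ ^ 4 / 2 ^ 16 / 3 ≤ |exp lam - 1| := by
      have : τ ^ 4 / 2 ^ 16 / 3 ≤ |lam| / 3 := by gcongr
      linarith
    calc _ ≤ 180 * M * τ ^ 4 := by gcongr
      _ ≤ 2 ^ 26 * M * (τ ^ 4 / 2 ^ 16 / 3) := by
        have : 0 < M * τ ^ 4 := by positivity
        nlinarith
      _ ≤ 2 ^ 26 * M * |exp lam - 1| := by gcongr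

end Pool.Agent.NH64.DS.Mn
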