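import Mathlib
import Pool.Agent.NH64.DS.Affine

/-!
# The main estimate
-/

set_option autoImplicit false

open MeasureTheory Set Real
open scoped ComplexConjugate ENNReal

namespace Pool.Agent.NH64.DS.Mn

lemma PP_meas (μ : Measure ℝ) [IsProbabilityMeasure μ] {w : ℝ → ℝ} (hw : Measurable w) (R : ℝ) :
    Measurable (PP μ w R) := by
  unfold PP
  have hS : MeasurableSet {y : ℝ × (ℝ × ℝ) | |y.2.1 - exp y.1 * y.2.2 - w y.1| ≤ 1 / (2 * R)} := by
    apply measurableSet_le _ measurable_const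
    have : Measurable (fun y : ℝ × (ℝ × ℝ) => y.2.1 - exp y.1 * y.2.2 - w y.1) := by fun_prop
    simpa only [Real.norm_eq_abs] using this.norm
  exact (measurable_measure_prodMk_left (ν := μ.prod μ) hS).ennreal_toReal

lemma PP_nonneg (μ : Measure ℝ) (w : ℝ → ℝ) (R l : ℝ) : 0 ≤ PP μ w R l := measureReal_nonneg

lemma PP_le_one (μ : Measure ℝ) [IsProbabilityMeasure μ] (w : ℝ → ℝ) (R l : ℝ) :
    PP μ w R l ≤ 1 := measureReal_le_one

lemma hh_norm (μ : Measure ℝ) [IsProbabilityMeasure μ] (w : ℝ → ℝ) {R ξ : ℝ} (hR : 0 < R)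
    (h0 : 0 ≤ ξ) (h1 : ξ ≤ R) (l : ℝ) : ‖hh μ w R l ξ‖ ≤ 1 := by
  unfold hh
  rw [norm_mul, norm_mul, norm_mul, ee_norm, RCLike.norm_conj, Complex.norm_real]
  have h2 : ‖1 - ξ / R‖ ≤ 1 := by
    rw [norm_eq_abs, abs_le]
    have h2 : ξ / R ≤ 1 := by rw [div_le_one hR]; exact h1
    have h3 : 0 ≤ ξ / R := by positivity
    constructor <;> linarith
  calc _ ≤ (1:ℝ) * (1 * 1 * 1) := by
        gcongr
        · exact mm_norm μ _
        · exact mm_norm μ _
    _ = 1 := by norm_num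

lemma hhint_meas (μ : Measure ℝ) [IsProbabilityMeasure μ] {w : ℝ → ℝ} (hw : Measurable w)
    {R R0 : ℝ} (hR : R0 ≤ R) : Measurable (fun l => ∫ ξ in R0..R, hh μ w R l ξ) := by
  simp only [intervalIntegral.integral_of_le hR]
  apply StronglyMeasurable.measurable
  apply StronglyMeasurable.integral_prod_right' (f := fun z : ℝ × ℝ => hh μ w R z.1 z.2)
  apply Measurable.stronglyMeasurable
  unfold hh
  have h1 := (mm_cont μ).measurable
  have h3 : Measurable (fun z : ℂ => conj z) := Complex.continuous_conj.measurable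
  have h4 : Measurable (fun z : ℝ × ℝ => mm μ z.2) := h1.comp (by fun_prop)
  have h5 : Measurable (fun z : ℝ × ℝ => conj (mm μ (exp z.1 * z.2))) :=
    h3.comp (h1.comp (by fun_prop))
  have h6 : Measurable (fun z : ℝ × ℝ => ee (-(w z.1 * z.2))) := ee_meas.comp (by fun_prop)
  fun_prop

/-- step 1: reduction to the high-frequency integral -/
lemma int_PP_le (μ : Measure ℝ) [IsProbabilityMeasure μ] {s C : ℝ} (hs0 : 0 < s)
    (hs1 : s < 1) (hC : 0 ≤ C) (hμ : Fros μ s C) {Λ : Set ℝ} (hΛ : MeasurableSet Λ)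
    (hsub : Λ ⊆ Icc (-1) 1) {w : ℝ → ℝ} (hw : Measurable w) {R R0 : ℝ} (hR0 : 0 < R0)
    (hR : R0 ≤ R) :
    ∫ l in Λ, PP μ w R l ≤ 5 / R * (16 * C * R0 ^ (1 - s) +
      ‖∫ l in Λ, ∫ ξ in R0..R, hh μ w R l ξ‖) := by
  have hRp : 0 < R := by linarith
  have hfin : IsFiniteMeasure (volume.restrict Λ) := by
    constructor
    rw [Measure.restrict_apply_univ]
    calc volume Λ ≤ volume (Icc (-1 : ℝ) 1) := measure_mono hsub
      _ < ⊤ := by simp
  have hb : ∀ l, ‖∫ ξ in R0..R, hh μ w R l ξ‖ ≤ 1 * |R - R0| := by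
    intro l
    apply intervalIntegral.norm_integral_le_of_norm_le_const
    intro ξ hξ
    rw [uIoc_of_le hR] at hξ
    exact hh_norm μ w hRp (hR0.le.trans hξ.1.le) hξ.2 l
  have hint : Integrable (fun l => ∫ ξ in R0..R, hh μ w R l ξ) (volume.restrict Λ) :=
    integrable_bdd (hhint_meas μ hw hR) hb
  have hintre : Integrable (fun l => (∫ ξ in R0..R, hh μ w R l ξ).re) (volume.restrict Λ) :=
    hint.re
  have hre : ∫ l in Λ, (∫ ξ in R0..R, hh μ w R l ξ).re
      ≤ ‖∫ l in Λ, ∫ ξ in R0..R, hh μ w R l ξ‖ := by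
    have h1 : ∫ l in Λ, (∫ ξ in R0..R, hh μ w R l ξ).re
        = (∫ l in Λ, ∫ ξ in R0..R, hh μ w R l ξ).re := integral_re hint
    rw [h1]
    exact Complex.re_le_norm _
  have h1 : ∫ l in Λ, PP μ w R l ≤ ∫ l in Λ, π ^ 2 / (2 * R) *
      (8 * C * R0 ^ (1 - s) + (∫ ξ in R0..R, hh μ w R l ξ).re) := by
    apply setIntegral_mono_on
    · apply integrable_bdd (PP_meas μ hw R) (C := 1)
      intro l
      rw [norm_eq_abs, abs_of_nonneg (PP_nonneg μ w R l)]
      exact PP_le_one μ w R l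
    · apply Integrable.const_mul
      exact (integrable_const _).add hintre
    · exact hΛ
    · intro l hl
      exact fej_split μ w hs0 hs1 hC hμ hR0 hR (hsub hl)
  refine h1.trans ?_
  rw [integral_const_mul, integral_add (integrable_const _) hintre]
  simp only [integral_const, smul_eq_mul]
  have hV : (volume.restrict Λ).real univ ≤ 2 := by
    rw [measureReal_def, Measure.restrict_apply_univ]
    apply ENNReal.toReal_le_of_le_ofReal (by norm_num)
    calc volume Λ ≤ volume (Icc (-1 : ℝ) 1) := measure_mono hsub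
      _ = ENNReal.ofReal 2 := by rw [Real.volume_Icc]; norm_num
  have hpi : π ^ 2 / (2 * R) ≤ 5 / R := by
    rw [div_le_div_iff₀ (by positivity) hRp]
    have : π ^ 2 ≤ 10 := by nlinarith [pi_lt_d2, pi_pos]
    nlinarith
  have hRs : 0 ≤ C * R0 ^ (1 - s) := by positivity
  have hnn : 0 ≤ 16 * C * R0 ^ (1 - s) + ‖∫ l in Λ, ∫ ξ in R0..R, hh μ w R l ξ‖ := by
    have := norm_nonneg (∫ l in Λ, ∫ ξ in R0..R, hh μ w R l ξ)
    nlinarith
  calc π ^ 2 / (2 * R) * ((volume.restrict Λ).real univ * (8 * C * R0 ^ (1 - s)) +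
        ∫ l in Λ, (∫ ξ in R0..R, hh μ w R l ξ).re)
      ≤ π ^ 2 / (2 * R) * (16 * C * R0 ^ (1 - s) + ‖∫ l in Λ, ∫ ξ in R0..R, hh μ w R l ξ‖) := by
        have h5 : (volume.restrict Λ).real univ * (8 * C * R0 ^ (1 - s))
            ≤ 16 * C * R0 ^ (1 - s) := by
          calc _ ≤ 2 * (8 * C * R0 ^ (1 - s)) := by gcongr
            _ = _ := by ring
        exact mul_le_mul_of_nonneg_left (add_le_add h5 hre) (by positivity)
    _ ≤ _ := by gcongr

/-- step 3: the near part of a strip -/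
lemma near_part (μ : Measure ℝ) [IsProbabilityMeasure μ] {s C : ℝ}
    (hC : 0 ≤ C) (hμ : Fros μ s C) (w : ℝ → ℝ) {R ρ : ℝ} (hR : 0 < R) (hρ : 0 < ρ) (l A : ℝ) :
    (μ.prod μ).real {z : ℝ × ℝ | |z.1 - exp l * z.2 - w l| ≤ 1 / (2 * R) ∧ |z.2 + A| ≤ ρ}
      ≤ C * R⁻¹ ^ s * (C * ρ ^ s) := by
  have hm : MeasurableSet {z : ℝ × ℝ | |z.1 - exp l * z.2 - w l| ≤ 1 / (2 * R) ∧
      |z.2 + A| ≤ ρ} := by
    rw [ofPred_and]
    refine MeasurableSet.inter ?_ ?_
    · apply measurableSet_le _ measurable_const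
      have : Measurable (fun z : ℝ × ℝ => z.1 - exp l * z.2 - w l) := by fun_prop
      simpa only [Real.norm_eq_abs] using this.norm
    · apply measurableSet_le _ measurable_const
      have : Measurable (fun z : ℝ × ℝ => z.2 + A) := by fun_prop
      simpa only [Real.norm_eq_abs] using this.norm
  rw [measureReal_def]
  apply ENNReal.toReal_le_of_le_ofReal (by positivity)
  rw [Measure.prod_apply_symm hm]
  have hsec : ∀ y : ℝ, μ ((fun x => (x, y)) ⁻¹'
      {z : ℝ × ℝ | |z.1 - exp l * z.2 - w l| ≤ 1 / (2 * R) ∧ |z.2 + A| ≤ ρ})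
      ≤ (Metric.closedBall (-A) ρ).indicator (fun _ => ENNReal.ofReal (C * R⁻¹ ^ s)) y := by
    intro y
    by_cases hy : y ∈ Metric.closedBall (-A) ρ
    · rw [indicator_of_mem hy]
      refine le_trans (measure_mono ?_) (hμ (exp l * y + w l) R⁻¹ (by positivity))
      intro x hx
      rw [Metric.mem_closedBall, Real.dist_eq]
      have h1 : |x - exp l * y - w l| ≤ 1 / (2 * R) := hx.1
      have h2 : x - (exp l * y + w l) = x - exp l * y - w l := by ring
      rw [h2]
      refine h1.trans ?_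
      rw [one_div]
      gcongr
      linarith
    · rw [indicator_of_notMem hy]
      have : (fun x => (x, y)) ⁻¹'
          {z : ℝ × ℝ | |z.1 - exp l * z.2 - w l| ≤ 1 / (2 * R) ∧ |z.2 + A| ≤ ρ} = ∅ := by
        ext x
        simp only [mem_preimage, mem_ofPred_eq, mem_empty_iff_false, iff_false, not_and]
        intro _ h
        apply hy
        rw [Metric.mem_closedBall, Real.dist_eq, sub_neg_eq_add]
        exact h
      rw [this]
      simp
  calc ∫⁻ y, μ ((fun x => (x, y)) ⁻¹'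
        {z : ℝ × ℝ | |z.1 - exp l * z.2 - w l| ≤ 1 / (2 * R) ∧ |z.2 + A| ≤ ρ}) ∂μ
      ≤ ∫⁻ y, (Metric.closedBall (-A) ρ).indicator (fun _ => ENNReal.ofReal (C * R⁻¹ ^ s)) y ∂μ :=
        lintegral_mono hsec
    _ = ENNReal.ofReal (C * R⁻¹ ^ s) * μ (Metric.closedBall (-A) ρ) := by
        rw [lintegral_indicator_const Metric.isClosed_closedBall.measurableSet]
    _ ≤ ENNReal.ofReal (C * R⁻¹ ^ s) * ENNReal.ofReal (C * ρ ^ s) := by
        gcongr
        exact hμ _ _ hρ
    _ = ENNReal.ofReal (C * R⁻¹ ^ s * (C * ρ ^ s)) := by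
        rw [ENNReal.ofReal_mul (by positivity : (0:ℝ) ≤ C * R⁻¹ ^ s)]

/-- the set of directions hitting a far point has small measure -/
lemma dir_small {x y ρ M : ℝ} (hρ : 0 < ρ) (hy : ρ < |y|) :
    volume {q : ℝ | q ∈ Icc (-1 : ℝ) 1 ∧ |x - exp q * y| ≤ M} ≤ ENNReal.ofReal (6 * M / ρ) := by
  refine (Real.volume_le_diam _).trans ?_
  apply Metric.ediam_le
  intro q hq q' hq'
  rw [edist_dist]
  apply ENNReal.ofReal_le_ofReal
  rw [Real.dist_eq]
  have h1 : |(exp q - exp q') * y| ≤ 2 * M := by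
    have : (exp q - exp q') * y = (x - exp q' * y) - (x - exp q * y) := by ring
    rw [this]
    calc _ ≤ _ := abs_sub _ _
      _ ≤ 2 * M := by linarith [hq.2, hq'.2]
  rw [abs_mul] at h1
  have h2 : |exp q - exp q'| * ρ ≤ 2 * M := by
    refine le_trans ?_ h1
    gcongr
  have h3 : |q - q'| / 3 ≤ |exp q - exp q'| := by
    -- mean value style inequality
    have key : ∀ a b : ℝ, -1 ≤ a → a ≤ b → (b - a) / 3 ≤ exp b - exp a := by
      intro a b ha hab
      have h4 : exp b = exp a * exp (b - a) := by rw [← Real.exp_add]; congr 1; ring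
      have h5 := Real.add_one_le_exp (b - a)
      have h6 : 1 / 3 ≤ exp a := by
        calc (1:ℝ) / 3 ≤ 1 / exp 1 := by
              gcongr
              linarith [Real.exp_one_lt_d9]
          _ = exp (-1) := by rw [Real.exp_neg, one_div]
          _ ≤ exp a := Real.exp_le_exp.mpr ha
      rw [h4]
      nlinarith
    rcases le_total q q' with h | h
    · have := key q q' hq.1.1 h
      rw [abs_sub_comm q q', abs_sub_comm (exp q), abs_of_nonneg (by linarith),
        abs_of_nonneg (by linarith)]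
      exact this
    · have := key q' q hq'.1.1 h
      rw [abs_of_nonneg (by linarith), abs_of_nonneg (by linarith)]
      exact this
  rw [le_div_iff₀ hρ]
  have h4 : |q - q'| * ρ ≤ 3 * (|exp q - exp q'| * ρ) := by
    have : |q - q'| ≤ 3 * |exp q - exp q'| := by linarith
    nlinarith
  linarith

/-- step 4: the far part, integrated over directions -/
lemma far_part (μ : Measure ℝ) [IsProbabilityMeasure μ] {Q : Set ℝ}
    (hQs : Q ⊆ Icc (-1) 1) {ρ M : ℝ} (hρ : 0 < ρ) (A B : ℝ) :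
    ∫⁻ q in Q, (μ.prod μ) {z : ℝ × ℝ | |(z.1 - B) - exp q * (z.2 + A)| ≤ M ∧ ρ < |z.2 + A|}
      ≤ ENNReal.ofReal (6 * M / ρ) := by
  have hm : MeasurableSet {y : ℝ × (ℝ × ℝ) |
      |(y.2.1 - B) - exp y.1 * (y.2.2 + A)| ≤ M ∧ ρ < |y.2.2 + A|} := by
    rw [ofPred_and]
    refine MeasurableSet.inter ?_ ?_
    · apply measurableSet_le _ measurable_const
      have : Measurable (fun y : ℝ × (ℝ × ℝ) => (y.2.1 - B) - exp y.1 * (y.2.2 + A)) := by
        fun_prop
      simpa only [Real.norm_eq_abs] using this.norm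
    · apply measurableSet_lt measurable_const
      have : Measurable (fun y : ℝ × (ℝ × ℝ) => y.2.2 + A) := by fun_prop
      simpa only [Real.norm_eq_abs] using this.norm
  have e1 : ∫⁻ q in Q, (μ.prod μ) {z : ℝ × ℝ | |(z.1 - B) - exp q * (z.2 + A)| ≤ M ∧
      ρ < |z.2 + A|} = ((volume.restrict Q).prod (μ.prod μ)) {y : ℝ × (ℝ × ℝ) |
      |(y.2.1 - B) - exp y.1 * (y.2.2 + A)| ≤ M ∧ ρ < |y.2.2 + A|} := by
    rw [Measure.prod_apply hm]
    rfl
  rw [e1, Measure.prod_apply_symm hm]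
  calc ∫⁻ z, (volume.restrict Q) ((fun q => (q, z)) ⁻¹' {y : ℝ × (ℝ × ℝ) |
      |(y.2.1 - B) - exp y.1 * (y.2.2 + A)| ≤ M ∧ ρ < |y.2.2 + A|}) ∂(μ.prod μ)
      ≤ ∫⁻ z, ENNReal.ofReal (6 * M / ρ) ∂(μ.prod μ) := by
        apply lintegral_mono
        intro z
        beta_reduce
        by_cases hz : ρ < |z.2 + A|
        · refine le_trans ?_ (dir_small (x := z.1 - B) (y := z.2 + A) hρ hz)
          have hmz : MeasurableSet ((fun q => (q, z)) ⁻¹' {y : ℝ × (ℝ × ℝ) |
            |(y.2.1 - B) - exp y.1 * (y.2.2 + A)| ≤ M ∧ ρ < |y.2.2 + A|}) :=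
            hm.preimage (by fun_prop)
          rw [Measure.restrict_apply hmz]
          apply measure_mono
          intro q hq
          exact ⟨hQs hq.2, hq.1.1⟩
        · have : (fun q => (q, z)) ⁻¹' {y : ℝ × (ℝ × ℝ) |
            |(y.2.1 - B) - exp y.1 * (y.2.2 + A)| ≤ M ∧ ρ < |y.2.2 + A|} = ∅ := by
            ext q
            simp only [mem_preimage, mem_ofPred_eq, mem_empty_iff_false, iff_false, not_and]
            intro _
            exact hz
          rw [this]
          simp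
    _ = ENNReal.ofReal (6 * M / ρ) := by simp

end Pool.Agent.NH64.DS.Mn
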