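import Mathlib
import Pool.Agent.NH64.DS.Star

/-!
# The main estimate, assembled
-/

set_option autoImplicit false

open MeasureTheory Set Real
open scoped ComplexConjugate ENNReal

namespace Pool.Agent.NH64.DS.Mn

/-- pigeonholing: a large total strip mass forces many configurations -/
lemma star_TT (μ : Measure ℝ) [IsProbabilityMeasure μ] {s C : ℝ} (hs0 : 0 < s)
    (hs1 : s < 1) (hC : 0 < C) (hμ : Fros μ s C) {κ c R : ℝ} (hR : 1 ≤ R) (hκ : 0 < κ)
    (E1 : 320 * C ≤ R ^ (κ * (1 - s) - c))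
    (E2 : 2 * 10 ^ 11 * C ^ 4 < R ^ (κ - 4 * c))
    {w : ℝ → ℝ} (hw : Measurable w) {Λ : Set ℝ} (hΛ : MeasurableSet Λ) (hsub : Λ ⊆ Icc (-1) 1)
    (hL : R ^ (-s - c) / 2 ≤ ∫ l in Λ, PP μ w R l) :
    R ^ (-(4 * κ)) ≤ (volume (TT Λ w (R ^ (-1 + 2 * κ)))).toReal := by
  have hRp : 0 < R := by linarith
  set R0 := R ^ (1 - κ) with hR0
  have hR0p : 0 < R0 := by positivity
  have hR0R : R0 ≤ R := by
    calc R0 ≤ R ^ (1:ℝ) := Real.rpow_le_rpow_of_exponent_le hR (by linarith)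
      _ = R := Real.rpow_one R
  have h1 := hL.trans (int_PP_le μ hs0 hs1 hC.le hμ hΛ hsub hw hR0p hR0R)
  set I := ∫ l in Λ, ∫ ξ in R0..R, hh μ w R l ξ with hI
  -- lower bound for I
  have ha : R ^ (1 - s - c) = R * R ^ (-s - c) := by
    rw [show 1 - s - c = 1 + (-s - c) by ring, Real.rpow_add hRp, Real.rpow_one]
  have hb : R0 ^ (1 - s) * R ^ (κ * (1 - s) - c) = R ^ (1 - s - c) := by
    rw [hR0, ← Real.rpow_mul hRp.le, ← Real.rpow_add hRp]
    congr 1
    ring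
  have hI1 : R ^ (1 - s - c) / 20 ≤ ‖I‖ := by
    have h2 : R ^ (1 - s - c) / 10 ≤ 16 * C * R0 ^ (1 - s) + ‖I‖ := by
      rw [div_mul_eq_mul_div, le_div_iff₀ hRp] at h1
      rw [ha]
      linarith
    have h3 : 320 * C * R0 ^ (1 - s) ≤ R ^ (1 - s - c) := by
      rw [← hb]
      calc 320 * C * R0 ^ (1 - s) = R0 ^ (1 - s) * (320 * C) := by ring
        _ ≤ R0 ^ (1 - s) * R ^ (κ * (1 - s) - c) := by gcongr
    linarith
  by_contra hcon
  push Not at hcon
  set M := R ^ (-1 + 2 * κ) with hM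
  have hMp : 0 < M := by positivity
  have h4 := fourth_power μ hs0 hs1 hC.le hμ hΛ hsub hw hR0p hR0R hMp
  rw [← hI] at h4
  have h5 : R * (volume (TT Λ w M)).toReal + 16 / (R * M ^ 2) ≤ 17 * (R * R ^ (-(4 * κ))) := by
    have h6 : 1 / (R * M ^ 2) = R * R ^ (-(4 * κ)) := by
      rw [hM, ← Real.rpow_natCast, ← Real.rpow_mul hRp.le]
      rw [one_div]
      have : (R * R ^ ((-1 + 2 * κ) * ((2:ℕ):ℝ))) * (R * R ^ (-(4 * κ))) = 1 := by
        have e1 : R * R ^ ((-1 + 2 * κ) * ((2:ℕ):ℝ)) = R ^ (1 + (-1 + 2 * κ) * ((2:ℕ):ℝ)) := by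
          rw [Real.rpow_add hRp, Real.rpow_one]
        have e2 : R * R ^ (-(4 * κ)) = R ^ (1 + -(4 * κ)) := by
          rw [Real.rpow_add hRp, Real.rpow_one]
        rw [e1, e2, ← Real.rpow_add hRp]
        have : 1 + (-1 + 2 * κ) * ((2:ℕ):ℝ) + (1 + -(4 * κ)) = 0 := by push_cast; ring
        rw [this, Real.rpow_zero]
      exact inv_eq_of_mul_eq_one_right this
    have h7 : 16 / (R * M ^ 2) = 16 * (R * R ^ (-(4 * κ))) := by rw [← h6]; ring
    rw [h7]
    have h8 : R * (volume (TT Λ w M)).toReal ≤ R * R ^ (-(4 * κ)) := by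
      gcongr
    linarith
  have h9 : ‖I‖ ^ 4 ≤ (R * (4 * C * R ^ (1 - s))) ^ 2 * (36 * C * R ^ (1 - s) / R0) ^ 2 *
        (2 / R0 * (17 * (R * R ^ (-(4 * κ))))) := by
    refine h4.trans ?_
    gcongr
  have h10 : (R * (4 * C * R ^ (1 - s))) ^ 2 * (36 * C * R ^ (1 - s) / R0) ^ 2 *
        (2 / R0 * (17 * (R * R ^ (-(4 * κ))))) = 705024 * C ^ 4 * R ^ (4 * (1 - s) - κ) := by
    have e1 : (R ^ (1 - s)) ^ 4 = R ^ (4 * (1 - s)) := by
      rw [← Real.rpow_natCast, ← Real.rpow_mul hRp.le]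
      congr 1
      push_cast
      ring
    have e2 : R ^ 3 * R ^ (-(4 * κ)) = R0 ^ 3 * R ^ (-κ) := by
      rw [hR0, ← Real.rpow_natCast, ← Real.rpow_natCast, ← Real.rpow_mul hRp.le,
        ← Real.rpow_add hRp, ← Real.rpow_add hRp]
      congr 1
      push_cast
      ring
    have e3 : R ^ (4 * (1 - s) - κ) = R ^ (4 * (1 - s)) * R ^ (-κ) := by
      rw [← Real.rpow_add hRp]; congr 1
    rw [e3, ← e1]
    have hne : R0 ≠ 0 := hR0p.ne'
    field_simp
    linear_combination (705024) * e2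
  have h11 : (R ^ (1 - s - c) / 20) ^ 4 ≤ 705024 * C ^ 4 * R ^ (4 * (1 - s) - κ) := by
    rw [← h10]
    refine le_trans ?_ h9
    gcongr
  have h12 : (R ^ (1 - s - c) / 20) ^ 4 = R ^ (4 * (1 - s) - κ) * R ^ (κ - 4 * c) / 160000 := by
    rw [div_pow, ← Real.rpow_natCast, ← Real.rpow_mul hRp.le, ← Real.rpow_add hRp]
    norm_num
    congr 1
    ring
  rw [h12] at h11
  have hX : 0 < R ^ (4 * (1 - s) - κ) := by positivity
  have h13 : R ^ (κ - 4 * c) ≤ 160000 * 705024 * C ^ 4 := by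
    by_contra h
    push Not at h
    have : R ^ (4 * (1 - s) - κ) * (160000 * 705024 * C ^ 4)
        < R ^ (4 * (1 - s) - κ) * R ^ (κ - 4 * c) := by gcongr
    linarith
  have hC4 : 0 < C ^ 4 := by positivity
  linarith

theorem star_core (μ : Measure ℝ) [IsProbabilityMeasure μ] {s C : ℝ} (hs0 : 0 < s)
    (hs1 : s < 1) (hC : 0 < C) (hμ : Fros μ s C) {κ c R : ℝ} (hR : 1 ≤ R) (hκ : 0 < κ)
    (E1 : 320 * C ≤ R ^ (κ * (1 - s) - c))
    (E2 : 2 * 10 ^ 11 * C ^ 4 < R ^ (κ - 4 * c))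
    (E3 : 8 * C ^ 2 ≤ R ^ (s * κ - c))
    (E4 : 2 ^ 49 < R ^ (1 - s - c - 35 * κ))
    {w : ℝ → ℝ} (hw : Measurable w) :
    ∫ l in Icc (-1 : ℝ) 1, PP μ w R l ≤ R ^ (-s - c) := by
  have hRp : 0 < R := by linarith
  by_contra hcon
  push Not at hcon
  set X := R ^ (-s - c) with hX
  have hXp : 0 < X := by positivity
  have hPm := PP_meas μ hw R
  -- the rich set of directions
  set P4 : Set ℝ := {l | X / 4 < PP μ w R l} with hP4
  have hP4m : MeasurableSet P4 := measurableSet_lt measurable_const hPm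
  set Λ := Icc (-1 : ℝ) 1 ∩ P4 with hΛ
  have hΛm : MeasurableSet Λ := measurableSet_Icc.inter hP4m
  have hsub : Λ ⊆ Icc (-1) 1 := inter_subset_left
  have hint : IntegrableOn (PP μ w R) (Icc (-1 : ℝ) 1) := by
    apply integrable_bdd hPm (C := 1)
    intro l
    rw [norm_eq_abs, abs_of_nonneg (PP_nonneg μ w R l)]
    exact PP_le_one μ w R l
  have hsplit := integral_inter_add_sdiff hP4m hint
  have hdiff : ∫ l in Icc (-1 : ℝ) 1 \ P4, PP μ w R l ≤ X / 2 := by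
    calc ∫ l in Icc (-1 : ℝ) 1 \ P4, PP μ w R l ≤ ∫ l in Icc (-1 : ℝ) 1 \ P4, X / 4 := by
          apply setIntegral_mono_on (hint.mono_set sdiff_subset)
          · apply integrableOn_const
            · exact ((measure_mono sdiff_subset).trans_lt (by simp)).ne
            · exact enorm_ne_top
          · exact measurableSet_Icc.diff hP4m
          · intro l hl
            exact not_lt.mp hl.2
      _ = (volume (Icc (-1 : ℝ) 1 \ P4)).toReal * (X / 4) := by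
          simp [measureReal_def]
      _ ≤ 2 * (X / 4) := by
          gcongr
          apply ENNReal.toReal_le_of_le_ofReal (by norm_num)
          calc volume (Icc (-1 : ℝ) 1 \ P4) ≤ volume (Icc (-1 : ℝ) 1) := measure_mono sdiff_subset
            _ = ENNReal.ofReal 2 := by rw [Real.volume_Icc]; norm_num
      _ = X / 2 := by ring
  have hL : R ^ (-s - c) / 2 ≤ ∫ l in Λ, PP μ w R l := by
    rw [← hX]
    linarith
  have hT := star_TT μ hs0 hs1 hC hμ hR hκ E1 E2 hw hΛm hsub hL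
  set M := R ^ (-1 + 2 * κ) with hM
  have hMp : 0 < M := by positivity
  set τ := R ^ (-(4 * κ)) with hτ
  have hτp : 0 < τ := by positivity
  obtain ⟨A, B, Q, hQΛ, hQm, hQv, hQ⟩ := affine_structure hΛm hsub hw hMp hτp
    (ENNReal.ofReal_le_of_le_toReal hT)
  have hQs : Q ⊆ Icc (-1) 1 := hQΛ.trans hsub
  set M' := 2 ^ 26 * M / τ ^ 4 with hM'
  have hM'p : 0 < M' := by positivity
  set ρ := R ^ (-κ) with hρ
  have hρp : 0 < ρ := by positivity
  have hτ1 : τ ≤ 1 := Real.rpow_le_one_of_one_le_of_nonpos hR (by linarith)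
  have hM'1 : 1 / (2 * R) ≤ M' := by
    have h1 : 1 / R ≤ M := by
      rw [hM, one_div, ← Real.rpow_neg_one]
      exact Real.rpow_le_rpow_of_exponent_le hR (by linarith)
    have h2 : M ≤ M' := by
      rw [hM', le_div_iff₀ (by positivity)]
      have h3 : τ ^ 4 ≤ 1 := pow_le_one₀ hτp.le hτ1
      nlinarith
    have h3 : 1 / (2 * R) ≤ 1 / R := by
      apply one_div_le_one_div_of_le hRp
      linarith
    linarith
  -- pointwise lower bound for the far part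
  have hfar : ∀ q ∈ Q, ENNReal.ofReal (X / 8) ≤
      (μ.prod μ) {z : ℝ × ℝ | |(z.1 - B) - exp q * (z.2 + A)| ≤ 2 * M' ∧ ρ < |z.2 + A|} := by
    intro q hq
    have h1 : X / 4 < PP μ w R q := (hQΛ hq).2
    have h2 := near_part μ hC.le hμ w hRp hρp q A
    have h3 : C * R⁻¹ ^ s * (C * ρ ^ s) ≤ X / 8 := by
      have e1 : R⁻¹ ^ s = R ^ (-s) := by rw [Real.inv_rpow hRp.le, Real.rpow_neg hRp.le]
      have e2 : ρ ^ s = R ^ (-(s * κ)) := by
        rw [hρ, ← Real.rpow_mul hRp.le]; congr 1; ring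
      have e3 : R ^ (-s - c) = R ^ (-s) * R ^ (-(s * κ)) * R ^ (s * κ - c) := by
        rw [← Real.rpow_add hRp, ← Real.rpow_add hRp]; congr 1; ring
      rw [e1, e2, hX, e3]
      have hp : 0 < R ^ (-s) * R ^ (-(s * κ)) := by positivity
      have : R ^ (-s) * R ^ (-(s * κ)) * (8 * C ^ 2)
          ≤ R ^ (-s) * R ^ (-(s * κ)) * R ^ (s * κ - c) := by gcongr
      linarith
    have h4 : PP μ w R q ≤
        (μ.prod μ).real {z : ℝ × ℝ | |z.1 - exp q * z.2 - w q| ≤ 1 / (2 * R) ∧ |z.2 + A| ≤ ρ}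
        + (μ.prod μ).real {z : ℝ × ℝ | |(z.1 - B) - exp q * (z.2 + A)| ≤ 2 * M' ∧
          ρ < |z.2 + A|} := by
      refine le_trans (measureReal_mono ?_) (measureReal_union_le _ _)
      intro z hz
      have hz1 : |z.1 - exp q * z.2 - w q| ≤ 1 / (2 * R) := hz
      by_cases h : |z.2 + A| ≤ ρ
      · left
        exact ⟨hz, h⟩
      · right
        refine ⟨?_, not_le.mp h⟩
        have e1 : (z.1 - B) - exp q * (z.2 + A)
            = (z.1 - exp q * z.2 - w q) + (w q - (A * exp q + B)) := by ring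
        rw [e1]
        refine (abs_add_le _ _).trans ?_
        have := hQ q hq
        linarith
    have h5 : X / 8 ≤ (μ.prod μ).real {z : ℝ × ℝ | |(z.1 - B) - exp q * (z.2 + A)| ≤ 2 * M' ∧
          ρ < |z.2 + A|} := by linarith
    exact ENNReal.ofReal_le_of_le_toReal h5
  have hfi := far_part μ hQs (M := 2 * M') hρp A B
  have h6 : ENNReal.ofReal (X / 8) * ENNReal.ofReal (τ ^ 4 / 2 ^ 16)
      ≤ ENNReal.ofReal (6 * (2 * M') / ρ) := by
    refine le_trans ?_ hfi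
    calc ENNReal.ofReal (X / 8) * ENNReal.ofReal (τ ^ 4 / 2 ^ 16)
        ≤ ENNReal.ofReal (X / 8) * volume Q := by gcongr
      _ = ∫⁻ q in Q, ENNReal.ofReal (X / 8) := by rw [setLIntegral_const]
      _ ≤ _ := setLIntegral_mono' hQm hfar
  rw [← ENNReal.ofReal_mul (by positivity), ENNReal.ofReal_le_ofReal_iff (by positivity)] at h6
  -- contradiction
  have e1 : τ ^ 4 = R ^ (-(16 * κ)) := by
    rw [hτ, ← Real.rpow_natCast, ← Real.rpow_mul hRp.le]
    congr 1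
    push_cast
    ring
  have h7 : X / 8 * (τ ^ 4 / 2 ^ 16) * (τ ^ 4 * ρ) ≤ 12 * 2 ^ 26 * M := by
    have : 6 * (2 * M') / ρ * (τ ^ 4 * ρ) = 12 * 2 ^ 26 * M := by
      rw [hM']
      field_simp
      ring
    rw [← this]
    gcongr
  have h8 : X * τ ^ 4 * τ ^ 4 * ρ = M * R ^ (1 - s - c - 35 * κ) := by
    rw [hX, e1, hρ, hM, ← Real.rpow_add hRp, ← Real.rpow_add hRp, ← Real.rpow_add hRp,
      ← Real.rpow_add hRp]
    congr 1
    ring
  have h9 : M * R ^ (1 - s - c - 35 * κ) ≤ 8 * 2 ^ 16 * (12 * 2 ^ 26 * M) := by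
    rw [← h8]
    have : X / 8 * (τ ^ 4 / 2 ^ 16) * (τ ^ 4 * ρ) = X * τ ^ 4 * τ ^ 4 * ρ / (8 * 2 ^ 16) := by
      ring
    rw [this, div_le_iff₀ (by norm_num)] at h7
    linarith
  have h10 : M * 2 ^ 49 < M * R ^ (1 - s - c - 35 * κ) := by gcongr
  nlinarith

/-- the exponent gain -/
noncomputable def cst (s : ℝ) : ℝ := (1 - s) ^ 2 * s / 400

/-- the main estimate -/
theorem star (μ : Measure ℝ) [IsProbabilityMeasure μ] {s C : ℝ} (hs0 : 0 < s)
    (hs1 : s < 1) (hC : 0 < C) (hμ : Fros μ s C) :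
    ∃ R1 : ℝ, 1 ≤ R1 ∧ ∀ R, R1 ≤ R → ∀ w : ℝ → ℝ, Measurable w →
      ∫ l in Icc (-1 : ℝ) 1, PP μ w R l ≤ R ^ (-s - cst s) := by
  set κ := (1 - s) / 40 with hκ
  set c := cst s with hc
  have hσ : 0 < 1 - s := by linarith
  have hκp : 0 < κ := by positivity
  have hcp : 0 < c := by rw [hc]; unfold cst; positivity
  have hss : 0 < (1 - s) * s := by positivity
  have hcc : c = κ * ((1 - s) * s) / 10 := by rw [hc, hκ]; unfold cst; ring
  have g1 : 0 < κ * (1 - s) - c := by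
    rw [hcc]
    have : (1 - s) * s ≤ 1 - s := by nlinarith
    nlinarith
  have g2 : 0 < κ - 4 * c := by
    rw [hcc]
    have : (1 - s) * s ≤ 1 := by nlinarith
    nlinarith
  have g3 : 0 < s * κ - c := by
    rw [hcc]
    have : (1 - s) * s ≤ s := by nlinarith
    nlinarith
  have g4 : 0 < 1 - s - c - 35 * κ := by
    have : (1 - s) * s ≤ 1 := by nlinarith
    have h2 : c ≤ κ / 10 := by rw [hcc]; nlinarith
    have h3 : 1 - s = 40 * κ := by rw [hκ]; ring
    rw [h3]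
    linarith
  have ev : ∀ᶠ R : ℝ in Filter.atTop, 1 ≤ R ∧ 320 * C ≤ R ^ (κ * (1 - s) - c) ∧
      2 * 10 ^ 11 * C ^ 4 < R ^ (κ - 4 * c) ∧ 8 * C ^ 2 ≤ R ^ (s * κ - c) ∧
      2 ^ 49 < R ^ (1 - s - c - 35 * κ) := by
    filter_upwards [Filter.eventually_ge_atTop 1,
      (tendsto_rpow_atTop g1).eventually_ge_atTop (320 * C),
      (tendsto_rpow_atTop g2).eventually_gt_atTop (2 * 10 ^ 11 * C ^ 4),
      (tendsto_rpow_atTop g3).eventually_ge_atTop (8 * C ^ 2),
      (tendsto_rpow_atTop g4).eventually_gt_atTop (2 ^ 49)] with R h1 h2 h3 h4 h5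
    exact ⟨h1, h2, h3, h4, h5⟩
  obtain ⟨R1, hR1⟩ := Filter.eventually_atTop.mp ev
  refine ⟨max R1 1, le_max_right _ _, ?_⟩
  intro R hR w hw
  obtain ⟨h1, h2, h3, h4, h5⟩ := hR1 R ((le_max_left _ _).trans hR)
  exact star_core μ hs0 hs1 hC hμ h1 hκp h2 h3 h4 h5 hw

end Pool.Agent.NH64.DS.Mn
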