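import Mathlib
import Pool.Agent.NH64.DS.Star2

/-!
# The set of bad dilations
-/

set_option autoImplicit false

open MeasureTheory Set Real
open scoped ENNReal

namespace Pool.Agent.NH64.DS.Mn

/-- measure of a section is measurable -/
lemma sec_meas (μ : Measure ℝ) [IsProbabilityMeasure μ] {Z : ℝ → ℝ} (hZ : Measurable Z) (L : ℝ)
    (I : Set ℤ) : Measurable (fun t => μ {a | ⌊Z t - L * t * a⌋ ∈ I}) := by
  have hS : MeasurableSet {z : ℝ × ℝ | ⌊Z z.1 - L * z.1 * z.2⌋ ∈ I} := by
    have h1 : Measurable (fun z : ℝ × ℝ => ⌊Z z.1 - L * z.1 * z.2⌋) :=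
      Int.measurable_floor.comp (by fun_prop)
    exact h1 (MeasurableSet.of_discrete (s := I))
  exact measurable_measure_prodMk_left (ν := μ) hS

/-- pair correlation at fixed `t` -/
lemma pair_bound (μ : Measure ℝ) [IsProbabilityMeasure μ] {Z : ℝ → ℝ} (hZ : Measurable Z)
    {L t : ℝ} (hL : 0 < L) (ht : t ∈ Icc (1 : ℝ) 2) :
    ∫⁻ t' in Icc (1 : ℝ) 2, (μ.prod μ) {z : ℝ × ℝ |
      |(Z t - L * t * z.1) - (Z t' - L * t' * z.2)| ≤ 1} ≤
    ENNReal.ofReal (2 * ∫ l in Icc (-1 : ℝ) 1,
      PP μ (fun l => (Z t - Z (t * exp l)) / (L * t)) (L / 2) l) := by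
  have ht0 : 0 < t := by linarith [ht.1]
  set s : Set ℝ := Icc (-log t) (log 2 - log t) with hs
  have himg : Icc (1 : ℝ) 2 ⊆ (fun l => t * exp l) '' s := by
    intro x hx
    have hx0 : 0 < x := by linarith [hx.1]
    refine ⟨log (x / t), ⟨?_, ?_⟩, ?_⟩
    · rw [Real.log_div hx0.ne' ht0.ne']
      have := Real.log_nonneg hx.1
      linarith
    · rw [Real.log_div hx0.ne' ht0.ne']
      have := Real.log_le_log hx0 hx.2
      linarith
    · simp only
      rw [Real.exp_log (by positivity)]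
      field_simp
  have hlog2 : log 2 ≤ 1 := by
    have := Real.log_two_lt_d9
    linarith
  have hlogt : 0 ≤ log t := Real.log_nonneg ht.1
  have hlogt2 : log t ≤ 1 := (Real.log_le_log ht0 ht.2).trans hlog2
  have hs1 : s ⊆ Icc (-1 : ℝ) 1 := by
    intro l hl
    constructor
    · linarith [hl.1]
    · linarith [hl.2]
  set w : ℝ → ℝ := fun l => (Z t - Z (t * exp l)) / (L * t) with hw
  have hwm : Measurable w := by
    rw [hw]
    fun_prop
  calc ∫⁻ t' in Icc (1 : ℝ) 2, (μ.prod μ) {z : ℝ × ℝ |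
      |(Z t - L * t * z.1) - (Z t' - L * t' * z.2)| ≤ 1}
      ≤ ∫⁻ t' in (fun l => t * exp l) '' s, (μ.prod μ) {z : ℝ × ℝ |
      |(Z t - L * t * z.1) - (Z t' - L * t' * z.2)| ≤ 1} := lintegral_mono_set himg
    _ = ∫⁻ l in s, ENNReal.ofReal |t * exp l| * (μ.prod μ) {z : ℝ × ℝ |
      |(Z t - L * t * z.1) - (Z (t * exp l) - L * (t * exp l) * z.2)| ≤ 1} := by
        rw [lintegral_image_eq_lintegral_abs_deriv_mul measurableSet_Icc
          (f' := fun l => t * exp l)]
        · intro x _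
          exact ((Real.hasDerivAt_exp x).const_mul t).hasDerivWithinAt
        · intro x _ y _ hxy
          simp only at hxy
          exact Real.exp_injective (mul_left_cancel₀ ht0.ne' hxy)
    _ ≤ ∫⁻ l in s, 2 * ENNReal.ofReal (PP μ w (L / 2) l) := by
        apply setLIntegral_mono' measurableSet_Icc
        intro l hl
        have h1 : ENNReal.ofReal |t * exp l| ≤ 2 := by
          rw [abs_of_pos (by positivity)]
          have : t * exp l ≤ 2 := by
            calc t * exp l ≤ t * exp (log 2 - log t) := by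
                  gcongr
                  exact hl.2
              _ = 2 := by
                rw [Real.exp_sub, Real.exp_log two_pos, Real.exp_log ht0]
                field_simp
          calc ENNReal.ofReal (t * exp l) ≤ ENNReal.ofReal 2 := ENNReal.ofReal_le_ofReal this
            _ = 2 := by simp
        have h2 : (μ.prod μ) {z : ℝ × ℝ |
            |(Z t - L * t * z.1) - (Z (t * exp l) - L * (t * exp l) * z.2)| ≤ 1}
            ≤ ENNReal.ofReal (PP μ w (L / 2) l) := by
          unfold PP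
          rw [ofReal_measureReal]
          apply measure_mono
          intro z hz
          have hz' : |(Z t - L * t * z.1) - (Z (t * exp l) - L * (t * exp l) * z.2)| ≤ 1 := hz
          show |z.1 - exp l * z.2 - w l| ≤ 1 / (2 * (L / 2))
          have e1 : z.1 - exp l * z.2 - w l = -((Z t - L * t * z.1)
              - (Z (t * exp l) - L * (t * exp l) * z.2)) / (L * t) := by
            rw [hw]
            field_simp
            ring
          rw [e1, abs_div, abs_neg, abs_of_pos (by positivity : 0 < L * t)]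
          rw [div_le_div_iff₀ (by positivity) (by positivity)]
          have h3 : 1 ≤ t := ht.1
          nlinarith
        gcongr
    _ ≤ ∫⁻ l in Icc (-1 : ℝ) 1, 2 * ENNReal.ofReal (PP μ w (L / 2) l) := lintegral_mono_set hs1
    _ = ENNReal.ofReal (2 * ∫ l in Icc (-1 : ℝ) 1, PP μ w (L / 2) l) := by
        rw [lintegral_const_mul]
        · rw [ENNReal.ofReal_mul (by norm_num), ofReal_integral_eq_lintegral_ofReal]
          · simp
          · apply integrable_bdd (PP_meas μ hwm _) (C := 1)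
            intro l
            rw [norm_eq_abs, abs_of_nonneg (PP_nonneg μ w _ l)]
            exact PP_le_one μ w _ l
          · filter_upwards with l using PP_nonneg μ w _ l
        · exact (PP_meas μ hwm _).ennreal_ofReal

/-- measurable selection and Cauchy-Schwarz -/
lemma bad_core (μ : Measure ℝ) [IsProbabilityMeasure μ] {L B : ℝ} (hL : 0 < L) (hB : 0 ≤ B)
    (hstar : ∀ w : ℝ → ℝ, Measurable w → ∫ l in Icc (-1 : ℝ) 1, PP μ w (L / 2) l ≤ B)
    (I : Finset ℤ) {θ : ℝ} (hθ : 0 < θ) :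
    volume {t : ℝ | t ∈ Icc (1 : ℝ) 2 ∧
      ∃ g : ℤ, ENNReal.ofReal θ ≤ μ {a | ⌊(g : ℝ) - L * t * a⌋ ∈ I}}
      ≤ ENNReal.ofReal (2 * I.card / θ ^ 2 * B) := by
  classical
  set T := {t : ℝ | t ∈ Icc (1 : ℝ) 2 ∧
      ∃ g : ℤ, ENNReal.ofReal θ ≤ μ {a | ⌊(g : ℝ) - L * t * a⌋ ∈ I}} with hT
  have hpm : ∀ g : ℤ, MeasurableSet {t : ℝ | ENNReal.ofReal θ ≤ μ {a | ⌊(g : ℝ) - L * t * a⌋ ∈ I}} :=
    fun g => measurableSet_le measurable_const
      (sec_meas μ (Z := fun _ => (g : ℝ)) measurable_const L (I : Set ℤ))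
  have hTm : MeasurableSet T := by
    have : T = Icc (1 : ℝ) 2 ∩
        ⋃ g : ℤ, {t : ℝ | ENNReal.ofReal θ ≤ μ {a | ⌊(g : ℝ) - L * t * a⌋ ∈ I}} := by
      ext t
      simp [hT]
    rw [this]
    exact measurableSet_Icc.inter (MeasurableSet.iUnion hpm)
  -- measurable choice of the translation
  obtain ⟨Z, hZm, hZ⟩ : ∃ Z : ℝ → ℝ, Measurable Z ∧
      ∀ t ∈ T, ENNReal.ofReal θ ≤ μ {a | ⌊Z t - L * t * a⌋ ∈ I} := by
    obtain ⟨e, he⟩ := exists_surjective_nat ℤ
    set p : ℕ → ℝ → Prop := fun n t =>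
      t ∉ T ∨ ENNReal.ofReal θ ≤ μ {a | ⌊((e n : ℤ) : ℝ) - L * t * a⌋ ∈ I} with hp
    have hex : ∀ t, ∃ n, p n t := by
      intro t
      by_cases ht : t ∈ T
      · obtain ⟨g, hg⟩ := ht.2
        obtain ⟨n, rfl⟩ := he g
        exact ⟨n, Or.inr hg⟩
      · exact ⟨0, Or.inl ht⟩
    refine ⟨fun t => ((e (Nat.find (hex t)) : ℤ) : ℝ), ?_, ?_⟩
    · apply Measurable.find (f := fun n _ => ((e n : ℤ) : ℝ)) (p := p)
      · intro n
        exact measurable_const
      · intro n
        exact hTm.compl.union (hpm (e n))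
    · intro t ht
      have := Nat.find_spec (hex t)
      rcases this with h | h
      · exact absurd ht h
      · exact h
  -- section functions
  set f : ℤ → ℝ → ℝ≥0∞ := fun n t => μ {a | ⌊Z t - L * t * a⌋ = n} with hf
  have hfm : ∀ n, Measurable (f n) := by
    intro n
    have := sec_meas μ hZm L ({n} : Set ℤ)
    simpa [hf] using this
  have hsum : ∀ t ∈ T, ENNReal.ofReal θ ≤ ∑ n ∈ I, f n t := by
    intro t ht
    refine (hZ t ht).trans ?_
    have : {a | ⌊Z t - L * t * a⌋ ∈ I} = ⋃ n ∈ I, {a | ⌊Z t - L * t * a⌋ = n} := by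
      ext a
      simp
    rw [this]
    exact measure_biUnion_finset_le _ _
  set V := volume T with hV
  have hV1 : V ≤ 1 := by
    calc V ≤ volume (Icc (1 : ℝ) 2) := measure_mono (fun t ht => ht.1)
      _ = 1 := by rw [Real.volume_Icc]; norm_num
  have hVtop : V ≠ ⊤ := (hV1.trans_lt (by simp)).ne
  set b : ℤ → ℝ≥0∞ := fun n => ∫⁻ t in T, f n t with hb
  have h1 : ENNReal.ofReal θ * V ≤ ∑ n ∈ I, b n := by
    calc ENNReal.ofReal θ * V = ∫⁻ t in T, ENNReal.ofReal θ := by rw [setLIntegral_const]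
      _ ≤ ∫⁻ t in T, ∑ n ∈ I, f n t := setLIntegral_mono' hTm hsum
      _ = ∑ n ∈ I, b n := lintegral_finsetSum _ (fun n _ => hfm n)
  have h2 : (∑ n ∈ I, b n) ^ 2 ≤ I.card * ∑ n ∈ I, b n ^ 2 := by
    have := ENNReal.rpow_sum_le_const_mul_sum_rpow I b (p := 2) (by norm_num)
    norm_num at this
    exact this
  have h3 : ∑ n ∈ I, b n ^ 2 ≤ ∫⁻ t in T, ∫⁻ t' in T, (μ.prod μ) {z : ℝ × ℝ |
      |(Z t - L * t * z.1) - (Z t' - L * t' * z.2)| ≤ 1} := by
    have e1 : ∀ n, b n ^ 2 = ∫⁻ t in T, ∫⁻ t' in T, f n t * f n t' := by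
      intro n
      have : ∀ t, ∫⁻ t' in T, f n t * f n t' = f n t * b n := by
        intro t
        rw [lintegral_const_mul _ (hfm n)]
      simp only [this]
      rw [lintegral_mul_const _ (hfm n), pow_two]
    have e2 : ∑ n ∈ I, b n ^ 2 = ∫⁻ t in T, ∫⁻ t' in T, ∑ n ∈ I, f n t * f n t' := by
      simp only [e1]
      rw [← lintegral_finsetSum]
      · congr 1
        ext t
        rw [lintegral_finsetSum]
        intro n _
        exact (hfm n).const_mul _
      · intro n _
        have : Measurable (fun z : ℝ × ℝ => f n z.1 * f n z.2) := by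
          have := hfm n
          fun_prop
        exact this.lintegral_prod_right'
    rw [e2]
    apply lintegral_mono
    intro t
    apply lintegral_mono
    intro t'
    have e3 : ∑ n ∈ I, f n t * f n t' = (μ.prod μ) (⋃ n ∈ I,
        ({a | ⌊Z t - L * t * a⌋ = n} ×ˢ {a | ⌊Z t' - L * t' * a⌋ = n})) := by
      rw [measure_biUnion_finset]
      · apply Finset.sum_congr rfl
        intro n _
        rw [Measure.prod_prod]
      · intro n _ n' _ hnn
        rw [Function.onFun, Set.disjoint_left]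
        rintro z ⟨hz1, _⟩ ⟨hz1', _⟩
        exact hnn (hz1.symm.trans hz1')
      · intro n _
        have hfl : ∀ t : ℝ, MeasurableSet {a : ℝ | ⌊Z t - L * t * a⌋ = n} := by
          intro t
          have h1 : Measurable (fun a : ℝ => ⌊Z t - L * t * a⌋) :=
            Int.measurable_floor.comp (by fun_prop)
          exact h1 (MeasurableSet.of_discrete (s := {n}))
        exact (hfl t).prod (hfl t')
    simp only
    rw [e3]
    apply measure_mono
    intro z hz
    simp only [mem_iUnion] at hz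
    obtain ⟨n, _, hz1, hz2⟩ := hz
    have g1 : ⌊Z t - L * t * z.1⌋ = n := hz1
    have g2 : ⌊Z t' - L * t' * z.2⌋ = n := hz2
    rw [Int.floor_eq_iff] at g1 g2
    show |(Z t - L * t * z.1) - (Z t' - L * t' * z.2)| ≤ 1
    rw [abs_le]
    constructor <;> linarith [g1.1, g1.2, g2.1, g2.2]
  have h4 : ∫⁻ t in T, ∫⁻ t' in T, (μ.prod μ) {z : ℝ × ℝ |
      |(Z t - L * t * z.1) - (Z t' - L * t' * z.2)| ≤ 1} ≤ ENNReal.ofReal (2 * B) * V := by
    calc _ ≤ ∫⁻ t in T, ENNReal.ofReal (2 * B) := by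
          apply setLIntegral_mono' hTm
          intro t ht
          calc ∫⁻ t' in T, (μ.prod μ) {z : ℝ × ℝ |
                |(Z t - L * t * z.1) - (Z t' - L * t' * z.2)| ≤ 1}
              ≤ ∫⁻ t' in Icc (1 : ℝ) 2, (μ.prod μ) {z : ℝ × ℝ |
                |(Z t - L * t * z.1) - (Z t' - L * t' * z.2)| ≤ 1} :=
                lintegral_mono_set (fun t ht => ht.1)
            _ ≤ _ := pair_bound μ hZm hL ht.1
            _ ≤ ENNReal.ofReal (2 * B) := by
                apply ENNReal.ofReal_le_ofReal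
                have := hstar (fun l => (Z t - Z (t * exp l)) / (L * t)) (by fun_prop)
                linarith
      _ = _ := by rw [setLIntegral_const]
  have h5 : (ENNReal.ofReal θ * V) ^ 2 ≤ I.card * (ENNReal.ofReal (2 * B) * V) := by
    calc (ENNReal.ofReal θ * V) ^ 2 ≤ (∑ n ∈ I, b n) ^ 2 := by gcongr
      _ ≤ I.card * ∑ n ∈ I, b n ^ 2 := h2
      _ ≤ _ := by gcongr; exact h3.trans h4
  -- to the reals
  have h6 : (θ * V.toReal) ^ 2 ≤ I.card * (2 * B * V.toReal) := by
    have h7 := ENNReal.toReal_mono (by finiteness) h5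
    rw [ENNReal.toReal_pow, ENNReal.toReal_mul, ENNReal.toReal_mul, ENNReal.toReal_mul,
      ENNReal.toReal_ofReal hθ.le, ENNReal.toReal_ofReal (by positivity),
      ENNReal.toReal_natCast] at h7
    exact h7
  have h8 : V.toReal ≤ 2 * I.card / θ ^ 2 * B := by
    rcases eq_or_lt_of_le (ENNReal.toReal_nonneg (a := V)) with h | h
    · rw [← h]; positivity
    · rw [div_mul_eq_mul_div, le_div_iff₀ (by positivity)]
      have : V.toReal * (V.toReal * θ ^ 2) ≤ V.toReal * (2 * I.card * B) := by nlinarith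
      exact le_of_mul_le_mul_left this h
  rw [← ENNReal.ofReal_toReal hVtop]
  exact ENNReal.ofReal_le_ofReal h8

end Pool.Agent.NH64.DS.Mn
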