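import Mathlib
import Pool.Agent.NH64.DS.Defs

/-!
# Dyadic martingale differences
-/

set_option autoImplicit false

open MeasureTheory Set Real
open scoped ENNReal

namespace Pool.Agent.NH64.DS.Mn

lemma mem_dy {j : ℕ} {i : ℤ} {x : ℝ} : x ∈ dy j i ↔ ⌊x * 2 ^ j⌋ = i := by
  unfold dy
  rw [mem_Ico, Int.floor_eq_iff, inv_pow, ← div_eq_mul_inv, ← div_eq_mul_inv,
    div_le_iff₀ (by positivity), lt_div_iff₀ (by positivity)]

lemma dy_meas (j : ℕ) (i : ℤ) : MeasurableSet (dy j i) := measurableSet_Ico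

lemma dy_disj {j : ℕ} {i i' : ℤ} (h : i ≠ i') : Disjoint (dy j i) (dy j i') := by
  rw [Set.disjoint_left]
  intro x hx hx'
  rw [mem_dy] at hx hx'
  exact h (hx.symm.trans hx')

lemma floor_succ (x : ℝ) (j : ℕ) :
    ⌊x * 2 ^ (j + 1)⌋ = 2 * ⌊x * 2 ^ j⌋ ∨ ⌊x * 2 ^ (j + 1)⌋ = 2 * ⌊x * 2 ^ j⌋ + 1 := by
  have h1 : x * 2 ^ (j + 1) = 2 * (x * 2 ^ j) := by ring
  rw [h1]
  set y := x * 2 ^ j
  have h2 := Int.floor_le y
  have h3 := Int.lt_floor_add_one y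
  rcases lt_or_ge y (⌊y⌋ + 1 / 2) with h | h
  · left
    rw [Int.floor_eq_iff]
    push_cast
    constructor <;> linarith
  · right
    rw [Int.floor_eq_iff]
    push_cast
    constructor <;> linarith

lemma dy_split (j : ℕ) (i : ℤ) : dy j i = dy (j + 1) (2 * i) ∪ dy (j + 1) (2 * i + 1) := by
  ext x
  rw [mem_union, mem_dy, mem_dy, mem_dy]
  have := floor_succ x j
  constructor
  · intro h
    rw [h] at this
    exact this
  · intro h
    omega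

lemma real_split (ν : Measure ℝ) [IsProbabilityMeasure ν] (j : ℕ) (i : ℤ) :
    ν.real (dy j i) = ν.real (dy (j + 1) (2 * i)) + ν.real (dy (j + 1) (2 * i + 1)) := by
  rw [dy_split, measureReal_union (dy_disj (by omega)) (dy_meas _ _)]

lemma dy_summable (ν : Measure ℝ) [IsProbabilityMeasure ν] (j : ℕ) :
    Summable (fun i : ℤ => ν.real (dy j i)) := by
  apply ENNReal.summable_toReal
  rw [← measure_iUnion (fun i i' h => dy_disj h) (fun i => dy_meas j i)]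
  exact measure_ne_top _ _

/-- one term of `ej` -/
noncomputable def e1 (ν : Measure ℝ) (j : ℕ) (i : ℤ) : ℝ :=
  (2 : ℝ) ^ j * (ν.real (dy (j + 1) (2 * i)) - ν.real (dy (j + 1) (2 * i + 1))) ^ 2

lemma e1_nonneg (ν : Measure ℝ) (j : ℕ) (i : ℤ) : 0 ≤ e1 ν j i := by unfold e1; positivity

lemma e1_summable (ν : Measure ℝ) [IsProbabilityMeasure ν] (j : ℕ) : Summable (e1 ν j) := by
  apply Summable.of_nonneg_of_le (e1_nonneg ν j) _ ((dy_summable ν j).mul_left ((2 : ℝ) ^ j))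
  intro i
  unfold e1
  gcongr
  rw [real_split ν j i]
  have h1 : 0 ≤ ν.real (dy (j + 1) (2 * i)) := measureReal_nonneg
  have h2 : 0 ≤ ν.real (dy (j + 1) (2 * i + 1)) := measureReal_nonneg
  have h3 : ν.real (dy (j + 1) (2 * i)) ≤ 1 := measureReal_le_one
  have h4 : ν.real (dy (j + 1) (2 * i + 1)) ≤ 1 := measureReal_le_one
  nlinarith

lemma ej_eq (ν : Measure ℝ) (j : ℕ) : ej ν j = ∑' i, e1 ν j i := rfl

/-- the value of the martingale difference -/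
noncomputable def dd (ν : Measure ℝ) (j : ℕ) (i : ℤ) : ℝ :=
  (2 : ℝ) ^ j * (ν.real (dy (j + 1) (2 * i)) - ν.real (dy (j + 1) (2 * i + 1)))

lemma dd_sq (ν : Measure ℝ) (j : ℕ) (i : ℤ) : (dd ν j i) ^ 2 = 2 ^ j * e1 ν j i := by
  unfold dd e1
  ring

/-- dyadic density -/
noncomputable def fd (ν : Measure ℝ) (j : ℕ) (i : ℤ) : ℝ := (2 : ℝ) ^ j * ν.real (dy j i)

lemma fd_step (ν : Measure ℝ) [IsProbabilityMeasure ν] (j : ℕ) (x : ℝ) :
    fd ν j ⌊x * 2 ^ j⌋ - |dd ν j ⌊x * 2 ^ j⌋| ≤ fd ν (j + 1) ⌊x * 2 ^ (j + 1)⌋ := by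
  have h := real_split ν j ⌊x * 2 ^ j⌋
  unfold fd dd
  rcases floor_succ x j with h1 | h1
  · rw [h1, h, pow_succ]
    have := neg_abs_le ((2 : ℝ) ^ j * (ν.real (dy (j + 1) (2 * ⌊x * 2 ^ j⌋)) -
      ν.real (dy (j + 1) (2 * ⌊x * 2 ^ j⌋ + 1))))
    linarith
  · rw [h1, h, pow_succ]
    have := le_abs_self ((2 : ℝ) ^ j * (ν.real (dy (j + 1) (2 * ⌊x * 2 ^ j⌋)) -
      ν.real (dy (j + 1) (2 * ⌊x * 2 ^ j⌋ + 1))))
    linarith

/-- floor at a finer level stays in the block -/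
lemma floor_block {x : ℝ} {m : ℕ} {i : ℤ} (hx : x ∈ dy m i) (l : ℕ) :
    ⌊x * 2 ^ (m + l)⌋ ∈ Finset.Ico (i * 2 ^ l) ((i + 1) * 2 ^ l) := by
  rw [mem_dy] at hx
  rw [Finset.mem_Ico]
  have h1 := Int.floor_le (x * 2 ^ m)
  have h2 := Int.lt_floor_add_one (x * 2 ^ m)
  rw [hx] at h1 h2
  have e : x * 2 ^ (m + l) = (x * 2 ^ m) * 2 ^ l := by rw [pow_add]; ring
  have hp : (0:ℝ) < 2 ^ l := by positivity
  constructor
  · rw [Int.le_floor, e]
    push_cast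
    gcongr
  · rw [Int.floor_lt, e]
    push_cast
    gcongr

/-- energies over disjoint blocks add up to at most the total -/
lemma block_sum (ν : Measure ℝ) [IsProbabilityMeasure ν] (m l : ℕ) (F : Finset ℤ) :
    ∑ i ∈ F, ∑ n ∈ Finset.Ico (i * 2 ^ l) ((i + 1) * 2 ^ l), e1 ν (m + l) n ≤ ej ν (m + l) := by
  rw [← Finset.sum_biUnion]
  · rw [ej_eq]
    exact (e1_summable ν (m + l)).sum_le_tsum _ (fun i _ => e1_nonneg ν _ i)
  · intro i _ i' _ hii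
    rw [Function.onFun, Finset.disjoint_left]
    intro n hn hn'
    rw [Finset.mem_Ico] at hn hn'
    have hp : (0:ℤ) < 2 ^ l := by positivity
    rcases lt_or_gt_of_ne hii with h | h
    · have : (i + 1) * 2 ^ l ≤ i' * 2 ^ l := by gcongr; omega
      omega
    · have : (i' + 1) * 2 ^ l ≤ i * 2 ^ l := by gcongr; omega
      omega

/-- choice of a good dyadic interval -/
lemma pick (ν : Measure ℝ) [IsProbabilityMeasure ν] (Lb : ℕ)
    (hsupp : ν (Icc (-(Lb : ℝ)) Lb)ᶜ = 0) {γ η C' : ℝ} (hη : 0 < η)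
    (hej : ∀ j : ℕ, ej ν j ≤ C' * (2 : ℝ) ^ (-((γ + η) * j))) (m : ℕ)
    (hm : C' * (2 : ℝ) ^ (-(η * m)) * (1 - (2 : ℝ) ^ (-η))⁻¹ < 1 / (2 * (Lb : ℝ) + 1)) :
    ∃ i0 : ℤ, 0 < ν.real (dy m i0) ∧ ∀ l : ℕ,
      ∑ n ∈ Finset.Ico (i0 * 2 ^ l) ((i0 + 1) * 2 ^ l), e1 ν (m + l) n
        ≤ (2 : ℝ) ^ (-(γ * ((m + l : ℕ) : ℝ))) * (2 ^ m * (ν.real (dy m i0)) ^ 2) := by
  by_contra hcon
  push Not at hcon
  set E : ℕ → ℤ → ℝ := fun l i =>
    ∑ n ∈ Finset.Ico (i * 2 ^ l) ((i + 1) * 2 ^ l), e1 ν (m + l) n with hE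
  have hE0 : ∀ l i, 0 ≤ E l i := fun l i => Finset.sum_nonneg (fun n _ => e1_nonneg ν _ n)
  have hC' : 0 ≤ C' := by
    have h1 := hej 0
    have h2 : 0 ≤ ej ν 0 := tsum_nonneg (fun i => e1_nonneg ν 0 i)
    simp at h1
    linarith
  have hall : ∀ i : ℤ, ∃ l : ℕ,
      2 ^ m * (ν.real (dy m i)) ^ 2 ≤ (2 : ℝ) ^ (γ * ((m + l : ℕ) : ℝ)) * E l i := by
    intro i
    rcases eq_or_lt_of_le (measureReal_nonneg (μ := ν) (s := dy m i)) with h | h
    · refine ⟨0, ?_⟩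
      rw [← h]
      have := hE0 0 i
      simp only [ne_eq, OfNat.ofNat_ne_zero, not_false_eq_true, zero_pow, mul_zero]
      positivity
    · obtain ⟨l, hl⟩ := hcon i h
      refine ⟨l, ?_⟩
      have hp : 0 < (2 : ℝ) ^ (γ * ((m + l : ℕ) : ℝ)) := by positivity
      have e : (2 : ℝ) ^ (γ * ((m + l : ℕ) : ℝ)) * (2 : ℝ) ^ (-(γ * ((m + l : ℕ) : ℝ))) = 1 := by
        rw [← Real.rpow_add two_pos, add_neg_cancel, Real.rpow_zero]
      calc 2 ^ m * (ν.real (dy m i)) ^ 2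
          = (2 : ℝ) ^ (γ * ((m + l : ℕ) : ℝ)) * ((2 : ℝ) ^ (-(γ * ((m + l : ℕ) : ℝ))) *
            (2 ^ m * (ν.real (dy m i)) ^ 2)) := by rw [← mul_assoc, e, one_mul]
        _ ≤ _ := by
          apply mul_le_mul_of_nonneg_left hl.le hp.le
  set F : Finset ℤ := Finset.Icc (-(Lb * 2 ^ m : ℤ)) (Lb * 2 ^ m) with hF
  have hcard : (F.card : ℝ) ≤ (2 * Lb + 1) * 2 ^ m := by
    rw [hF, Int.card_Icc]
    have h1 : ((Lb * 2 ^ m + 1 - -(Lb * 2 ^ m) : ℤ).toNat : ℝ) = 2 * Lb * 2 ^ m + 1 := by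
      have h2 : (Lb * 2 ^ m + 1 - -(Lb * 2 ^ m) : ℤ) = ((2 * Lb * 2 ^ m + 1 : ℕ) : ℤ) := by
        push_cast; ring
      rw [h2, Int.toNat_natCast]
      push_cast
      ring
    rw [h1]
    have : (1:ℝ) ≤ 2 ^ m := one_le_pow₀ one_le_two
    nlinarith
  have hsum1 : 1 ≤ ∑ i ∈ F, ν.real (dy m i) := by
    have h1 : (univ : Set ℝ) ⊆ (⋃ i ∈ F, dy m i) ∪ (Icc (-(Lb : ℝ)) Lb)ᶜ := by
      intro x _
      by_cases hx : x ∈ Icc (-(Lb : ℝ)) Lb
      · left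
        simp only [mem_iUnion]
        refine ⟨⌊x * 2 ^ m⌋, ?_, mem_dy.mpr rfl⟩
        rw [hF, Finset.mem_Icc]
        have hp : (0:ℝ) < 2 ^ m := by positivity
        constructor
        · rw [Int.le_floor]
          push_cast
          have := hx.1
          nlinarith
        · have h3 : (⌊x * 2 ^ m⌋ : ℝ) ≤ x * 2 ^ m := Int.floor_le _
          have h4 : x * 2 ^ m ≤ Lb * 2 ^ m := by
            have := hx.2
            gcongr
          have h5 : (⌊x * 2 ^ m⌋ : ℝ) ≤ ((Lb * 2 ^ m : ℤ) : ℝ) := by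
            push_cast; linarith
          exact_mod_cast h5
      · right; exact hx
    calc (1:ℝ) = ν.real univ := by simp
      _ ≤ ν.real ((⋃ i ∈ F, dy m i) ∪ (Icc (-(Lb : ℝ)) Lb)ᶜ) := measureReal_mono h1
      _ ≤ ν.real (⋃ i ∈ F, dy m i) + ν.real (Icc (-(Lb : ℝ)) Lb)ᶜ := measureReal_union_le _ _
      _ = ν.real (⋃ i ∈ F, dy m i) := by
          rw [measureReal_def ν (Icc (-(Lb : ℝ)) Lb)ᶜ, hsupp]; simp
      _ ≤ ∑ i ∈ F, ν.real (dy m i) := measureReal_biUnion_finset_le _ _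
  have hsq : (1:ℝ) / (2 * (Lb:ℝ) + 1) ≤ ∑ i ∈ F, (2:ℝ) ^ m * (ν.real (dy m i)) ^ 2 := by
    have h1 := sq_sum_le_card_mul_sum_sq (s := F) (f := fun i => ν.real (dy m i))
    have h2 : 1 ≤ (∑ i ∈ F, ν.real (dy m i)) ^ 2 := one_le_pow₀ hsum1
    rw [← Finset.mul_sum, div_le_iff₀ (by positivity)]
    have h3 : 0 ≤ ∑ i ∈ F, (ν.real (dy m i)) ^ 2 := Finset.sum_nonneg (fun i _ => sq_nonneg _)
    calc (1:ℝ) ≤ F.card * ∑ i ∈ F, (ν.real (dy m i)) ^ 2 := h2.trans h1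
      _ ≤ (2 * Lb + 1) * 2 ^ m * ∑ i ∈ F, (ν.real (dy m i)) ^ 2 := by gcongr
      _ = _ := by ring
  have hlt1 : (2 : ℝ) ^ (-η) < 1 := Real.rpow_lt_one_of_one_lt_of_neg one_lt_two (by linarith)
  have hpos2 : 0 < (2 : ℝ) ^ (-η) := by positivity
  have hchain : ENNReal.ofReal (∑ i ∈ F, 2 ^ m * (ν.real (dy m i)) ^ 2)
      ≤ ENNReal.ofReal (C' * (2 : ℝ) ^ (-(η * m)) * (1 - (2 : ℝ) ^ (-η))⁻¹) := by
    calc ENNReal.ofReal (∑ i ∈ F, 2 ^ m * (ν.real (dy m i)) ^ 2)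
        = ∑ i ∈ F, ENNReal.ofReal (2 ^ m * (ν.real (dy m i)) ^ 2) :=
          ENNReal.ofReal_sum_of_nonneg (fun i _ => by positivity)
      _ ≤ ∑ i ∈ F, ∑' l : ℕ, ENNReal.ofReal ((2 : ℝ) ^ (γ * ((m + l : ℕ) : ℝ)) * E l i) := by
          apply Finset.sum_le_sum
          intro i _
          obtain ⟨l, hl⟩ := hall i
          exact (ENNReal.ofReal_le_ofReal hl).trans
            (ENNReal.le_tsum (f := fun l : ℕ =>
              ENNReal.ofReal ((2 : ℝ) ^ (γ * ((m + l : ℕ) : ℝ)) * E l i)) l)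
      _ = ∑' l : ℕ, ∑ i ∈ F, ENNReal.ofReal ((2 : ℝ) ^ (γ * ((m + l : ℕ) : ℝ)) * E l i) := by
          rw [Summable.tsum_finsetSum (fun i _ => ENNReal.summable)]
      _ ≤ ∑' l : ℕ, ENNReal.ofReal (C' * (2 : ℝ) ^ (-(η * m)) * ((2 : ℝ) ^ (-η)) ^ l) := by
          apply ENNReal.tsum_le_tsum
          intro l
          rw [← ENNReal.ofReal_sum_of_nonneg
            (fun i _ => mul_nonneg (by positivity) (hE0 l i))]
          apply ENNReal.ofReal_le_ofReal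
          rw [← Finset.mul_sum]
          have h1 := (block_sum ν m l F).trans (hej (m + l))
          have hp : 0 < (2 : ℝ) ^ (γ * ((m + l : ℕ) : ℝ)) := by positivity
          calc (2 : ℝ) ^ (γ * ((m + l : ℕ) : ℝ)) * ∑ i ∈ F, E l i
              ≤ (2 : ℝ) ^ (γ * ((m + l : ℕ) : ℝ)) *
                (C' * (2 : ℝ) ^ (-((γ + η) * ((m + l : ℕ) : ℝ)))) :=
                mul_le_mul_of_nonneg_left h1 hp.le
            _ = C' * (2 : ℝ) ^ (-(η * m)) * ((2 : ℝ) ^ (-η)) ^ l := by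
                rw [← Real.rpow_natCast ((2:ℝ) ^ (-η)) l, ← Real.rpow_mul two_pos.le,
                  mul_left_comm, ← Real.rpow_add two_pos, mul_assoc, ← Real.rpow_add two_pos]
                congr 2
                push_cast
                ring
      _ = ENNReal.ofReal (∑' l : ℕ, C' * (2 : ℝ) ^ (-(η * m)) * ((2 : ℝ) ^ (-η)) ^ l) := by
          rw [ENNReal.ofReal_tsum_of_nonneg]
          · intro l; positivity
          · exact (summable_geometric_of_lt_one hpos2.le hlt1).mul_left _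
      _ = _ := by rw [tsum_mul_left, tsum_geometric_of_lt_one hpos2.le hlt1]
  rw [ENNReal.ofReal_le_ofReal_iff (by
    have : 0 < 1 - (2 : ℝ) ^ (-η) := by linarith
    positivity)] at hchain
  linarith

end Pool.Agent.NH64.DS.Mn
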