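import Mathlib
import Pool.Agent.NH64.DS.Bad
import Pool.Agent.NH64.DS.Dyad

/-!
# Assembly of the argument
-/

set_option autoImplicit false

open MeasureTheory Set Real
open scoped ENNReal

namespace Pool.Agent.NH64.DS.Mn

/-- threshold sequence -/
noncomputable def th (η : ℝ) (l : ℕ) : ℝ := (1 - (2 : ℝ) ^ (-η)) / 2 * ((2 : ℝ) ^ (-η)) ^ l

lemma q_pos (η : ℝ) : 0 < (2 : ℝ) ^ (-η) := by positivity

lemma q_lt {η : ℝ} (hη : 0 < η) : (2 : ℝ) ^ (-η) < 1 :=
  Real.rpow_lt_one_of_one_lt_of_neg one_lt_two (by linarith)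

lemma th_pos {η : ℝ} (hη : 0 < η) (l : ℕ) : 0 < th η l := by
  unfold th
  have := q_lt hη
  have := q_pos η
  have : 0 < (1 - (2 : ℝ) ^ (-η)) / 2 := by linarith
  positivity

lemma th_hasSum {η : ℝ} (hη : 0 < η) : HasSum (th η) (1 / 2) := by
  unfold th
  have h1 := (hasSum_geometric_of_lt_one (q_pos η).le (q_lt hη)).mul_left
    ((1 - (2 : ℝ) ^ (-η)) / 2)
  have h2 : (1 - (2 : ℝ) ^ (-η)) / 2 * (1 - (2 : ℝ) ^ (-η))⁻¹ = 1 / 2 := by
    have : (1 - (2 : ℝ) ^ (-η)) ≠ 0 := by linarith [q_lt hη]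
    field_simp
  rwa [h2] at h1

lemma th_partial {η : ℝ} (hη : 0 < η) (l : ℕ) : ∑ i ∈ Finset.range l, th η i ≤ 1 / 2 := by
  rw [← (th_hasSum hη).tsum_eq]
  exact (th_hasSum hη).summable.sum_le_tsum _ (fun i _ => (th_pos hη i).le)

/-- bad intervals at relative level `l` -/
noncomputable def badI (ν : Measure ℝ) (m : ℕ) (i0 : ℤ) (η : ℝ) (l : ℕ) : Finset ℤ :=
  (Finset.Ico (i0 * 2 ^ l) ((i0 + 1) * 2 ^ l)).filter
    (fun n => fd ν m i0 * th η l ≤ |dd ν (m + l) n|)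

/-- the walk estimate -/
lemma walk (ν : Measure ℝ) [IsProbabilityMeasure ν] {m : ℕ} {i0 : ℤ} {η : ℝ} {x : ℝ}
    (hx : x ∈ dy m i0) (hg : ∀ l : ℕ, ⌊x * 2 ^ (m + l)⌋ ∉ badI ν m i0 η l) (l : ℕ) :
    fd ν m i0 * (1 - ∑ i ∈ Finset.range l, th η i) ≤ fd ν (m + l) ⌊x * 2 ^ (m + l)⌋ := by
  induction l with
  | zero =>
    simp only [Finset.range_zero, Finset.sum_empty, sub_zero, mul_one, add_zero]
    rw [mem_dy] at hx
    rw [hx]
  | succ l ih =>
    have h1 := fd_step ν (m + l) x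
    have h2 : |dd ν (m + l) ⌊x * 2 ^ (m + l)⌋| < fd ν m i0 * th η l := by
      by_contra hc
      push Not at hc
      apply hg l
      unfold badI
      rw [Finset.mem_filter]
      exact ⟨floor_block hx l, hc⟩
    rw [Finset.sum_range_succ]
    have e : m + (l + 1) = m + l + 1 := by ring
    rw [e]
    nlinarith

/-- cardinality of the bad sets -/
lemma badI_card (ν : Measure ℝ) [IsProbabilityMeasure ν] {m : ℕ} {i0 : ℤ} {η γ : ℝ}
    (hη : 0 < η) (hp : 0 < ν.real (dy m i0)) (l : ℕ)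
    (hE : ∑ n ∈ Finset.Ico (i0 * 2 ^ l) ((i0 + 1) * 2 ^ l), e1 ν (m + l) n
        ≤ (2 : ℝ) ^ (-(γ * ((m + l : ℕ) : ℝ))) * (2 ^ m * (ν.real (dy m i0)) ^ 2)) :
    ((badI ν m i0 η l).card : ℝ) * (th η l) ^ 2 ≤ 2 ^ l * (2 : ℝ) ^ (-(γ * ((m + l : ℕ) : ℝ))) := by
  set p := ν.real (dy m i0) with hpdef
  have hθ := (th_pos hη l).le
  have hh : 0 < fd ν m i0 := by unfold fd; positivity
  have h1 : ((badI ν m i0 η l).card : ℝ) * (fd ν m i0 * th η l) ^ 2
      ≤ ∑ n ∈ Finset.Ico (i0 * 2 ^ l) ((i0 + 1) * 2 ^ l), (dd ν (m + l) n) ^ 2 := by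
    calc ((badI ν m i0 η l).card : ℝ) * (fd ν m i0 * th η l) ^ 2
        = ∑ n ∈ badI ν m i0 η l, (fd ν m i0 * th η l) ^ 2 := by
          rw [Finset.sum_const, nsmul_eq_mul]
      _ ≤ ∑ n ∈ badI ν m i0 η l, (dd ν (m + l) n) ^ 2 := by
          apply Finset.sum_le_sum
          intro n hn
          unfold badI at hn
          rw [Finset.mem_filter] at hn
          rw [← sq_abs (dd ν (m + l) n)]
          exact pow_le_pow_left₀ (by positivity) hn.2 2
      _ ≤ _ := by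
          apply Finset.sum_le_sum_of_subset_of_nonneg
          · exact Finset.filter_subset _ _
          · intro n _ _
            positivity
  have h2 : ∑ n ∈ Finset.Ico (i0 * 2 ^ l) ((i0 + 1) * 2 ^ l), (dd ν (m + l) n) ^ 2
      ≤ 2 ^ (m + l) * ((2 : ℝ) ^ (-(γ * ((m + l : ℕ) : ℝ))) * (2 ^ m * p ^ 2)) := by
    simp only [dd_sq]
    rw [← Finset.mul_sum]
    gcongr
  have h3 := h1.trans h2
  have h4 : fd ν m i0 = 2 ^ m * p := rfl
  rw [h4] at h3
  have h5 : 0 < (2 ^ m * p) ^ 2 := by positivity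
  have h6 : ((badI ν m i0 η l).card : ℝ) * (th η l) ^ 2 * (2 ^ m * p) ^ 2
      ≤ 2 ^ l * (2 : ℝ) ^ (-(γ * ((m + l : ℕ) : ℝ))) * (2 ^ m * p) ^ 2 := by
    calc _ = ((badI ν m i0 η l).card : ℝ) * (2 ^ m * p * th η l) ^ 2 := by ring
      _ ≤ _ := h3
      _ = _ := by rw [pow_add]; ring
  exact le_of_mul_le_mul_right h6 h5

theorem assembly (μ : Measure ℝ) [IsProbabilityMeasure μ] {K : Set ℝ} (hK1 : K ⊆ Icc (-1) 1)
    (hK : μ Kᶜ = 0) {s c R1 : ℝ}
    (hstar : ∀ R, R1 ≤ R → ∀ w : ℝ → ℝ, Measurable w →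
      ∫ l in Icc (-1 : ℝ) 1, PP μ w R l ≤ R ^ (-s - c))
    (ν : Measure ℝ) [IsProbabilityMeasure ν] (Lb : ℕ) (hsupp : ν (Icc (-(Lb : ℝ)) Lb)ᶜ = 0)
    {γ η C' : ℝ} (hη : 0 < η) (hγ : 0 < γ)
    (hej : ∀ j : ℕ, ej ν j ≤ C' * (2 : ℝ) ^ (-((γ + η) * j)))
    (hβ : 0 < s + c + γ - 1 - 4 * η) :
    ∃ (m : ℕ) (u z0 r : ℝ), 0 < r ∧ ∀ z, |z - z0| < r → ∃ a ∈ K, ∀ l : ℕ,
      0 < ν.real (dy (m + l) ⌊(z - u * a) * 2 ^ (m + l)⌋) := by
  classical
  set q := (2 : ℝ) ^ (-η) with hq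
  have hq0 : 0 < q := q_pos η
  have hq1 : q < 1 := q_lt hη
  set c1 := (1 - q) / 2 with hc1
  have hc1p : 0 < c1 := by rw [hc1]; linarith
  set β := s + c + γ - 1 - 4 * η with hβd
  set D := 4 * (16 : ℝ) ^ (s + c) / c1 ^ 4 with hD
  have hDp : 0 < D := by positivity
  set b := (2 : ℝ) ^ (-β) with hb
  have hb0 : 0 < b := q_pos β
  have hb1 : b < 1 := q_lt hβ
  -- a level beyond which the main estimate applies
  obtain ⟨l0, hl0⟩ : ∃ l0 : ℕ, R1 * 16 ≤ 2 ^ l0 := by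
    obtain ⟨l0, h⟩ := pow_unbounded_of_one_lt (R1 * 16) one_lt_two
    exact ⟨l0, h.le⟩
  -- choice of m
  have hgm : Filter.Tendsto (fun m : ℕ => (2 : ℝ) ^ (-(γ * m))) Filter.atTop (nhds 0) := by
    have h1 := tendsto_pow_atTop_nhds_zero_of_lt_one (q_pos γ).le (q_lt hγ)
    refine h1.congr (fun m => ?_)
    rw [← Real.rpow_natCast ((2:ℝ) ^ (-γ)) m, ← Real.rpow_mul two_pos.le]
    congr 1
    ring
  have hem : Filter.Tendsto (fun m : ℕ => (2 : ℝ) ^ (-(η * m))) Filter.atTop (nhds 0) := by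
    have h1 := tendsto_pow_atTop_nhds_zero_of_lt_one (q_pos η).le (q_lt hη)
    refine h1.congr (fun m => ?_)
    rw [← Real.rpow_natCast ((2:ℝ) ^ (-η)) m, ← Real.rpow_mul two_pos.le]
    congr 1
    ring
  have hm1 : ∀ᶠ m : ℕ in Filter.atTop,
      C' * (2 : ℝ) ^ (-(η * m)) * (1 - q)⁻¹ < 1 / (2 * (Lb : ℝ) + 1) := by
    have h1 : Filter.Tendsto (fun m : ℕ => C' * (2 : ℝ) ^ (-(η * m)) * (1 - q)⁻¹)
        Filter.atTop (nhds (C' * 0 * (1 - q)⁻¹)) := (hem.const_mul C').mul_const _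
    rw [mul_zero, zero_mul] at h1
    exact h1.eventually_lt_const (by positivity)
  have hm2 : ∀ᶠ m : ℕ in Filter.atTop,
      2 ^ l0 * (2 : ℝ) ^ (-(γ * m)) < (c1 * q ^ l0) ^ 2 := by
    have h1 := hgm.const_mul ((2:ℝ) ^ l0)
    rw [mul_zero] at h1
    exact h1.eventually_lt_const (by positivity)
  have hm3 : ∀ᶠ m : ℕ in Filter.atTop,
      D * (2 : ℝ) ^ (-(γ * m)) * (1 - b)⁻¹ < 1 := by
    have h1 : Filter.Tendsto (fun m : ℕ => D * (2 : ℝ) ^ (-(γ * m)) * (1 - b)⁻¹)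
        Filter.atTop (nhds (D * 0 * (1 - b)⁻¹)) := (hgm.const_mul D).mul_const _
    rw [mul_zero, zero_mul] at h1
    exact h1.eventually_lt_const zero_lt_one
  obtain ⟨m, h1, h2, h3⟩ := (hm1.and (hm2.and hm3)).exists
  obtain ⟨i0, hp, hE⟩ := pick ν Lb hsupp hη hej m h1
  have hθ : ∀ l, th η l = c1 * q ^ l := fun l => rfl
  have hcard := fun l => badI_card ν (γ := γ) hη hp l (hE l)
  -- the enlarged sets
  set Ip : ℕ → Finset ℤ := fun l =>
    badI ν m i0 η l ∪ (badI ν m i0 η l).image (fun n => n - 1) with hIp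
  have hIpcard : ∀ l, ((Ip l).card : ℝ) ≤ 2 * ((badI ν m i0 η l).card : ℝ) := by
    intro l
    have h4 : (Ip l).card ≤ (badI ν m i0 η l).card + (badI ν m i0 η l).card :=
      (Finset.card_union_le _ _).trans (add_le_add le_rfl Finset.card_image_le)
    have h5 : ((Ip l).card : ℝ) ≤ ((badI ν m i0 η l).card : ℝ) + ((badI ν m i0 η l).card : ℝ) := by
      exact_mod_cast h4
    linarith
  set T : ℕ → Set ℝ := fun l => {t : ℝ | t ∈ Icc (1 : ℝ) 2 ∧
      ∃ g : ℤ, ENNReal.ofReal (th η l) ≤ μ {a | ⌊(g : ℝ) - (2 ^ l / 8) * t * a⌋ ∈ Ip l}} with hT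
  have hTv : ∀ l, volume (T l) ≤ ENNReal.ofReal (D * (2 : ℝ) ^ (-(γ * m)) * b ^ l) := by
    intro l
    rcases lt_or_ge l l0 with hl | hl
    · -- empty bad set
      have hc0 : (badI ν m i0 η l).card = 0 := by
        by_contra hne
        have h5 : (1 : ℝ) ≤ ((badI ν m i0 η l).card : ℝ) := by
          exact_mod_cast Nat.one_le_iff_ne_zero.mpr hne
        have h6 := hcard l
        have h7 : (th η l) ^ 2 ≤ 2 ^ l * (2 : ℝ) ^ (-(γ * ((m + l : ℕ) : ℝ))) := by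
          have : (th η l) ^ 2 ≤ ((badI ν m i0 η l).card : ℝ) * (th η l) ^ 2 := by
            have := sq_nonneg (th η l)
            nlinarith
          linarith
        have h8 : (c1 * q ^ l0) ^ 2 ≤ (th η l) ^ 2 := by
          rw [hθ]
          have : q ^ l0 ≤ q ^ l := pow_le_pow_of_le_one hq0.le hq1.le hl.le
          gcongr
        have h9 : 2 ^ l * (2 : ℝ) ^ (-(γ * ((m + l : ℕ) : ℝ))) ≤ 2 ^ l0 * (2 : ℝ) ^ (-(γ * m)) := by
          have h10 : (2 : ℝ) ^ l ≤ 2 ^ l0 := pow_le_pow_right₀ one_le_two hl.le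
          have h11 : (2 : ℝ) ^ (-(γ * ((m + l : ℕ) : ℝ))) ≤ (2 : ℝ) ^ (-(γ * m)) := by
            apply Real.rpow_le_rpow_of_exponent_le one_le_two
            push_cast
            have : 0 ≤ γ * l := by positivity
            nlinarith
          gcongr
        linarith
      have hIe : Ip l = ∅ := by
        have : badI ν m i0 η l = ∅ := Finset.card_eq_zero.mp hc0
        rw [hIp]
        simp [this]
      have hTe : T l = ∅ := by
        ext t
        simp only [hT, mem_ofPred_eq, mem_empty_iff_false, iff_false, not_and, not_exists, not_le]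
        intro _ g
        rw [hIe]
        simp only [Finset.notMem_empty]
        have : (∅ : Set ℝ) = {a : ℝ | False} := by ext; simp
        rw [← this, measure_empty]
        exact ENNReal.ofReal_pos.mpr (th_pos hη l)
      rw [hTe]
      simp
    · -- main estimate
      have hL : (0:ℝ) < 2 ^ l / 8 := by positivity
      have hRl : R1 ≤ 2 ^ l / 8 / 2 := by
        have : (2:ℝ) ^ l0 ≤ 2 ^ l := pow_le_pow_right₀ one_le_two hl
        linarith
      have h5 := bad_core μ hL (B := (2 ^ l / 8 / 2 : ℝ) ^ (-s - c)) (by positivity)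
        (fun w hw => hstar _ hRl w hw) (Ip l) (th_pos hη l)
      refine h5.trans (ENNReal.ofReal_le_ofReal ?_)
      have hθp := th_pos hη l
      have h6 : ((Ip l).card : ℝ) ≤ 2 * (2 ^ l * (2 : ℝ) ^ (-(γ * ((m + l : ℕ) : ℝ)))
          / (th η l) ^ 2) := by
        refine (hIpcard l).trans ?_
        have h7 : ((badI ν m i0 η l).card : ℝ) ≤
            2 ^ l * (2 : ℝ) ^ (-(γ * ((m + l : ℕ) : ℝ))) / (th η l) ^ 2 := by
          rw [le_div_iff₀ (by positivity)]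
          exact hcard l
        linarith
      calc 2 * ((Ip l).card : ℝ) / th η l ^ 2 * (2 ^ l / 8 / 2 : ℝ) ^ (-s - c)
          ≤ 2 * (2 * (2 ^ l * (2 : ℝ) ^ (-(γ * ((m + l : ℕ) : ℝ)))
          / (th η l) ^ 2)) / th η l ^ 2 * (2 ^ l / 8 / 2 : ℝ) ^ (-s - c) := by gcongr
        _ = D * (2 : ℝ) ^ (-(γ * m)) * b ^ l := by
          have e1 : (2 ^ l / 8 / 2 : ℝ) ^ (-s - c) = (2:ℝ) ^ (-((s + c) * l)) * 16 ^ (s + c) := by
            have : (2 ^ l / 8 / 2 : ℝ) = 2 ^ l / 16 := by ring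
            rw [this, Real.div_rpow (by positivity) (by norm_num), ← Real.rpow_natCast,
              ← Real.rpow_mul two_pos.le, show (-s - c) = -(s + c) by ring,
              Real.rpow_neg (by norm_num : (0:ℝ) ≤ 16), div_inv_eq_mul]
            congr 2
            ring
          have e2 : (th η l) ^ 2 * (th η l) ^ 2 = c1 ^ 4 * (2:ℝ) ^ (-(4 * η * l)) := by
            have e0 : (q ^ l) ^ 4 = (2:ℝ) ^ (-(4 * η * l)) := by
              rw [hq, ← pow_mul, ← Real.rpow_natCast ((2:ℝ) ^ (-η)), ← Real.rpow_mul two_pos.le]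
              congr 1
              push_cast
              ring
            rw [hθ, ← e0]
            ring
          have e3 : (2:ℝ) ^ l = (2:ℝ) ^ (l:ℝ) := (Real.rpow_natCast 2 l).symm
          have e4 : (2:ℝ) ^ (l:ℝ) * (2 : ℝ) ^ (-(γ * ((m + l : ℕ) : ℝ))) *
              (2:ℝ) ^ (-((s + c) * l)) = (2 : ℝ) ^ (-(γ * m)) * b ^ l * (2:ℝ) ^ (-(4 * η * l)) := by
            rw [hb, ← Real.rpow_natCast ((2:ℝ) ^ (-β)) l, ← Real.rpow_mul two_pos.le,
              ← Real.rpow_add two_pos, ← Real.rpow_add two_pos, ← Real.rpow_add two_pos,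
              ← Real.rpow_add two_pos]
            congr 1
            rw [hβd]
            push_cast
            ring
          have hne : (th η l) ≠ 0 := hθp.ne'
          rw [e1]
          have e5 : 2 * (2 * (2 ^ l * (2 : ℝ) ^ (-(γ * ((m + l : ℕ) : ℝ)))
            / (th η l) ^ 2)) / th η l ^ 2 * ((2:ℝ) ^ (-((s + c) * l)) * 16 ^ (s + c))
            = 4 * 16 ^ (s + c) * ((2:ℝ) ^ l * (2 : ℝ) ^ (-(γ * ((m + l : ℕ) : ℝ))) *
              (2:ℝ) ^ (-((s + c) * l))) / ((th η l) ^ 2 * (th η l) ^ 2) := by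
            field_simp
            ring
          rw [e5, e2, e3, e4, hD]
          have hx : (0:ℝ) < (2:ℝ) ^ (-(4 * η * l)) := by positivity
          field_simp
  -- union bound
  have hU : volume (⋃ l, T l) < 1 := by
    calc volume (⋃ l, T l) ≤ ∑' l, volume (T l) := measure_iUnion_le _
      _ ≤ ∑' l : ℕ, ENNReal.ofReal (D * (2 : ℝ) ^ (-(γ * m)) * b ^ l) := ENNReal.tsum_le_tsum hTv
      _ = ENNReal.ofReal (∑' l : ℕ, D * (2 : ℝ) ^ (-(γ * m)) * b ^ l) := by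
          rw [ENNReal.ofReal_tsum_of_nonneg]
          · intro l; positivity
          · exact (summable_geometric_of_lt_one hb0.le hb1).mul_left _
      _ = ENNReal.ofReal (D * (2 : ℝ) ^ (-(γ * m)) * (1 - b)⁻¹) := by
          rw [tsum_mul_left, tsum_geometric_of_lt_one hb0.le hb1]
      _ < 1 := by
          rw [← ENNReal.ofReal_one]
          exact (ENNReal.ofReal_lt_ofReal_iff zero_lt_one).mpr h3
  obtain ⟨t, ht, htT⟩ : ∃ t ∈ Icc (1 : ℝ) 2, t ∉ ⋃ l, T l := by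
    by_contra hcon
    push Not at hcon
    have h5 : volume (Icc (1 : ℝ) 2) ≤ volume (⋃ l, T l) := measure_mono hcon
    rw [Real.volume_Icc] at h5
    norm_num at h5
    exact absurd hU (not_lt.mpr h5)
  have htT' : ∀ l, ∀ g : ℤ, μ {a | ⌊(g : ℝ) - (2 ^ l / 8) * t * a⌋ ∈ Ip l}
      < ENNReal.ofReal (th η l) := by
    intro l g
    by_contra hc
    push Not at hc
    exact htT (mem_iUnion.mpr ⟨l, ht, g, hc⟩)
  -- conclusion
  have hpm : (0:ℝ) < 2⁻¹ ^ m := by positivity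
  refine ⟨m, 2⁻¹ ^ m / 8 * t, (i0 + 1 / 2) * 2⁻¹ ^ m, 2⁻¹ ^ m / 4, by positivity, ?_⟩
  intro z hz
  set u := (2⁻¹ : ℝ) ^ m / 8 * t with hu
  have hbadl : ∀ l, μ {a | ⌊(z - u * a) * 2 ^ (m + l)⌋ ∈ badI ν m i0 η l}
      ≤ ENNReal.ofReal (th η l) := by
    intro l
    refine le_trans (measure_mono ?_) (htT' l ⌊z * 2 ^ (m + l)⌋).le
    intro a ha
    have ha' : ⌊(z - u * a) * 2 ^ (m + l)⌋ ∈ badI ν m i0 η l := ha
    show ⌊((⌊z * 2 ^ (m + l)⌋ : ℤ) : ℝ) - (2 ^ l / 8) * t * a⌋ ∈ Ip l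
    set n := ⌊(z - u * a) * 2 ^ (m + l)⌋ with hn
    have g1 := Int.floor_le ((z - u * a) * 2 ^ (m + l))
    have g2 := Int.lt_floor_add_one ((z - u * a) * 2 ^ (m + l))
    rw [← hn] at g1 g2
    have e1 : (z - u * a) * 2 ^ (m + l) = z * 2 ^ (m + l) - (2 ^ l / 8) * t * a := by
      have : (2⁻¹ : ℝ) ^ m * 2 ^ (m + l) = 2 ^ l := by
        rw [pow_add, ← mul_assoc, ← mul_pow]
        norm_num
      rw [hu]
      linear_combination (-(1 / 8) * t * a) * this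
    rw [e1] at g1 g2
    have g3 := Int.floor_le (z * 2 ^ (m + l))
    have g4 := Int.lt_floor_add_one (z * 2 ^ (m + l))
    set g := ⌊z * 2 ^ (m + l)⌋
    have hcase : ⌊(g : ℝ) - (2 ^ l / 8) * t * a⌋ = n ∨
        ⌊(g : ℝ) - (2 ^ l / 8) * t * a⌋ = n - 1 := by
      rcases lt_or_ge ((g : ℝ) - (2 ^ l / 8) * t * a) n with h | h
      · right
        rw [Int.floor_eq_iff]
        push_cast
        constructor <;> linarith
      · left
        rw [Int.floor_eq_iff]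
        constructor <;> linarith
    rw [hIp]
    simp only [Finset.mem_union, Finset.mem_image]
    rcases hcase with h | h
    · left; rw [h]; exact ha'
    · right; exact ⟨n, ha', h.symm⟩
  have hUn : μ (⋃ l, {a | ⌊(z - u * a) * 2 ^ (m + l)⌋ ∈ badI ν m i0 η l}) ≤ ENNReal.ofReal (1 / 2) := by
    calc _ ≤ ∑' l, μ {a | ⌊(z - u * a) * 2 ^ (m + l)⌋ ∈ badI ν m i0 η l} := measure_iUnion_le _
      _ ≤ ∑' l, ENNReal.ofReal (th η l) := ENNReal.tsum_le_tsum hbadl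
      _ = ENNReal.ofReal (∑' l, th η l) := by
          rw [ENNReal.ofReal_tsum_of_nonneg (fun l => (th_pos hη l).le) (th_hasSum hη).summable]
      _ = _ := by rw [(th_hasSum hη).tsum_eq]
  obtain ⟨a, haK, haU⟩ : ∃ a ∈ K, a ∉ ⋃ l, {a | ⌊(z - u * a) * 2 ^ (m + l)⌋ ∈ badI ν m i0 η l} := by
    by_contra hcon
    push Not at hcon
    have h5 : (univ : Set ℝ) ⊆ (⋃ l, {a | ⌊(z - u * a) * 2 ^ (m + l)⌋ ∈ badI ν m i0 η l}) ∪ Kᶜ := by
      intro a _
      by_cases ha : a ∈ K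
      · left; exact hcon a ha
      · right; exact ha
    have h6 := (measure_mono h5).trans (measure_union_le (μ := μ) _ _)
    rw [measure_univ, hK, add_zero] at h6
    have h7 := h6.trans hUn
    have h8 : ENNReal.ofReal (1 / 2) < 1 := by
      rw [← ENNReal.ofReal_one]
      exact (ENNReal.ofReal_lt_ofReal_iff zero_lt_one).mpr (by norm_num)
    exact absurd h7 (not_le.mpr h8)
  refine ⟨a, haK, ?_⟩
  have hx : z - u * a ∈ dy m i0 := by
    have ha := hK1 haK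
    have h5 : |u * a| ≤ 2⁻¹ ^ m / 4 := by
      rw [hu, abs_mul, abs_of_pos (by have := ht.1; positivity)]
      have h6 : |a| ≤ 1 := abs_le.mpr ha
      have h7 : t ≤ 2 := ht.2
      have h8 : 0 ≤ |a| := abs_nonneg a
      calc (2⁻¹ : ℝ) ^ m / 8 * t * |a| ≤ (2⁻¹ : ℝ) ^ m / 8 * 2 * 1 := by
            gcongr
        _ = 2⁻¹ ^ m / 4 := by ring
    rw [abs_lt] at hz
    rw [abs_le] at h5
    unfold dy
    rw [mem_Ico]
    constructor
    · linarith [hz.1, h5.2]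
    · linarith [hz.2, h5.1]
  intro l
  have h5 := walk ν (η := η) hx (fun l => by
    intro h
    exact haU (mem_iUnion.mpr ⟨l, h⟩)) l
  have h6 := th_partial hη l
  have h7 : 0 < fd ν m i0 := by unfold fd; positivity
  have h8 : 0 < fd ν (m + l) ⌊(z - u * a) * 2 ^ (m + l)⌋ := by
    refine lt_of_lt_of_le ?_ h5
    have : 0 < 1 - ∑ i ∈ Finset.range l, th η i := by linarith
    positivity
  unfold fd at h8
  have h9 : (0:ℝ) < 2 ^ (m + l) := by positivity
  exact (mul_pos_iff_of_pos_left h9).mp h8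

end Pool.Agent.NH64.DS.Mn
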