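import Mathlib
import Pool.Agent.NH64.DS.Defs
import Pool.Agent.H744R2.Falc.FrostR
import Pool.Agent.H217R3.Beer.Ana

/-!
# Frostman's lemma for Borel subsets of the line

The increasing sets lemma for net contents and the capacitability argument.
-/

set_option autoImplicit false

open MeasureTheory Set Filter Topology
open scoped ENNReal NNReal

namespace Pool.Agent.NH64.DS

namespace Net

variable {X ι : Type*}

/-- a laminar family with finite ascending chains -/
structure Lam (Q : ι → Set X) (l : ι → ℕ) : Prop where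
  nest : ∀ p q x, x ∈ Q p → x ∈ Q q → Q p ⊆ Q q ∨ Q q ⊆ Q p
  lev : ∀ p q, Q p ⊆ Q q → p = q ∨ l q < l p

/-- the union of the members of a subfamily -/
def Cov (Q : ι → Set X) (S : Set ι) : Set X := {x | ∃ p ∈ S, x ∈ Q p}

/-- the total weight of a subfamily -/
noncomputable def cost (w : ι → ℝ≥0∞) (S : Set ι) : ℝ≥0∞ := ∑' p, S.indicator w p

/-- the net content -/
noncomputable def M (Q : ι → Set X) (w : ι → ℝ≥0∞) (E : Set X) : ℝ≥0∞ :=
  ⨅ (S : Set ι) (_ : E ⊆ Cov Q S), cost w S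

/-- the maximal members of a subfamily -/
def maxi (Q : ι → Set X) (S : Set ι) : Set ι := {p | p ∈ S ∧ ∀ q ∈ S, Q p ⊆ Q q → q = p}

lemma M_le (Q : ι → Set X) (w : ι → ℝ≥0∞) (E : Set X) (S : Set ι) (h : E ⊆ Cov Q S) :
    M Q w E ≤ cost w S := iInf₂_le S h

lemma M_mono (Q : ι → Set X) (w : ι → ℝ≥0∞) {E F : Set X} (h : E ⊆ F) : M Q w E ≤ M Q w F :=
  le_iInf₂ fun S hS => M_le Q w E S (h.trans hS)

lemma exists_maxi {Q : ι → Set X} {l : ι → ℕ} (h : Lam Q l) (S : Set ι) :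
    ∀ p ∈ S, ∃ q ∈ maxi Q S, Q p ⊆ Q q := by
  suffices H : ∀ n : ℕ, ∀ p ∈ S, l p = n → ∃ q ∈ maxi Q S, Q p ⊆ Q q from
    fun p hp => H (l p) p hp rfl
  intro n
  induction n using Nat.strong_induction_on with
  | _ n ih =>
    intro p hp hn
    by_cases hm : ∀ q ∈ S, Q p ⊆ Q q → q = p
    · exact ⟨p, ⟨hp, hm⟩, subset_rfl⟩
    · push Not at hm
      obtain ⟨q, hq, hpq, hne⟩ := hm
      rcases h.lev p q hpq with h1 | h1
      · exact absurd h1.symm hne
      · obtain ⟨r, hr, hqr⟩ := ih (l q) (by omega) q hq rfl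
        exact ⟨r, hr, hpq.trans hqr⟩

lemma key {Q : ι → Set X} {l : ι → ℕ} (h : Lam Q l) (w : ι → ℝ≥0∞) (E : Set X) (V U : Set ι)
    (hV : E ⊆ Cov Q V) (hU : E ⊆ Cov Q U) :
    cost w (maxi Q (V ∪ U)) + M Q w E ≤ cost w V + cost w U := by
  classical
  set Z : Set ι := ((V ∪ U) \ maxi Q (V ∪ U)) ∪ (V ∩ U) with hZ
  have hcov : E ⊆ Cov Q Z := by
    intro x hx
    obtain ⟨p, hp, hxp⟩ := hV hx
    obtain ⟨q, hq, hxq⟩ := hU hx
    by_cases hpq : p = q
    · exact ⟨p, Or.inr ⟨hp, hpq ▸ hq⟩, hxp⟩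
    rcases h.nest p q x hxp hxq with h1 | h1
    · refine ⟨p, Or.inl ⟨Or.inl hp, fun hm => hpq ?_⟩, hxp⟩
      exact (hm.2 q (Or.inr hq) h1).symm
    · refine ⟨q, Or.inl ⟨Or.inr hq, fun hm => hpq ?_⟩, hxq⟩
      exact hm.2 p (Or.inl hp) h1
  refine (add_le_add le_rfl (M_le Q w E Z hcov)).trans ?_
  rw [cost, cost, cost, cost, ← ENNReal.tsum_add, ← ENNReal.tsum_add]
  apply ENNReal.tsum_le_tsum
  intro p
  have hsub : p ∈ maxi Q (V ∪ U) → p ∈ V ∪ U := fun hp => hp.1
  by_cases hW : p ∈ maxi Q (V ∪ U) <;> by_cases hpV : p ∈ V <;> by_cases hpU : p ∈ U <;>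
    simp [hZ, hW, hpV, hpU, Set.indicator]
  all_goals simp_all

lemma cost_union_le (w : ι → ℝ≥0∞) (S T : Set ι) : cost w (S ∪ T) ≤ cost w S + cost w T := by
  classical
  rw [cost, cost, cost, ← ENNReal.tsum_add]
  apply ENNReal.tsum_le_tsum
  intro p
  by_cases hS : p ∈ S <;> by_cases hT : p ∈ T <;> simp [hS, hT, Set.indicator]

lemma cost_finset (w : ι → ℝ≥0∞) (F : Finset ι) : cost w (F : Set ι) = ∑ p ∈ F, w p := by
  classical
  rw [cost, ← tsum_subtype, Finset.tsum_subtype']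

/-- increasing sets lemma -/
theorem M_iUnion {Q : ι → Set X} {l : ι → ℕ} (h : Lam Q l) (w : ι → ℝ≥0∞) (E : ℕ → Set X)
    (hE : Monotone E) : M Q w (⋃ n, E n) ≤ ⨆ n, M Q w (E n) := by
  classical
  apply ENNReal.le_of_forall_pos_le_add
  intro ε hε hc
  have hε' : (ε : ℝ≥0∞) ≠ 0 := by exact_mod_cast hε.ne'
  obtain ⟨e, he, hes⟩ := ENNReal.exists_pos_sum_of_countable' hε' ℕ
  have hfin : ∀ n, M Q w (E n) ≠ ∞ := fun n =>
    ((le_iSup (fun n => M Q w (E n)) n).trans_lt hc).ne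
  have hU : ∀ n, ∃ S : Set ι, E n ⊆ Cov Q S ∧ cost w S ≤ M Q w (E n) + e n := by
    intro n
    have h1 : M Q w (E n) < M Q w (E n) + e n := ENNReal.lt_add_right (hfin n) (he n).ne'
    conv at h1 =>
      lhs
      rw [M]
    rw [iInf_lt_iff] at h1
    obtain ⟨S, hS⟩ := h1
    rw [iInf_lt_iff] at hS
    obtain ⟨hS1, hS2⟩ := hS
    exact ⟨S, hS1, hS2.le⟩
  choose U hU1 hU2 using hU
  let V : ℕ → Set ι := fun n => Nat.rec (U 0) (fun m S => maxi Q (S ∪ U (m + 1))) n
  have hV0 : V 0 = U 0 := rfl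
  have hVs : ∀ n, V (n + 1) = maxi Q (V n ∪ U (n + 1)) := fun n => rfl
  have hstep : ∀ n, ∀ p ∈ V n, ∃ q ∈ V (n + 1), Q p ⊆ Q q := by
    intro n p hp
    rw [hVs]
    exact exists_maxi h _ p (Or.inl hp)
  have hVcov : ∀ n, E n ⊆ Cov Q (V n) := by
    intro n
    cases n with
    | zero => exact hU1 0
    | succ n =>
      intro x hx
      obtain ⟨p, hp, hxp⟩ := hU1 (n + 1) hx
      obtain ⟨q, hq, hpq⟩ := exists_maxi h (V n ∪ U (n + 1)) p (Or.inr hp)
      exact ⟨q, by rw [hVs]; exact hq, hpq hxp⟩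
  have hVcost : ∀ n, cost w (V n) ≤ M Q w (E n) + ∑ i ∈ Finset.range (n + 1), e i := by
    intro n
    induction n with
    | zero => simpa [hV0] using hU2 0
    | succ n ih =>
      have h1 := key h w (E n) (V n) (U (n + 1)) (hVcov n)
        ((hE (Nat.le_succ n)).trans (hU1 (n + 1)))
      rw [← hVs] at h1
      have h2 : cost w (V (n + 1)) + M Q w (E n) ≤
          (M Q w (E (n + 1)) + ∑ i ∈ Finset.range (n + 1 + 1), e i) + M Q w (E n) := by
        refine h1.trans ((add_le_add ih (hU2 (n + 1))).trans ?_)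
        rw [Finset.sum_range_succ _ (n + 1)]
        apply le_of_eq
        ring
      exact (ENNReal.add_le_add_iff_right (hfin n)).1 h2
  set W : Set ι := {p | ∃ N, ∀ n ≥ N, p ∈ V n} with hW
  have hWcov : (⋃ n, E n) ⊆ Cov Q W := by
    intro x hx
    obtain ⟨m, hm⟩ := mem_iUnion.1 hx
    obtain ⟨p0, hp0, hxp0⟩ := hVcov m hm
    choose! g hg1 hg2 using hstep
    let P : ℕ → ι := fun k => Nat.rec p0 (fun i p => g (m + i) p) k
    have hP0 : P 0 = p0 := rfl
    have hPs : ∀ k, P (k + 1) = g (m + k) (P k) := fun k => rfl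
    have hPV : ∀ k, P k ∈ V (m + k) := by
      intro k
      induction k with
      | zero => exact hp0
      | succ k ih =>
        rw [hPs]
        exact hg1 (m + k) (P k) ih
    have hPx : ∀ k, x ∈ Q (P k) := by
      intro k
      induction k with
      | zero => exact hxp0
      | succ k ih =>
        rw [hPs]
        exact hg2 (m + k) (P k) (hPV k) ih
    obtain ⟨k0, hk0⟩ : ∃ k0, ∀ k, l (P k0) ≤ l (P k) := by
      obtain ⟨k0, hk0⟩ := (wellFounded_lt (α := ℕ)).has_min (range fun k => l (P k)) ⟨_, 0, rfl⟩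
      obtain ⟨⟨k1, hk1⟩, hmin⟩ := hk0
      refine ⟨k1, fun k => ?_⟩
      have := hmin (l (P k)) ⟨k, rfl⟩
      simp only at hk1
      omega
    have hconst : ∀ k, P (k0 + k) = P k0 := by
      intro k
      induction k with
      | zero => rfl
      | succ k ih =>
        have h1 : Q (P (k0 + k)) ⊆ Q (P (k0 + k + 1)) := by
          rw [hPs (k0 + k)]
          exact hg2 _ _ (hPV _)
        rcases h.lev _ _ h1 with h2 | h2
        · rw [← add_assoc, ← h2, ih]
        · exfalso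
          rw [ih] at h2
          have := hk0 (k0 + k + 1)
          omega
    refine ⟨P k0, ⟨m + k0, fun n hn => ?_⟩, hPx k0⟩
    obtain ⟨k, rfl⟩ := Nat.exists_eq_add_of_le hn
    rw [← hconst k, add_assoc]
    exact hPV (k0 + k)
  have hWcost : cost w W ≤ (⨆ n, M Q w (E n)) + ε := by
    rw [cost, ENNReal.tsum_eq_iSup_sum]
    apply iSup_le
    intro F
    have hWN : ∀ p : ι, ∃ N : ℕ, p ∈ W → ∀ n ≥ N, p ∈ V n := by
      intro p
      rcases Classical.em (p ∈ W) with hp | hp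
      · obtain ⟨N, hN⟩ := hp
        exact ⟨N, fun _ => hN⟩
      · exact ⟨0, fun h => absurd h hp⟩
    choose N hN using hWN
    set n := F.sup N with hn
    have h1 : ∑ p ∈ F, W.indicator w p ≤ ∑ p ∈ F, (V n).indicator w p := by
      apply Finset.sum_le_sum
      intro p hp
      rcases Classical.em (p ∈ W) with hpW | hpW
      · have h2 : p ∈ V n := hN p hpW n (Finset.le_sup hp)
        rw [indicator_of_mem hpW, indicator_of_mem h2]
      · rw [indicator_of_notMem hpW]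
        exact zero_le
    refine h1.trans ((ENNReal.sum_le_tsum F).trans ((hVcost n).trans ?_))
    apply add_le_add (le_iSup (fun n => M Q w (E n)) n)
    exact (ENNReal.sum_le_tsum _).trans hes.le
  exact (M_le Q w _ W hWcov).trans hWcost

/-! ### dyadic intervals of the line -/

/-- the dyadic intervals -/
def DQ (p : ℕ × ℤ) : Set ℝ := {x | ⌊(2 : ℝ) ^ p.1 * x⌋ = p.2}

lemma dq_lam : Lam DQ (fun p => p.1) where
  nest := by
    intro p q x hp hq
    have H : ∀ p q : ℕ × ℤ, x ∈ DQ p → x ∈ DQ q → p.1 ≤ q.1 → DQ q ⊆ DQ p := by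
      intro p q hp hq hpq y hy
      have h1 := Pool.Agent.H744R2.Falc.FrostG.nest_le (fun j (x : ℝ) => ⌊(2 : ℝ) ^ j * x⌋)
        (fun j x y h => Pool.Agent.H744R2.Falc.floor_nest j x y h) hpq (x := y) (y := x)
        (by
          simp only [DQ, mem_ofPred_eq] at hq hy
          simp only [hq, hy])
      simp only [DQ, mem_ofPred_eq] at hp ⊢
      rw [← hp]
      exact h1
    rcases le_total p.1 q.1 with h1 | h1
    · exact Or.inr (H p q hp hq h1)
    · exact Or.inl (H q p hq hp h1)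
  lev := by
    intro p q hpq
    by_cases hlt : q.1 < p.1
    · exact Or.inr hlt
    left
    push Not at hlt
    have h2 : (0 : ℝ) < 2 ^ p.1 := by positivity
    have hx : (p.2 : ℝ) / 2 ^ p.1 ∈ DQ p := by
      simp only [DQ, mem_ofPred_eq]
      rw [mul_div_cancel₀ _ h2.ne', Int.floor_intCast]
    have hy : ((p.2 : ℝ) + 1 / 2) / 2 ^ p.1 ∈ DQ p := by
      simp only [DQ, mem_ofPred_eq]
      rw [mul_div_cancel₀ _ h2.ne', Int.floor_eq_iff]
      constructor <;> linarith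
    have hx' := hpq hx
    have hy' := hpq hy
    rcases hlt.eq_or_lt with h1 | h1
    · have h3 : p.2 = q.2 := by
        simp only [DQ, mem_ofPred_eq] at hx hx'
        rw [← hx, ← hx', h1]
      exact Prod.ext h1 h3
    · exfalso
      simp only [DQ, mem_ofPred_eq] at hx' hy'
      have h3 := Int.abs_sub_lt_one_of_floor_eq_floor (hy'.trans hx'.symm)
      obtain ⟨d, hd⟩ := Nat.exists_eq_add_of_lt h1
      have h4 : (2 : ℝ) ^ q.1 * (((p.2 : ℝ) + 1 / 2) / 2 ^ p.1) -
          (2 : ℝ) ^ q.1 * ((p.2 : ℝ) / 2 ^ p.1) = 2 ^ d := by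
        rw [hd, pow_add, pow_add, pow_one]
        field_simp
        ring
      rw [h4, abs_of_pos (by positivity)] at h3
      have h5 : (1 : ℝ) ≤ 2 ^ d := one_le_pow₀ (by norm_num)
      linarith

/-- the weights `2 ^ (-j s)` -/
noncomputable def dw (s : ℝ) (p : ℕ × ℤ) : ℝ≥0∞ := ENNReal.ofReal (((2 : ℝ)⁻¹ ^ p.1) ^ s)

lemma dq_ediam (p : ℕ × ℤ) : Metric.ediam (DQ p) ≤ ENNReal.ofReal ((2 : ℝ)⁻¹ ^ p.1) := by
  apply Metric.ediam_le
  intro x hx y hy
  rw [edist_dist, Real.dist_eq]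
  apply ENNReal.ofReal_le_ofReal
  apply Pool.Agent.H744R2.Falc.floor_diam
  simp only [DQ, mem_ofPred_eq] at hx hy
  rw [hx, hy]

lemma M_pos (A : Set ℝ) (s : ℝ) (hs : 0 < s) (h : ENNReal.ofReal s < dimH A) :
    0 < M DQ (dw s) A := by
  classical
  rw [pos_iff_ne_zero]
  intro h0
  have hS : ∀ n : ℕ, ∃ S : Set (ℕ × ℤ), A ⊆ Cov DQ S ∧
      cost (dw s) S < ENNReal.ofReal (((2 : ℝ)⁻¹ ^ n) ^ s) := by
    intro n
    have h1 : M DQ (dw s) A < ENNReal.ofReal (((2 : ℝ)⁻¹ ^ n) ^ s) := by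
      rw [h0, ENNReal.ofReal_pos]
      positivity
    rw [M, iInf_lt_iff] at h1
    obtain ⟨S, hS⟩ := h1
    rw [iInf_lt_iff] at hS
    obtain ⟨hS1, hS2⟩ := hS
    exact ⟨S, hS1, hS2⟩
  choose S hS1 hS2 using hS
  have hlev : ∀ n, ∀ p ∈ S n, n ≤ p.1 := by
    intro n p hp
    by_contra hcon
    push Not at hcon
    have h1 : dw s p ≤ cost (dw s) (S n) := by
      have := ENNReal.le_tsum (f := (S n).indicator (dw s)) p
      rwa [indicator_of_mem hp] at this
    have h2 : ENNReal.ofReal (((2 : ℝ)⁻¹ ^ n) ^ s) ≤ dw s p := by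
      apply ENNReal.ofReal_le_ofReal
      apply Real.rpow_le_rpow (by positivity) _ hs.le
      exact pow_le_pow_of_le_one (by norm_num) (by norm_num) hcon.le
    exact absurd (h1.trans_lt (hS2 n)) (not_lt.2 h2)
  have hpow : Tendsto (fun n : ℕ => ENNReal.ofReal ((2 : ℝ)⁻¹ ^ n)) atTop (𝓝 0) := by
    rw [← ENNReal.ofReal_zero]
    apply (ENNReal.continuous_ofReal.tendsto 0).comp
    exact tendsto_pow_atTop_nhds_zero_of_lt_one (by norm_num) (by norm_num)
  have hpow2 : Tendsto (fun n : ℕ => ENNReal.ofReal (((2 : ℝ)⁻¹ ^ n) ^ s)) atTop (𝓝 0) := by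
    rw [← ENNReal.ofReal_zero]
    apply (ENNReal.continuous_ofReal.tendsto 0).comp
    have h1 : Tendsto (fun n : ℕ => ((2 : ℝ)⁻¹ ^ n)) atTop (𝓝 0) :=
      tendsto_pow_atTop_nhds_zero_of_lt_one (by norm_num) (by norm_num)
    have h2 := h1.rpow_const (p := s) (Or.inr hs.le)
    rwa [Real.zero_rpow hs.ne'] at h2
  have hH : Measure.hausdorffMeasure s A = 0 := by
    refine le_antisymm ?_ zero_le
    have h1 := Measure.hausdorffMeasure_le_liminf_tsum (X := ℝ) s A
      (l := atTop) (fun n : ℕ => ENNReal.ofReal ((2 : ℝ)⁻¹ ^ n)) hpow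
      (fun (n : ℕ) (p : ℕ × ℤ) => if p ∈ S n then DQ p else ∅)
      (Eventually.of_forall fun n p => by
        by_cases hp : p ∈ S n
        · simp only [hp, if_true]
          refine (dq_ediam p).trans (ENNReal.ofReal_le_ofReal ?_)
          exact pow_le_pow_of_le_one (by norm_num) (by norm_num) (hlev n p hp)
        · simp only [hp, if_false, Metric.ediam_empty]
          exact zero_le)
      (Eventually.of_forall fun n x hx => by
        obtain ⟨p, hp, hxp⟩ := hS1 n hx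
        rw [mem_iUnion]
        exact ⟨p, by simp only [hp, if_true]; exact hxp⟩)
    refine h1.trans ?_
    have h2 : ∀ n : ℕ, (∑' p : ℕ × ℤ, Metric.ediam (if p ∈ S n then DQ p else ∅) ^ s) ≤
        ENNReal.ofReal (((2 : ℝ)⁻¹ ^ n) ^ s) := by
      intro n
      refine le_trans ?_ (hS2 n).le
      rw [cost]
      apply ENNReal.tsum_le_tsum
      intro p
      by_cases hp : p ∈ S n
      · simp only [hp, if_true, indicator_of_mem]
        refine (ENNReal.rpow_le_rpow (dq_ediam p) hs.le).trans ?_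
        rw [ENNReal.ofReal_rpow_of_pos (by positivity), dw]
      · simp only [hp, if_false, Metric.ediam_empty]
        rw [ENNReal.zero_rpow_of_pos hs]
        exact zero_le
    calc liminf (fun n : ℕ => ∑' p : ℕ × ℤ, Metric.ediam (if p ∈ S n then DQ p else ∅) ^ s) atTop
        ≤ liminf (fun n : ℕ => ENNReal.ofReal (((2 : ℝ)⁻¹ ^ n) ^ s)) atTop :=
          liminf_le_liminf (Eventually.of_forall h2)
      _ = 0 := hpow2.liminf_eq
  have hd : dimH A ≤ (s.toNNReal : ℝ≥0∞) := by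
    apply dimH_le_of_hausdorffMeasure_ne_top
    rw [Real.coe_toNNReal _ hs.le, hH]
    exact ENNReal.zero_ne_top
  exact absurd h (not_lt.2 hd)

end Net

open Net Pool.Agent.H217R3.Beer

theorem exists_boundM {Q : ℕ × ℤ → Set ℝ} {l : ℕ × ℤ → ℕ} (hL : Lam Q l) (w : ℕ × ℤ → ℝ≥0∞)
    (f : (ℕ → ℕ) → ℝ) (c : ℝ≥0∞) (hc : c < M Q w (range f)) :
    ∃ k : ℕ → ℕ, ∀ n, c < M Q w (f '' En k n) := by
  have step : ∀ (n : ℕ) (k : ℕ → ℕ), c < M Q w (f '' En k n) →
      ∃ j : ℕ, c < M Q w (f '' En (Function.update k n j) (n + 1)) := by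
    intro n k h
    have hU : f '' En k n = ⋃ j : ℕ, f '' (En k n ∩ {x | x n ≤ j}) := by
      rw [← image_iUnion]
      congr 1
      ext x
      simp only [mem_iUnion, mem_inter_iff, mem_ofPred_eq, exists_and_left]
      exact ⟨fun hx => ⟨hx, ⟨x n, le_rfl⟩⟩, fun hx => hx.1⟩
    have hmono : Monotone fun j : ℕ => f '' (En k n ∩ {x | x n ≤ j}) := by
      intro a b hab
      apply image_mono
      exact inter_subset_inter_right _ fun x (hx : x n ≤ a) => le_trans hx hab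
    rw [hU] at h
    obtain ⟨j, hj⟩ := lt_iSup_iff.1 (h.trans_le (M_iUnion hL w _ hmono))
    refine ⟨j, lt_of_lt_of_le hj (M_mono Q w (image_mono ?_))⟩
    rintro x ⟨hx1, hx2⟩ i hi
    rcases Nat.lt_succ_iff_lt_or_eq.1 hi with h' | h'
    · rw [Function.update_of_ne h'.ne]
      exact hx1 i h'
    · subst h'
      rw [Function.update_self]
      exact hx2
  have hinit : c < M Q w (f '' En (fun _ => 0) 0) := by
    have : En (fun _ => 0) 0 = univ := by
      ext x; simp [En]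
    rw [this, image_univ]
    exact hc
  choose! J hJ using step
  let K : ℕ → (ℕ → ℕ) := fun n => Nat.rec (fun _ => 0) (fun m k => Function.update k m (J m k)) n
  have hKs : ∀ n, K (n + 1) = Function.update (K n) n (J n (K n)) := fun n => rfl
  have hKc : ∀ n, c < M Q w (f '' En (K n) n) := by
    intro n
    induction n with
    | zero => exact hinit
    | succ n ih => rw [hKs]; exact hJ n (K n) ih
  have hst : ∀ n m, n < m → K m n = K (n + 1) n := by
    intro n m hnm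
    induction m with
    | zero => omega
    | succ m ih =>
      rcases Nat.lt_succ_iff_lt_or_eq.1 hnm with h' | h'
      · rw [hKs m, Function.update_of_ne h'.ne, ih h']
      · subst h'; rfl
  refine ⟨fun n => K (n + 1) n, fun n => ?_⟩
  have : En (fun n => K (n + 1) n) n = En (K n) n := by
    ext x
    simp only [En, mem_ofPred_eq]
    constructor
    · intro h i hi
      rw [hst i n hi]; exact h i hi
    · intro h i hi
      rw [← hst i n hi]; exact h i hi
  rw [this]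
  exact hKc n

/-- a neighbourhood of the compact image contains one of the approximations -/
lemma exists_approx (f : (ℕ → ℕ) → ℝ) (hf : Continuous f) (k : ℕ → ℕ) (U : Set ℝ) (hU : IsOpen U)
    (h : f '' {x | ∀ i, x i ≤ k i} ⊆ U) : ∃ n, f '' En k n ⊆ U := by
  have hcomp : IsCompact {x : ℕ → ℕ | ∀ i, x i ≤ k i} := by
    have : {x : ℕ → ℕ | ∀ i, x i ≤ k i} = Set.pi univ fun i => Set.Iic (k i) := by
      ext x; simp [Pi.le_def]
    rw [this]
    exact isCompact_univ_pi fun i => (Set.finite_Iic (k i)).isCompact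
  by_contra hcon
  push Not at hcon
  have hex : ∀ n, ∃ x, x ∈ En k n ∧ f x ∉ U := by
    intro n
    obtain ⟨z, ⟨x, hx, hxz⟩, hzU⟩ := not_subset.1 (hcon n)
    exact ⟨x, hx, hxz ▸ hzU⟩
  choose x hx1 hx2 using hex
  let x' : ℕ → (ℕ → ℕ) := fun n i => if i < n then x n i else 0
  have hx' : ∀ n, x' n ∈ {x : ℕ → ℕ | ∀ i, x i ≤ k i} := by
    intro n i
    simp only [x']
    split_ifs with h
    · exact hx1 n i h
    · exact Nat.zero_le _
  obtain ⟨z, hz, φ, hφ, hlim⟩ := hcomp.tendsto_subseq hx'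
  have hlim2 : Tendsto (fun n => x (φ n)) atTop (𝓝 z) := by
    rw [tendsto_pi_nhds] at hlim ⊢
    intro i
    refine (hlim i).congr' ?_
    filter_upwards [eventually_gt_atTop i] with n hn
    have : i < φ n := lt_of_lt_of_le hn (hφ.id_le n)
    simp [x', this]
  have hfz : f z ∈ U := h ⟨z, hz, rfl⟩
  have := (hf.tendsto z).comp hlim2
  have hev := this.eventually (hU.mem_nhds hfz)
  obtain ⟨n, hn⟩ := hev.exists
  exact hx2 (φ n) hn

/-- Frostman's lemma for Borel subsets of the line -/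
theorem frostman_borel (A : Set ℝ) (hA : MeasurableSet A) (s : ℝ) (hs : 0 < s)
    (h : ENNReal.ofReal s < dimH A) :
    ∃ K ⊆ A, IsCompact K ∧ ∃ μ : Measure ℝ, IsProbabilityMeasure μ ∧ μ Kᶜ = 0 ∧
      ∃ C : ℝ, 0 < C ∧ Fros μ s C := by
  classical
  have hAn : AnalyticSet A := hA.analyticSet
  rw [AnalyticSet] at hAn
  rcases hAn with rfl | ⟨f, hf, rfl⟩
  · rw [dimH_empty] at h
    exact absurd h (not_lt.2 zero_le)
  have hpos := M_pos (range f) s hs h
  obtain ⟨c, hc0, hc1⟩ := ENNReal.lt_iff_exists_nnreal_btwn.1 hpos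
  obtain ⟨k, hk⟩ := exists_boundM dq_lam (dw s) f c hc1
  have hcomp : IsCompact {x : ℕ → ℕ | ∀ i, x i ≤ k i} := by
    have : {x : ℕ → ℕ | ∀ i, x i ≤ k i} = Set.pi univ fun i => Set.Iic (k i) := by
      ext x; simp [Pi.le_def]
    rw [this]
    exact isCompact_univ_pi fun i => (Set.finite_Iic (k i)).isCompact
  set K : Set ℝ := f '' {x | ∀ i, x i ≤ k i} with hK
  have hKc : IsCompact K := hcomp.image hf
  have hKn : K.Nonempty := ⟨f (fun _ => 0), ⟨fun _ => 0, fun i => Nat.zero_le _, rfl⟩⟩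
  refine ⟨K, image_subset_range _ _, hKc, ?_⟩
  rcases Pool.Agent.H744R2.Falc.frostman_generic (fun j (x : ℝ) => ⌊(2 : ℝ) ^ j * x⌋) 3 s hs
    (fun j x y h => Pool.Agent.H744R2.Falc.floor_nest j x y h)
    (fun j x y h => by
      rw [Real.dist_eq]
      have h1 := Pool.Agent.H744R2.Falc.floor_diam j x y h
      have h2 : (0 : ℝ) < (2 : ℝ)⁻¹ ^ j := by positivity
      push_cast
      linarith)
    (fun j x => ⟨Finset.Icc (⌊(2 : ℝ) ^ j * x⌋ - 1) (⌊(2 : ℝ) ^ j * x⌋ + 1), by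
      rw [Int.card_Icc]
      omega, fun y hy => by
        rw [Metric.mem_closedBall, Real.dist_eq] at hy
        exact Pool.Agent.H744R2.Falc.floor_ball j x y hy⟩) K hKc hKn
    (fun j => Pool.Agent.H744R2.Falc.floor_fin K hKc.isBounded j) with h1 | h1
  · exact h1
  exfalso
  have hc0' : (0 : ℝ) < c := by exact_mod_cast hc0
  obtain ⟨F, hF, hcov⟩ := h1 (c / 4) (by positivity)
  -- the enlarged cover
  let ep : ℕ × ℤ ↪ ℕ × ℤ := ⟨fun p => (p.1, p.2 + 1), by
    rintro ⟨a, b⟩ ⟨c, d⟩ h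
    simp only [Prod.mk.injEq, add_left_inj] at h
    exact Prod.ext h.1 h.2⟩
  let em : ℕ × ℤ ↪ ℕ × ℤ := ⟨fun p => (p.1, p.2 - 1), by
    rintro ⟨a, b⟩ ⟨c, d⟩ h
    simp only [Prod.mk.injEq, sub_left_inj] at h
    exact Prod.ext h.1 h.2⟩
  set S : Set (ℕ × ℤ) := (F : Set (ℕ × ℤ)) ∪ ((F.map ep : Finset (ℕ × ℤ)) : Set (ℕ × ℤ)) ∪
    ((F.map em : Finset (ℕ × ℤ)) : Set (ℕ × ℤ)) with hS
  have hcF : cost (dw s) (F : Set (ℕ × ℤ)) ≤ ENNReal.ofReal (c / 4) := by
    rw [cost_finset]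
    simp only [dw]
    rw [← ENNReal.ofReal_sum_of_nonneg (fun _ _ => by positivity)]
    exact ENNReal.ofReal_le_ofReal hF
  have hcp : cost (dw s) ((F.map ep : Finset (ℕ × ℤ)) : Set (ℕ × ℤ)) ≤ ENNReal.ofReal (c / 4) := by
    rw [cost_finset, Finset.sum_map]
    rw [cost_finset] at hcF
    exact hcF
  have hcm : cost (dw s) ((F.map em : Finset (ℕ × ℤ)) : Set (ℕ × ℤ)) ≤ ENNReal.ofReal (c / 4) := by
    rw [cost_finset, Finset.sum_map]
    rw [cost_finset] at hcF
    exact hcF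
  have hcS : cost (dw s) S < c := by
    have h2 : cost (dw s) S ≤ ENNReal.ofReal (c / 4) + ENNReal.ofReal (c / 4) +
        ENNReal.ofReal (c / 4) := by
      refine (cost_union_le _ _ _).trans (add_le_add ?_ hcm)
      exact (cost_union_le _ _ _).trans (add_le_add hcF hcp)
    refine h2.trans_lt ?_
    rw [← ENNReal.ofReal_add (by positivity) (by positivity),
      ← ENNReal.ofReal_add (by positivity) (by positivity)]
    rw [show ((c : ℝ≥0) : ℝ≥0∞) = ENNReal.ofReal (c : ℝ) by rw [ENNReal.ofReal_coe_nnreal]]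
    rw [ENNReal.ofReal_lt_ofReal_iff hc0']
    linarith
  set U : Set ℝ := ⋃ p ∈ F, {x : ℝ | (p.2 : ℝ) - 1 < (2 : ℝ) ^ p.1 * x ∧
    (2 : ℝ) ^ p.1 * x < (p.2 : ℝ) + 2} with hU
  have hUo : IsOpen U := by
    apply isOpen_biUnion
    intro p _
    apply IsOpen.inter
    · exact isOpen_lt continuous_const (continuous_const.mul continuous_id)
    · exact isOpen_lt (continuous_const.mul continuous_id) continuous_const
  have hKU : K ⊆ U := by
    intro x hx
    obtain ⟨j, hj⟩ := hcov x hx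
    rw [hU, mem_iUnion₂]
    refine ⟨_, hj, ?_⟩
    have h3 := Int.floor_le ((2 : ℝ) ^ j * x)
    have h4 := Int.lt_floor_add_one ((2 : ℝ) ^ j * x)
    simp only [mem_ofPred_eq]
    constructor <;> linarith
  obtain ⟨n, hn⟩ := exists_approx f hf k U hUo hKU
  have hUS : U ⊆ Cov DQ S := by
    intro x hx
    rw [hU, mem_iUnion₂] at hx
    obtain ⟨p, hp, hx1, hx2⟩ := hx
    have h3 : p.2 - 1 ≤ ⌊(2 : ℝ) ^ p.1 * x⌋ := by
      rw [Int.le_floor]
      push_cast
      exact hx1.le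
    have h4 : ⌊(2 : ℝ) ^ p.1 * x⌋ < p.2 + 2 := by
      rw [Int.floor_lt]
      push_cast
      exact hx2
    have h5 : ⌊(2 : ℝ) ^ p.1 * x⌋ = p.2 - 1 ∨ ⌊(2 : ℝ) ^ p.1 * x⌋ = p.2 ∨
        ⌊(2 : ℝ) ^ p.1 * x⌋ = p.2 + 1 := by omega
    rcases h5 with h5 | h5 | h5
    · refine ⟨(p.1, p.2 - 1), Or.inr ?_, h5⟩
      rw [Finset.mem_coe, Finset.mem_map]
      exact ⟨p, hp, rfl⟩
    · exact ⟨p, Or.inl (Or.inl hp), h5⟩
    · refine ⟨(p.1, p.2 + 1), Or.inl (Or.inr ?_), h5⟩
      rw [Finset.mem_coe, Finset.mem_map]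
      exact ⟨p, hp, rfl⟩
  have h6 := (hk n).trans_le (M_le DQ (dw s) _ S (hn.trans hUS))
  exact absurd h6 (not_lt.2 hcS.le)

end Pool.Agent.NH64.DS
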