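import Mathlib
import Pool.Agent.NH64.DS.Defs

set_option autoImplicit false

open MeasureTheory Set

namespace Pool.Agent.NH64.DS

/-- the Haar function -/
noncomputable def psi (x : ℝ) : ℝ :=
  (Ico (0 : ℝ) (1 / 2)).indicator (fun _ => 1) x - (Ico (1 / 2 : ℝ) 1).indicator (fun _ => 1) x

theorem psi_meas : Measurable psi :=
  (measurable_const.indicator measurableSet_Ico).sub (measurable_const.indicator measurableSet_Ico)

theorem psi_abs (x : ℝ) : |psi x| ≤ 1 := by
  unfold psi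
  by_cases h1 : x ∈ Ico (0 : ℝ) (1 / 2) <;> by_cases h2 : x ∈ Ico (1 / 2 : ℝ) 1
  · simp only [indicator_of_mem h1, indicator_of_mem h2]; norm_num
  · simp only [indicator_of_mem h1, indicator_of_notMem h2]; norm_num
  · simp only [indicator_of_notMem h1, indicator_of_mem h2]; norm_num
  · simp only [indicator_of_notMem h1, indicator_of_notMem h2]; norm_num

theorem psi_out {x : ℝ} (hx : x ∉ Ico (0 : ℝ) 1) : psi x = 0 := by
  unfold psi
  have h1 : x ∉ Ico (0 : ℝ) (1 / 2) := fun h => hx ⟨h.1, by linarith [h.2]⟩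
  have h2 : x ∉ Ico (1 / 2 : ℝ) 1 := fun h => hx ⟨by linarith [h.1], h.2⟩
  simp only [indicator_of_notMem h1, indicator_of_notMem h2, sub_zero]

theorem psi_integrable : Integrable psi := by
  unfold psi
  refine Integrable.sub ?_ ?_
  · exact (integrable_indicator_iff measurableSet_Ico).2 (integrableOn_const (by simp))
  · exact (integrable_indicator_iff measurableSet_Ico).2 (integrableOn_const (by simp))

theorem psi_integral : ∫ x, psi x = 0 := by
  unfold psi
  rw [integral_sub]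
  · rw [integral_indicator measurableSet_Ico, integral_indicator measurableSet_Ico]
    simp
    norm_num
  · exact (integrable_indicator_iff measurableSet_Ico).2 (integrableOn_const (by simp))
  · exact (integrable_indicator_iff measurableSet_Ico).2 (integrableOn_const (by simp))

/-- the kernel `∑ i, psi (a - i) psi (b - i)` -/
noncomputable def kap (a b : ℝ) : ℝ :=
  if ⌊a⌋ = ⌊b⌋ then psi (Int.fract a) * psi (Int.fract b) else 0

theorem kap_abs (a b : ℝ) : |kap a b| ≤ 1 := by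
  unfold kap
  split_ifs
  · rw [abs_mul]
    exact mul_le_one₀ (psi_abs _) (abs_nonneg _) (psi_abs _)
  · simp

theorem kap_meas : Measurable (fun p : ℝ × ℝ => kap p.1 p.2) := by
  unfold kap
  refine Measurable.ite ?_ ?_ measurable_const
  · exact measurableSet_eq_fun (Int.measurable_floor.comp measurable_fst)
      (Int.measurable_floor.comp measurable_snd)
  · exact (psi_meas.comp (measurable_fract.comp measurable_fst)).mul
      (psi_meas.comp (measurable_fract.comp measurable_snd))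

theorem kap_sum (a b : ℝ) (S : Finset ℤ) (hS : ⌊a⌋ ∈ S) :
    ∑ i ∈ S, psi (a - i) * psi (b - i) = kap a b := by
  rw [Finset.sum_eq_single ⌊a⌋]
  · unfold kap
    split_ifs with h
    · rw [Int.self_sub_floor, h, Int.self_sub_floor]
    · have : psi (b - ⌊a⌋) = 0 := by
        apply psi_out
        intro hb
        apply h
        symm
        rw [Int.floor_eq_iff]
        exact ⟨by linarith [hb.1], by linarith [hb.2]⟩
      rw [this, mul_zero]
  · intro i _ hi
    have : psi (a - i) = 0 := by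
      apply psi_out
      intro hb
      apply hi
      symm
      rw [Int.floor_eq_iff]
      exact ⟨by linarith [hb.1], by linarith [hb.2]⟩
    rw [this, zero_mul]
  · intro h; exact absurd hS h

theorem kap_periodic (a b : ℝ) : Function.Periodic (fun v : ℝ => kap (a + v) (b + v)) 1 := by
  intro v
  simp only [kap]
  rw [← add_assoc, ← add_assoc, Int.floor_add_one, Int.floor_add_one, Int.fract_add_one,
    Int.fract_add_one]
  simp only [add_left_inj]

/-- the autocorrelation of the Haar function -/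
noncomputable def hh (u : ℝ) : ℝ := ∫ v, psi (u + v) * psi v

theorem hh_eq (u : ℝ) : ∫ v in (0 : ℝ)..1, kap (u + v) v = hh u := by
  unfold hh
  rw [intervalIntegral.integral_of_le zero_le_one, ← integral_Ico_eq_integral_Ioc]
  rw [← integral_indicator measurableSet_Ico]
  congr 1
  ext v
  by_cases hv : v ∈ Ico (0 : ℝ) 1
  · rw [indicator_of_mem hv]
    have h0 : ⌊v⌋ = 0 := Int.floor_eq_zero_iff.2 hv
    have h1 : Int.fract v = v := Int.fract_eq_self.2 hv
    unfold kap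
    rw [h0, h1]
    split_ifs with h
    · have h2 : Int.fract (u + v) = u + v := by
        rw [Int.fract, h]; simp
      rw [h2]
    · have : psi (u + v) = 0 := by
        apply psi_out
        intro hb
        exact h (Int.floor_eq_zero_iff.2 hb)
      rw [this, zero_mul]
  · rw [indicator_of_notMem hv, psi_out hv, mul_zero]

/-- averaging over the shift -/
theorem kap_avg (a b : ℝ) (N : ℕ) (hN : 0 < N) :
    ∫ θ in (0 : ℝ)..1, kap (a + N * θ) (b + N * θ) = hh (a - b) := by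
  have hN' : (N : ℝ) ≠ 0 := by exact_mod_cast hN.ne'
  have h1 : ∫ θ in (0 : ℝ)..1, kap (a + N * θ) (b + N * θ) =
      (N : ℝ)⁻¹ • ∫ v in (0 : ℝ)..N, kap (a + v) (b + v) := by
    have := intervalIntegral.integral_comp_mul_left (a := 0) (b := 1)
      (fun v : ℝ => kap (a + v) (b + v)) hN'
    rw [mul_zero, mul_one] at this
    exact this
  have hper := kap_periodic a b
  have h2 : ∫ v in (0 : ℝ)..N, kap (a + v) (b + v) =
      N • ∫ v in (0 : ℝ)..1, kap (a + v) (b + v) := by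
    have := hper.intervalIntegral_add_zsmul_eq (n := (N : ℤ)) 0 ?_
    · simpa using this
    · intro t₁ t₂
      rw [intervalIntegrable_iff]
      refine Measure.integrableOn_of_bounded (M := 1) (by simp [uIoc]) ?_ ?_
      · exact (kap_meas.comp (Measurable.prodMk (by fun_prop : Measurable fun v : ℝ => a + v)
          (by fun_prop : Measurable fun v : ℝ => b + v))).aestronglyMeasurable
      · exact Filter.Eventually.of_forall fun v => by
          rw [Real.norm_eq_abs]; exact kap_abs _ _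
  have h3 : ∫ v in (0 : ℝ)..1, kap (a + v) (b + v) =
      ∫ v in (-b : ℝ)..(-b + 1), kap (a + v) (b + v) := by
    have := hper.intervalIntegral_add_eq 0 (-b)
    rw [zero_add] at this
    exact this
  have h4 : ∫ v in (-b : ℝ)..(-b + 1), kap (a + v) (b + v) =
      ∫ w in (0 : ℝ)..1, kap (a - b + w) w := by
    have := intervalIntegral.integral_comp_add_right (a := (-b : ℝ)) (b := (-b + 1 : ℝ))
      (fun w : ℝ => kap (a - b + w) w) b
    rw [neg_add_cancel, show -b + 1 + b = 1 by ring] at this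
    rw [← this]
    congr 1
    ext v
    congr 1 <;> ring
  rw [h1, h2, h3, h4, hh_eq]
  simp [hN']

theorem hh_abs (u : ℝ) : |hh u| ≤ 1 := by
  rw [← hh_eq]
  have := intervalIntegral.norm_integral_le_of_norm_le_const (a := (0 : ℝ)) (b := 1) (C := 1)
    (f := fun v => kap (u + v) v) (fun v _ => by rw [Real.norm_eq_abs]; exact kap_abs _ _)
  simpa using this

theorem hh_out {u : ℝ} (hu : 1 ≤ |u|) : hh u = 0 := by
  unfold hh
  rw [← integral_zero ℝ ℝ (μ := volume)]
  congr 1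
  ext v
  by_cases hv : v ∈ Ico (0 : ℝ) 1
  · have : psi (u + v) = 0 := by
      apply psi_out
      intro h
      rcases le_abs.1 hu with h1 | h1
      · linarith [h.2, hv.1]
      · linarith [h.1, hv.2]
    rw [this, zero_mul]
  · rw [psi_out hv, mul_zero]

theorem psipsi_integrable : Integrable (fun p : ℝ × ℝ => psi (p.1 + p.2) * psi p.2)
    (volume.prod volume) := by
  have h := (psi_integrable.mul_prod psi_integrable : Integrable
    (fun z : ℝ × ℝ => psi z.1 * psi z.2) (volume.prod volume))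
  exact (measurePreserving_add_prod (volume : Measure ℝ) (volume : Measure ℝ)).integrable_comp_of_integrable h

theorem hh_integrable : Integrable hh := psipsi_integrable.integral_prod_left

theorem hh_integral : ∫ u, hh u = 0 := by
  unfold hh
  rw [integral_integral_swap psipsi_integrable]
  rw [← integral_zero ℝ ℝ (μ := volume)]
  congr 1
  ext v
  rw [integral_mul_const, integral_add_right_eq_self psi v, psi_integral, zero_mul]

/-- the tent -/
noncomputable def tent (t : ℝ) : ℝ := 4 * max 0 (1 / 2 - |t - 3 / 2|)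

theorem tent_nonneg (t : ℝ) : 0 ≤ tent t := by unfold tent; positivity

theorem tent_out {t : ℝ} (ht : t ∉ Icc (1 : ℝ) 2) : tent t = 0 := by
  unfold tent
  rw [max_eq_left, mul_zero]
  rw [mem_Icc, not_and_or, not_le, not_le] at ht
  rcases ht with h | h
  · rw [abs_of_neg (by linarith)]; linarith
  · rw [abs_of_pos (by linarith)]; linarith

theorem tent_lip (t t' : ℝ) : |tent t - tent t'| ≤ 4 * |t - t'| := by
  unfold tent
  rw [← mul_sub, abs_mul, abs_of_pos (by norm_num : (0 : ℝ) < 4)]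
  refine mul_le_mul_of_nonneg_left ?_ (by norm_num)
  have h1 := abs_max_sub_max_le_abs (1 / 2 - |t - 3 / 2|) (1 / 2 - |t' - 3 / 2|) 0
  rw [max_comm _ (0 : ℝ), max_comm _ (0 : ℝ)] at h1
  refine h1.trans ?_
  have h2 := abs_abs_sub_abs_le (t' - 3 / 2) (t - 3 / 2)
  rw [show 1 / 2 - |t - 3 / 2| - (1 / 2 - |t' - 3 / 2|) = |t' - 3 / 2| - |t - 3 / 2| by ring]
  refine h2.trans ?_
  rw [show t' - 3 / 2 - (t - 3 / 2) = -(t - t') by ring, abs_neg]

theorem tent_cont : Continuous tent := by unfold tent; fun_prop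

theorem tent_integral : ∫ t, tent t = 1 := by
  have h : tent = (Icc (1 : ℝ) 2).indicator tent := by
    ext t
    by_cases ht : t ∈ Icc (1 : ℝ) 2
    · rw [indicator_of_mem ht]
    · rw [indicator_of_notMem ht, tent_out ht]
  rw [h, integral_indicator measurableSet_Icc, integral_Icc_eq_integral_Ioc,
    ← intervalIntegral.integral_of_le (by norm_num)]
  rw [← intervalIntegral.integral_add_adjacent_intervals (b := 3 / 2)
    (tent_cont.intervalIntegrable _ _) (tent_cont.intervalIntegrable _ _)]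
  have h1 : ∫ t in (1 : ℝ)..3 / 2, tent t = ∫ t in (1 : ℝ)..3 / 2, (4 * t - 4) := by
    apply intervalIntegral.integral_congr
    intro t ht
    rw [uIcc_of_le (by norm_num)] at ht
    unfold tent
    simp only
    rw [abs_of_nonpos (by linarith [ht.2]), max_eq_right (by linarith [ht.1])]
    ring
  have h2 : ∫ t in (3 / 2 : ℝ)..2, tent t = ∫ t in (3 / 2 : ℝ)..2, (8 - 4 * t) := by
    apply intervalIntegral.integral_congr
    intro t ht
    rw [uIcc_of_le (by norm_num)] at ht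
    unfold tent
    simp only
    rw [abs_of_nonneg (by linarith [ht.1]), max_eq_right (by linarith [ht.2])]
    ring
  rw [h1, h2]
  have c1 : ∀ a b : ℝ, IntervalIntegrable (fun t : ℝ => 4 * t) volume a b := fun a b =>
    (by fun_prop : Continuous fun t : ℝ => 4 * t).intervalIntegrable a b
  rw [intervalIntegral.integral_sub (c1 _ _) intervalIntegrable_const,
    intervalIntegral.integral_sub intervalIntegrable_const (c1 _ _),
    intervalIntegral.integral_const_mul, intervalIntegral.integral_const_mul,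
    integral_id, integral_id, intervalIntegral.integral_const, intervalIntegral.integral_const]
  norm_num

theorem tent_integrable : Integrable tent := by
  by_contra h
  have := integral_undef h
  rw [tent_integral] at this
  norm_num at this

/-- one averaging with the tent density -/
theorem hh_tent (A B : ℝ) (hA : A ≠ 0) : |∫ t, tent t * hh (B + A * t)| ≤ 8 / A ^ 2 := by
  have hA' : 0 < |A| := abs_pos.2 hA
  have h0 : ∫ t, hh (B + A * t) = 0 := by
    have h1 := Measure.integral_comp_mul_left (fun x => hh (B + x)) A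
    rw [h1, integral_add_left_eq_self hh B, hh_integral, smul_zero]
  have hint : Integrable (fun t => hh (B + A * t)) :=
    (hh_integrable.comp_add_left B).comp_mul_left' hA
  have hm : Integrable (fun t => tent t * hh (B + A * t)) := by
    refine tent_integrable.mul_bdd (c := 1) hint.aestronglyMeasurable ?_
    exact Filter.Eventually.of_forall fun t => by rw [Real.norm_eq_abs]; exact hh_abs _
  have h2 : ∫ t, tent t * hh (B + A * t) =
      ∫ t, (tent t - tent (-B / A)) * hh (B + A * t) := by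
    have : ∀ t, (tent t - tent (-B / A)) * hh (B + A * t) =
      tent t * hh (B + A * t) - tent (-B / A) * hh (B + A * t) := fun t => by ring
    simp_rw [this]
    rw [integral_sub hm (hint.const_mul _), integral_const_mul, h0, mul_zero, sub_zero]
  rw [h2]
  have h3 : ∀ t, ‖(tent t - tent (-B / A)) * hh (B + A * t)‖ ≤
      (Metric.closedBall (-B / A) (1 / |A|)).indicator (fun _ => 4 / |A|) t := by
    intro t
    by_cases ht : t ∈ Metric.closedBall (-B / A) (1 / |A|)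
    · rw [indicator_of_mem ht, norm_mul, Real.norm_eq_abs, Real.norm_eq_abs]
      have h4 := tent_lip t (-B / A)
      rw [Metric.mem_closedBall, Real.dist_eq] at ht
      calc |tent t - tent (-B / A)| * |hh (B + A * t)| ≤ (4 * (1 / |A|)) * 1 := by
            refine mul_le_mul ?_ (hh_abs _) (abs_nonneg _) (by positivity)
            exact h4.trans (by linarith)
        _ = 4 / |A| := by ring
    · rw [indicator_of_notMem ht]
      rw [Metric.mem_closedBall, Real.dist_eq, not_le] at ht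
      have : hh (B + A * t) = 0 := by
        apply hh_out
        have : B + A * t = A * (t - -B / A) := by field_simp; ring
        rw [this, abs_mul]
        rw [div_lt_iff₀ hA'] at ht
        linarith
      rw [this, mul_zero, norm_zero]
  have h5 := norm_integral_le_of_norm_le (μ := volume) (f := fun t =>
    (tent t - tent (-B / A)) * hh (B + A * t)) ?_ (Filter.Eventually.of_forall h3)
  · rw [Real.norm_eq_abs] at h5
    refine h5.trans ?_
    rw [integral_indicator Metric.isClosed_closedBall.measurableSet]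
    rw [setIntegral_const, Real.volume_real_closedBall (by positivity)]
    rw [smul_eq_mul]
    apply le_of_eq
    have : A ^ 2 = |A| ^ 2 := (sq_abs A).symm
    rw [this]
    field_simp
    norm_num
  · refine (integrable_indicator_iff Metric.isClosed_closedBall.measurableSet).2 ?_
    exact integrableOn_const (by rw [Real.volume_closedBall]; exact ENNReal.ofReal_ne_top)

/-- the law with the tent density -/
noncomputable def tau : Measure ℝ := volume.withDensity (fun t => ENNReal.ofReal (tent t))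

instance : IsProbabilityMeasure tau := ⟨by
  rw [tau, withDensity_apply _ MeasurableSet.univ, Measure.restrict_univ,
    ← ofReal_integral_eq_lintegral_ofReal tent_integrable (Filter.Eventually.of_forall tent_nonneg),
    tent_integral, ENNReal.ofReal_one]⟩

theorem tau_out : tau (Icc (1 : ℝ) 2)ᶜ = 0 := by
  rw [tau, withDensity_apply _ measurableSet_Icc.compl]
  rw [setLIntegral_congr_fun measurableSet_Icc.compl
    (g := fun _ => 0) (fun t ht => by simp only [tent_out ht, ENNReal.ofReal_zero])]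
  simp

theorem tau_integral (f : ℝ → ℝ) : ∫ t, f t ∂tau = ∫ t, tent t * f t := by
  rw [tau, integral_withDensity_eq_integral_toReal_smul (tent_cont.measurable.ennreal_ofReal)
    (Filter.Eventually.of_forall fun _ => ENNReal.ofReal_lt_top)]
  congr 1
  ext t
  rw [ENNReal.toReal_ofReal (tent_nonneg t), smul_eq_mul]

theorem hh_sm : StronglyMeasurable hh := by
  unfold hh
  have h : StronglyMeasurable (fun p : ℝ × ℝ => psi (p.1 + p.2) * psi p.2) :=
    ((psi_meas.comp (measurable_fst.add measurable_snd)).mul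
      (psi_meas.comp measurable_snd)).stronglyMeasurable
  exact h.integral_prod_right

theorem hh_meas : Measurable hh := hh_sm.measurable

/-- averaging over all the dilation factors -/
noncomputable def GG {k : ℕ} (N d0 : ℝ) (d : Fin k → ℝ) : ℝ :=
  ∫ t : Fin k → ℝ, hh (N * (d0 + ∑ i, t i * d i)) ∂(Measure.pi fun _ : Fin k => tau)

theorem GG_abs {k : ℕ} (N d0 : ℝ) (d : Fin k → ℝ) : |GG N d0 d| ≤ 1 := by
  unfold GG
  have := norm_integral_le_of_norm_le_const (μ := Measure.pi fun _ : Fin k => tau) (C := 1)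
    (f := fun t : Fin k → ℝ => hh (N * (d0 + ∑ i, t i * d i)))
    (Filter.Eventually.of_forall fun t => by rw [Real.norm_eq_abs]; exact hh_abs _)
  simpa using this

theorem GG_bound {k : ℕ} (N d0 : ℝ) (d : Fin k → ℝ) (i : Fin k) (hN : N ≠ 0) (hd : d i ≠ 0) :
    |GG N d0 d| ≤ 8 / (N * d i) ^ 2 := by
  obtain ⟨n, rfl⟩ : ∃ n, k = n + 1 := ⟨k - 1, by have := i.pos; omega⟩
  unfold GG
  have hmp := measurePreserving_piFinSuccAbove (fun _ : Fin (n + 1) => tau) i
  have h1 := hmp.symm.integral_comp' (fun t : Fin (n + 1) → ℝ => hh (N * (d0 + ∑ i, t i * d i)))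
  rw [← h1]
  have h2 : Integrable (fun p : ℝ × (Fin n → ℝ) =>
      hh (N * (d0 + ∑ j, (MeasurableEquiv.piFinSuccAbove (fun _ : Fin (n + 1) => ℝ) i).symm p j * d j)))
      (tau.prod (Measure.pi fun _ : Fin n => tau)) := by
    refine Integrable.of_bound (C := 1) ?_ ?_
    · refine (hh_meas.comp ?_).aestronglyMeasurable
      refine measurable_const.mul (measurable_const.add ?_)
      refine Finset.measurable_sum _ fun j _ => ?_
      exact ((measurable_pi_apply j).comp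
        (MeasurableEquiv.piFinSuccAbove (fun _ : Fin (n + 1) => ℝ) i).symm.measurable).mul
          measurable_const
    · exact Filter.Eventually.of_forall fun p => by rw [Real.norm_eq_abs]; exact hh_abs _
  rw [integral_prod_symm _ h2]
  have h3 : ∀ y : Fin n → ℝ, ‖∫ x : ℝ, hh (N * (d0 + ∑ j,
      (MeasurableEquiv.piFinSuccAbove (fun _ : Fin (n + 1) => ℝ) i).symm (x, y) j * d j)) ∂tau‖ ≤
      8 / (N * d i) ^ 2 := by
    intro y
    rw [tau_integral, Real.norm_eq_abs]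
    have h4 := hh_tent (N * d i) (N * (d0 + ∑ j, y j * d (i.succAbove j))) (mul_ne_zero hN hd)
    convert h4 using 5 with x
    rw [Fin.sum_univ_succAbove _ i]
    simp only [MeasurableEquiv.piFinSuccAbove_symm_apply, Fin.insertNthEquiv_apply,
      Fin.insertNth_apply_same, Fin.insertNth_apply_succAbove]
    ring
  have h5 := norm_integral_le_of_norm_le_const (μ := Measure.pi fun _ : Fin n => tau)
    (Filter.Eventually.of_forall h3)
  simpa using h5

theorem GG_zero {k : ℕ} (N d0 r : ℝ) (d : Fin k → ℝ) (hN : 0 < N) (hd : ∀ i, |d i| ≤ r)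
    (h0 : 1 / N + 2 * k * r ≤ |d0|) : GG N d0 d = 0 := by
  unfold GG
  rw [← integral_zero (Fin k → ℝ) ℝ (μ := Measure.pi fun _ : Fin k => tau)]
  apply integral_congr_ae
  have h1 : ∀ i : Fin k, ∀ᵐ t : Fin k → ℝ ∂(Measure.pi fun _ : Fin k => tau),
      t i ∈ Icc (1 : ℝ) 2 := fun i =>
    (measurePreserving_eval (fun _ : Fin k => tau) i).quasiMeasurePreserving.ae
      (show ∀ᵐ x ∂tau, x ∈ Icc (1 : ℝ) 2 from by
        rw [ae_iff]; exact tau_out)
  have h2 := ae_all_iff.2 h1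
  filter_upwards [h2] with t ht
  apply hh_out
  have h3 : |∑ i, t i * d i| ≤ 2 * k * r := by
    calc |∑ i, t i * d i| ≤ ∑ i, |t i * d i| := Finset.abs_sum_le_sum_abs _ _
      _ ≤ ∑ _i : Fin k, 2 * r := by
          refine Finset.sum_le_sum fun i _ => ?_
          rw [abs_mul]
          have := ht i
          exact mul_le_mul (by rw [abs_of_nonneg (by linarith [this.1])]; exact this.2) (hd i)
            (abs_nonneg _) (by norm_num)
      _ = 2 * k * r := by simp; ring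
  rw [abs_mul, abs_of_pos hN]
  have h4 : |d0| - |∑ i, t i * d i| ≤ |d0 + ∑ i, t i * d i| := by
    have := abs_add_le (d0 + ∑ i, t i * d i) (-(∑ i, t i * d i))
    rw [abs_neg, add_neg_cancel_right] at this
    linarith
  have h5 : 1 / N ≤ |d0 + ∑ i, t i * d i| := by linarith
  rw [div_le_iff₀ hN] at h5
  linarith

/-- the law of the vector `(a_0, a)` -/
noncomputable def PP (μ : Measure ℝ) (k : ℕ) : Measure (ℝ × (Fin k → ℝ)) :=
  μ.prod (Measure.pi fun _ : Fin k => μ)

instance (μ : Measure ℝ) [IsProbabilityMeasure μ] (k : ℕ) : IsProbabilityMeasure (PP μ k) := by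
  unfold PP; infer_instance

/-- the sum -/
noncomputable def XX {k : ℕ} (t : Fin k → ℝ) (p : ℝ × (Fin k → ℝ)) : ℝ := p.1 + ∑ i, t i * p.2 i

theorem XX_meas {k : ℕ} (t : Fin k → ℝ) : Measurable (XX t) := by
  unfold XX
  refine measurable_fst.add (Finset.measurable_sum _ fun i _ => ?_)
  exact measurable_const.mul ((measurable_pi_apply i).comp measurable_snd)

theorem XX_meas2 {k : ℕ} : Measurable (fun q : (Fin k → ℝ) × (ℝ × (Fin k → ℝ)) => XX q.1 q.2) := by
  unfold XX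
  refine (measurable_fst.comp measurable_snd).add (Finset.measurable_sum _ fun i _ => ?_)
  exact ((measurable_pi_apply i).comp measurable_fst).mul
    ((measurable_pi_apply i).comp (measurable_snd.comp measurable_snd))

theorem XX_bound (μ : Measure ℝ) [IsProbabilityMeasure μ] (hsupp : μ (Icc (-1) 1)ᶜ = 0) (k : ℕ)
    (t : Fin k → ℝ) (ht : ∀ i, t i ∈ Icc (1 : ℝ) 2) :
    ∀ᵐ p ∂(PP μ k), |XX t p| ≤ 1 + 2 * k := by
  have h0 : ∀ᵐ x ∂μ, x ∈ Icc (-1 : ℝ) 1 := by rw [ae_iff]; exact hsupp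
  have h1 : ∀ᵐ p ∂(PP μ k), p.1 ∈ Icc (-1 : ℝ) 1 :=
    (measurePreserving_fst (μ := μ) (ν := Measure.pi fun _ : Fin k => μ)).quasiMeasurePreserving.ae h0
  have h2 : ∀ i : Fin k, ∀ᵐ p ∂(PP μ k), p.2 i ∈ Icc (-1 : ℝ) 1 := fun i =>
    ((measurePreserving_eval (fun _ : Fin k => μ) i).comp
      (measurePreserving_snd (μ := μ) (ν := Measure.pi fun _ : Fin k => μ))).quasiMeasurePreserving.ae h0
  filter_upwards [h1, ae_all_iff.2 h2] with p hp1 hp2
  unfold XX
  have h3 : |∑ i, t i * p.2 i| ≤ 2 * k := by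
    calc |∑ i, t i * p.2 i| ≤ ∑ i, |t i * p.2 i| := Finset.abs_sum_le_sum_abs _ _
      _ ≤ ∑ _i : Fin k, (2 : ℝ) := by
          refine Finset.sum_le_sum fun i _ => ?_
          rw [abs_mul]
          have := ht i
          have h4 := hp2 i
          calc |t i| * |p.2 i| ≤ 2 * 1 := mul_le_mul
                (by rw [abs_of_nonneg (by linarith [this.1])]; exact this.2)
                (abs_le.2 ⟨h4.1, h4.2⟩) (abs_nonneg _) (by norm_num)
            _ = 2 := by norm_num
      _ = 2 * k := by rw [Finset.sum_const, Finset.card_univ, Fintype.card_fin, nsmul_eq_mul]; ring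
  have h5 : |p.1| ≤ 1 := abs_le.2 ⟨hp1.1, hp1.2⟩
  exact (abs_add_le _ _).trans (add_le_add h5 h3)

/-- the energy as a double integral -/
noncomputable def EE (μ : Measure ℝ) {k : ℕ} (t : Fin k → ℝ) (θ : ℝ) (j : ℕ) : ℝ :=
  2 ^ j * ∫ q : (ℝ × (Fin k → ℝ)) × (ℝ × (Fin k → ℝ)),
    kap (2 ^ j * (XX t q.1 + θ)) (2 ^ j * (XX t q.2 + θ)) ∂((PP μ k).prod (PP μ k))

theorem psi_dy (j : ℕ) (i : ℤ) (x : ℝ) : psi (2 ^ j * x - i) =
    (dy (j + 1) (2 * i)).indicator (fun _ => (1 : ℝ)) x -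
      (dy (j + 1) (2 * i + 1)).indicator (fun _ => (1 : ℝ)) x := by
  have hp : (0 : ℝ) < 2 ^ j := by positivity
  have hinv : (2 : ℝ)⁻¹ ^ (j + 1) = 1 / (2 * 2 ^ j) := by
    rw [inv_pow, pow_succ, one_div, mul_comm]
  have h1 : x ∈ dy (j + 1) (2 * i) ↔ 2 ^ j * x - i ∈ Ico (0 : ℝ) (1 / 2) := by
    unfold dy
    rw [hinv, mem_Ico, mem_Ico]
    push_cast
    constructor
    · rintro ⟨h1, h2⟩
      rw [mul_one_div, div_le_iff₀ (by positivity)] at h1
      rw [mul_one_div, lt_div_iff₀ (by positivity)] at h2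
      constructor <;> linarith
    · rintro ⟨h1, h2⟩
      rw [mul_one_div, div_le_iff₀ (by positivity), mul_one_div, lt_div_iff₀ (by positivity)]
      constructor <;> linarith
  have h2 : x ∈ dy (j + 1) (2 * i + 1) ↔ 2 ^ j * x - i ∈ Ico (1 / 2 : ℝ) 1 := by
    unfold dy
    rw [hinv, mem_Ico, mem_Ico]
    push_cast
    constructor
    · rintro ⟨h1, h2⟩
      rw [mul_one_div, div_le_iff₀ (by positivity)] at h1
      rw [mul_one_div, lt_div_iff₀ (by positivity)] at h2
      constructor <;> linarith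
    · rintro ⟨h1, h2⟩
      rw [mul_one_div, div_le_iff₀ (by positivity), mul_one_div, lt_div_iff₀ (by positivity)]
      constructor <;> linarith
  unfold psi
  simp only [indicator, h1, h2]

theorem dy_meas (j : ℕ) (i : ℤ) : MeasurableSet (dy j i) := measurableSet_Ico

theorem diff_eq (μ : Measure ℝ) [IsProbabilityMeasure μ] {k : ℕ} (t : Fin k → ℝ) (θ : ℝ) (j : ℕ)
    (i : ℤ) : (sumLaw μ t θ).real (dy (j + 1) (2 * i)) - (sumLaw μ t θ).real (dy (j + 1) (2 * i + 1))
      = ∫ p, psi (2 ^ j * (XX t p + θ) - i) ∂(PP μ k) := by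
  have hm : Measurable (fun p : ℝ × (Fin k → ℝ) => p.1 + ∑ i, t i * p.2 i + θ) :=
    (XX_meas t).add_const θ
  have : IsProbabilityMeasure (sumLaw μ t θ) := by
    unfold sumLaw
    exact Measure.isProbabilityMeasure_map hm.aemeasurable
  have h1 : ∫ p, psi (2 ^ j * (XX t p + θ) - i) ∂(PP μ k) =
      ∫ x, psi (2 ^ j * x - i) ∂(sumLaw μ t θ) := by
    unfold sumLaw
    rw [integral_map hm.aemeasurable]
    · rfl
    · exact (psi_meas.comp (by fun_prop)).aestronglyMeasurable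
  rw [h1]
  simp_rw [psi_dy]
  rw [integral_sub]
  · rw [integral_indicator (dy_meas _ _), integral_indicator (dy_meas _ _)]
    simp
  · exact (integrable_indicator_iff (dy_meas _ _)).2 (integrableOn_const (by simp))
  · exact (integrable_indicator_iff (dy_meas _ _)).2 (integrableOn_const (by simp))

theorem ej_eq (μ : Measure ℝ) [IsProbabilityMeasure μ] (hsupp : μ (Icc (-1) 1)ᶜ = 0) {k : ℕ}
    (t : Fin k → ℝ) (ht : ∀ i, t i ∈ Icc (1 : ℝ) 2) (θ : ℝ) (hθ : θ ∈ Icc (0 : ℝ) 1) (j : ℕ) :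
    ej (sumLaw μ t θ) j = EE μ t θ j := by
  unfold ej EE
  simp_rw [diff_eq]
  set M : ℤ := 2 ^ j * (2 + 2 * k) + 1 with hM
  have hb := XX_bound μ hsupp k t ht
  have hfl : ∀ᵐ p ∂(PP μ k), ⌊(2 : ℝ) ^ j * (XX t p + θ)⌋ ∈ Finset.Icc (-M) M := by
    filter_upwards [hb] with p hp
    rw [Finset.mem_Icc]
    have hp' := abs_le.1 hp
    have h2 : (0 : ℝ) < 2 ^ j := by positivity
    constructor
    · rw [Int.le_floor]
      rw [hM]; push_cast
      nlinarith [hθ.1]
    · have : (⌊(2 : ℝ) ^ j * (XX t p + θ)⌋ : ℝ) ≤ M := by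
        refine (Int.floor_le _).trans ?_
        rw [hM]; push_cast
        nlinarith [hθ.2]
      exact_mod_cast this
  have hz : ∀ i ∉ Finset.Icc (-M) M, (2 : ℝ) ^ j * (∫ p, psi (2 ^ j * (XX t p + θ) - i) ∂(PP μ k)) ^ 2
      = 0 := by
    intro i hi
    have : ∫ p, psi (2 ^ j * (XX t p + θ) - i) ∂(PP μ k) = 0 := by
      rw [← integral_zero (ℝ × (Fin k → ℝ)) ℝ (μ := PP μ k)]
      apply integral_congr_ae
      filter_upwards [hfl] with p hp
      apply psi_out
      intro h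
      apply hi
      have : ⌊(2 : ℝ) ^ j * (XX t p + θ)⌋ = i := by
        rw [Int.floor_eq_iff]
        exact ⟨by linarith [h.1], by linarith [h.2]⟩
      rwa [this] at hp
    rw [this]; ring
  rw [tsum_eq_sum hz, ← Finset.mul_sum]
  congr 1
  have hpm : ∀ i : ℤ, Measurable (fun p : ℝ × (Fin k → ℝ) => psi (2 ^ j * (XX t p + θ) - i)) :=
    fun i => psi_meas.comp (((((XX_meas t).add_const θ).const_mul _)).sub_const _)
  have h1 : ∀ i : ℤ, (∫ p, psi (2 ^ j * (XX t p + θ) - i) ∂(PP μ k)) ^ 2 =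
      ∫ q : (ℝ × (Fin k → ℝ)) × (ℝ × (Fin k → ℝ)), psi (2 ^ j * (XX t q.1 + θ) - i) *
        psi (2 ^ j * (XX t q.2 + θ) - i) ∂((PP μ k).prod (PP μ k)) := by
    intro i
    rw [integral_prod_mul (fun p => psi (2 ^ j * (XX t p + θ) - i))
      (fun p => psi (2 ^ j * (XX t p + θ) - i)), sq]
  simp_rw [h1]
  rw [← integral_finsetSum]
  · apply integral_congr_ae
    have h2 : ∀ᵐ q ∂((PP μ k).prod (PP μ k)),
        ⌊(2 : ℝ) ^ j * (XX t q.1 + θ)⌋ ∈ Finset.Icc (-M) M :=
      (measurePreserving_fst (μ := PP μ k) (ν := PP μ k)).quasiMeasurePreserving.ae hfl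
    filter_upwards [h2] with q hq
    exact kap_sum _ _ _ hq
  · intro i _
    refine Integrable.of_bound (C := 1) ?_ ?_
    · exact (((hpm i).comp measurable_fst).mul ((hpm i).comp measurable_snd)).aestronglyMeasurable
    · refine Filter.Eventually.of_forall fun q => ?_
      rw [norm_mul]
      exact mul_le_one₀ (psi_abs _) (norm_nonneg _) (psi_abs _)

/-- the kernel -/
noncomputable def KK (k j : ℕ) (z : (Fin k → ℝ) × ℝ)
    (q : (ℝ × (Fin k → ℝ)) × (ℝ × (Fin k → ℝ))) : ℝ :=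
  kap (2 ^ j * (XX z.1 q.1 + z.2)) (2 ^ j * (XX z.1 q.2 + z.2))

theorem KK_abs (k j : ℕ) (z : (Fin k → ℝ) × ℝ)
    (q : (ℝ × (Fin k → ℝ)) × (ℝ × (Fin k → ℝ))) : |KK k j z q| ≤ 1 := kap_abs _ _

theorem KK_meas (k j : ℕ) : Measurable (fun w : ((Fin k → ℝ) × ℝ) ×
    ((ℝ × (Fin k → ℝ)) × (ℝ × (Fin k → ℝ))) => KK k j w.1 w.2) := by
  unfold KK
  have h1 : Measurable (fun w : ((Fin k → ℝ) × ℝ) ×
      ((ℝ × (Fin k → ℝ)) × (ℝ × (Fin k → ℝ))) => (2 : ℝ) ^ j * (XX w.1.1 w.2.1 + w.1.2)) := by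
    refine measurable_const.mul (Measurable.add ?_ (measurable_snd.comp measurable_fst))
    exact XX_meas2.comp ((measurable_fst.comp measurable_fst).prodMk
      (measurable_fst.comp measurable_snd))
  have h2 : Measurable (fun w : ((Fin k → ℝ) × ℝ) ×
      ((ℝ × (Fin k → ℝ)) × (ℝ × (Fin k → ℝ))) => (2 : ℝ) ^ j * (XX w.1.1 w.2.2 + w.1.2)) := by
    refine measurable_const.mul (Measurable.add ?_ (measurable_snd.comp measurable_fst))
    exact XX_meas2.comp ((measurable_fst.comp measurable_fst).prodMk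
      (measurable_snd.comp measurable_snd))
  exact kap_meas.comp (h1.prodMk h2)

/-- the law of `(t, θ)` -/
noncomputable def QQ (k : ℕ) : Measure ((Fin k → ℝ) × ℝ) :=
  (Measure.pi fun _ : Fin k => tau).prod (volume.restrict (Icc (0 : ℝ) 1))

instance : IsProbabilityMeasure (volume.restrict (Icc (0 : ℝ) 1)) :=
  ⟨by rw [Measure.restrict_apply_univ, Real.volume_Icc]; simp⟩

instance (k : ℕ) : IsProbabilityMeasure (QQ k) := by unfold QQ; infer_instance

theorem EE_sm (μ : Measure ℝ) [IsProbabilityMeasure μ] (k j : ℕ) :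
    StronglyMeasurable (fun z : (Fin k → ℝ) × ℝ => EE μ z.1 z.2 j) := by
  unfold EE
  refine StronglyMeasurable.const_mul ?_ _
  exact (KK_meas k j).stronglyMeasurable.integral_prod_right

theorem EE_abs (μ : Measure ℝ) [IsProbabilityMeasure μ] (k j : ℕ) (z : (Fin k → ℝ) × ℝ) :
    ‖EE μ z.1 z.2 j‖ ≤ 2 ^ j := by
  unfold EE
  rw [norm_mul]
  have h := norm_integral_le_of_norm_le_const (μ := (PP μ k).prod (PP μ k)) (C := 1)
    (f := fun q => kap (2 ^ j * (XX z.1 q.1 + z.2)) (2 ^ j * (XX z.1 q.2 + z.2)))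
    (Filter.Eventually.of_forall fun q => by rw [Real.norm_eq_abs]; exact kap_abs _ _)
  rw [norm_pow, Real.norm_ofNat]
  have h2 : ‖∫ q : (ℝ × (Fin k → ℝ)) × (ℝ × (Fin k → ℝ)),
    kap (2 ^ j * (XX z.1 q.1 + z.2)) (2 ^ j * (XX z.1 q.2 + z.2)) ∂((PP μ k).prod (PP μ k))‖ ≤ 1 := by
    simpa using h
  calc (2 : ℝ) ^ j * _ ≤ 2 ^ j * 1 := mul_le_mul_of_nonneg_left h2 (by positivity)
    _ = 2 ^ j := mul_one _

theorem EE_int (μ : Measure ℝ) [IsProbabilityMeasure μ] (k j : ℕ) :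
    Integrable (fun z : (Fin k → ℝ) × ℝ => EE μ z.1 z.2 j) (QQ k) :=
  Integrable.of_bound (EE_sm μ k j).aestronglyMeasurable (2 ^ j)
    (Filter.Eventually.of_forall (EE_abs μ k j))

theorem KK_avg (k j : ℕ) (q : (ℝ × (Fin k → ℝ)) × (ℝ × (Fin k → ℝ))) :
    ∫ z, KK k j z q ∂(QQ k) = GG (2 ^ j) (q.1.1 - q.2.1) (q.1.2 - q.2.2) := by
  have hm : Measurable (fun z : (Fin k → ℝ) × ℝ => KK k j z q) :=
    (KK_meas k j).comp (measurable_id.prodMk measurable_const)
  have hi : Integrable (fun z : (Fin k → ℝ) × ℝ => KK k j z q) (QQ k) :=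
    Integrable.of_bound hm.aestronglyMeasurable 1
      (Filter.Eventually.of_forall fun z => by rw [Real.norm_eq_abs]; exact KK_abs _ _ _ _)
  unfold QQ at hi ⊢
  rw [integral_prod _ hi]
  unfold GG
  congr 1
  ext t
  have h1 := kap_avg (2 ^ j * XX t q.1) (2 ^ j * XX t q.2) (2 ^ j) (by positivity)
  rw [intervalIntegral.integral_of_le zero_le_one, ← integral_Icc_eq_integral_Ioc] at h1
  have h2 : (∫ θ in Icc (0 : ℝ) 1, KK k j (t, θ) q) =
      ∫ θ in Icc (0 : ℝ) 1, kap (2 ^ j * XX t q.1 + ((2 ^ j : ℕ) : ℝ) * θ)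
        (2 ^ j * XX t q.2 + ((2 ^ j : ℕ) : ℝ) * θ) := by
    congr 1
    ext θ
    unfold KK
    push_cast
    rw [mul_add, mul_add]
  rw [h2, h1]
  congr 1
  rw [← mul_sub]
  congr 1
  unfold XX
  have : ∑ i, t i * (q.1.2 - q.2.2) i = ∑ i, t i * q.1.2 i - ∑ i, t i * q.2.2 i := by
    rw [← Finset.sum_sub_distrib]
    refine Finset.sum_congr rfl fun i _ => ?_
    rw [Pi.sub_apply, mul_sub]
  rw [this]
  ring

theorem EE_avg (μ : Measure ℝ) [IsProbabilityMeasure μ] (k j : ℕ) :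
    ∫ z, EE μ z.1 z.2 j ∂(QQ k) = 2 ^ j * ∫ q : (ℝ × (Fin k → ℝ)) × (ℝ × (Fin k → ℝ)),
      GG (2 ^ j) (q.1.1 - q.2.1) (q.1.2 - q.2.2) ∂((PP μ k).prod (PP μ k)) := by
  have h1 : ∀ z : (Fin k → ℝ) × ℝ, EE μ z.1 z.2 j =
    2 ^ j * ∫ q, KK k j z q ∂((PP μ k).prod (PP μ k)) := fun z => rfl
  simp_rw [h1]
  rw [integral_const_mul]
  congr 1
  rw [integral_integral_swap]
  · congr 1
    ext q
    exact KK_avg k j q
  · exact Integrable.of_bound (KK_meas k j).aestronglyMeasurable 1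
      (Filter.Eventually.of_forall fun z => by rw [Real.norm_eq_abs]; exact KK_abs _ _ _ _)

/-- the dyadic box -/
def SS (k j l : ℕ) : Set ((ℝ × (Fin k → ℝ)) × (ℝ × (Fin k → ℝ))) :=
  {q | |q.1.1 - q.2.1| ≤ (2 * k + 1) * (2 ^ l / 2 ^ j) ∧ ∀ i, |q.1.2 i - q.2.2 i| ≤ 2 ^ l / 2 ^ j}

theorem SS_meas (k j l : ℕ) : MeasurableSet (SS k j l) := by
  unfold SS
  have h1 : MeasurableSet {q : (ℝ × (Fin k → ℝ)) × (ℝ × (Fin k → ℝ)) |
      |q.1.1 - q.2.1| ≤ (2 * k + 1) * (2 ^ l / 2 ^ j)} := by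
    refine measurableSet_le ?_ measurable_const
    exact ((measurable_fst.comp measurable_fst).sub (measurable_fst.comp measurable_snd)).abs
  have h2 : MeasurableSet {q : (ℝ × (Fin k → ℝ)) × (ℝ × (Fin k → ℝ)) |
      ∀ i, |q.1.2 i - q.2.2 i| ≤ 2 ^ l / 2 ^ j} := by
    rw [Set.ofPred_forall]
    refine MeasurableSet.iInter fun i => ?_
    refine measurableSet_le ?_ measurable_const
    exact (((measurable_pi_apply i).comp (measurable_snd.comp measurable_fst)).sub
      ((measurable_pi_apply i).comp (measurable_snd.comp measurable_snd))).abs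
  exact h1.inter h2

theorem GG_pt (k j : ℕ) (q : (ℝ × (Fin k → ℝ)) × (ℝ × (Fin k → ℝ))) :
    ∃ l : ℕ, ‖GG (2 ^ j) (q.1.1 - q.2.1) (q.1.2 - q.2.2)‖ₑ ≤
      (SS k j l).indicator (fun _ => ENNReal.ofReal (32 * (1 / 4) ^ l)) q := by
  classical
  have hN : (0 : ℝ) < 2 ^ j := by positivity
  by_cases hG : GG (2 ^ j) (q.1.1 - q.2.1) (q.1.2 - q.2.2) = 0
  · refine ⟨0, ?_⟩
    rw [hG]; simp
  have hex : ∃ l : ℕ, ∀ i, |q.1.2 i - q.2.2 i| ≤ 2 ^ l / 2 ^ j := by
    have h1 : ∀ i, ∃ l : ℕ, |q.1.2 i - q.2.2 i| * 2 ^ j ≤ 2 ^ l := by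
      intro i
      obtain ⟨l, hl⟩ := pow_unbounded_of_one_lt (|q.1.2 i - q.2.2 i| * 2 ^ j) (by norm_num : (1 : ℝ) < 2)
      exact ⟨l, hl.le⟩
    choose L hL using h1
    refine ⟨Finset.univ.sup L, fun i => ?_⟩
    rw [le_div_iff₀ hN]
    exact (hL i).trans (pow_le_pow_right₀ (by norm_num) (Finset.le_sup (Finset.mem_univ i)))
  refine ⟨Nat.find hex, ?_⟩
  set l := Nat.find hex with hl
  have hsp : ∀ i, |q.1.2 i - q.2.2 i| ≤ 2 ^ l / 2 ^ j := Nat.find_spec hex
  have hmem : q ∈ SS k j l := by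
    refine ⟨?_, hsp⟩
    by_contra hc
    rw [not_le] at hc
    apply hG
    refine GG_zero (2 ^ j) _ (2 ^ l / 2 ^ j) _ hN hsp ?_
    have h2 : (1 : ℝ) / 2 ^ j ≤ 2 ^ l / 2 ^ j := by
      gcongr
      exact one_le_pow₀ (by norm_num)
    nlinarith
  rw [indicator_of_mem hmem, Real.enorm_eq_ofReal_abs]
  apply ENNReal.ofReal_le_ofReal
  rcases Nat.eq_zero_or_pos l with h0 | h0
  · rw [h0, pow_zero]
    exact (GG_abs _ _ _).trans (by norm_num)
  · have h3 := Nat.find_min hex (m := l - 1) (by omega)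
    push Not at h3
    obtain ⟨i, hi⟩ := h3
    have hpos : 0 < |q.1.2 i - q.2.2 i| := lt_trans (by positivity) hi
    have hne : (q.1.2 - q.2.2) i ≠ 0 := by
      rw [Pi.sub_apply]; exact abs_pos.1 hpos
    refine (GG_bound (2 ^ j) (q.1.1 - q.2.1) (q.1.2 - q.2.2) i hN.ne' hne).trans ?_
    rw [Pi.sub_apply]
    have h4 : (2 : ℝ) ^ (l - 1) ≤ |2 ^ j * (q.1.2 i - q.2.2 i)| := by
      rw [abs_mul, abs_of_pos hN]
      rw [div_lt_iff₀ hN] at hi
      linarith
    have h5 : ((2 : ℝ) ^ (l - 1)) ^ 2 ≤ (2 ^ j * (q.1.2 i - q.2.2 i)) ^ 2 := by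
      rw [← sq_abs (2 ^ j * (q.1.2 i - q.2.2 i))]
      exact pow_le_pow_left₀ (by positivity) h4 2
    calc 8 / (2 ^ j * (q.1.2 i - q.2.2 i)) ^ 2 ≤ 8 / ((2 : ℝ) ^ (l - 1)) ^ 2 := by
          gcongr
      _ = 32 * (1 / 4) ^ l := by
          obtain ⟨m, hm⟩ : ∃ m, l = m + 1 := ⟨l - 1, by omega⟩
          rw [hm, Nat.add_sub_cancel, ← pow_mul, mul_comm m 2, pow_mul, one_div,
            inv_pow]
          norm_num
          field_simp
          ring

theorem SS_bound (μ : Measure ℝ) [IsProbabilityMeasure μ] (s C : ℝ) (hμ : Fros μ s C)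
    (k j l : ℕ) : ((PP μ k).prod (PP μ k)) (SS k j l) ≤
      ENNReal.ofReal (C * ((2 * k + 1) * (2 ^ l / 2 ^ j)) ^ s) *
        (ENNReal.ofReal (C * ((2 : ℝ) ^ l / 2 ^ j) ^ s)) ^ k := by
  have hr : (0 : ℝ) < 2 ^ l / 2 ^ j := by positivity
  rw [Measure.prod_apply (SS_meas k j l)]
  have h1 : ∀ p : ℝ × (Fin k → ℝ), (PP μ k) (Prod.mk p ⁻¹' (SS k j l)) ≤
      ENNReal.ofReal (C * ((2 * k + 1) * (2 ^ l / 2 ^ j)) ^ s) *
        (ENNReal.ofReal (C * ((2 : ℝ) ^ l / 2 ^ j) ^ s)) ^ k := by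
    intro p
    have h2 : Prod.mk p ⁻¹' (SS k j l) ⊆ (Metric.closedBall p.1 ((2 * k + 1) * (2 ^ l / 2 ^ j))) ×ˢ
        (Set.univ.pi fun i => Metric.closedBall (p.2 i) (2 ^ l / 2 ^ j)) := by
      intro p' hp'
      obtain ⟨ha, hb⟩ := hp'
      refine ⟨?_, fun i _ => ?_⟩
      · rw [Metric.mem_closedBall, Real.dist_eq, abs_sub_comm]; exact ha
      · rw [Metric.mem_closedBall, Real.dist_eq, abs_sub_comm]; exact hb i
    refine (measure_mono h2).trans ?_
    unfold PP
    rw [Measure.prod_prod, Measure.pi_pi]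
    refine mul_le_mul' (hμ _ _ (by positivity)) ?_
    calc ∏ i : Fin k, μ (Metric.closedBall (p.2 i) (2 ^ l / 2 ^ j)) ≤
          ∏ _i : Fin k, ENNReal.ofReal (C * ((2 : ℝ) ^ l / 2 ^ j) ^ s) :=
          Finset.prod_le_prod' fun i _ => hμ _ _ hr
      _ = _ := by rw [Finset.prod_const, Finset.card_univ, Fintype.card_fin]
  calc _ ≤ ∫⁻ _p : ℝ × (Fin k → ℝ), _ ∂(PP μ k) := lintegral_mono h1
    _ = _ := by rw [lintegral_const, measure_univ, mul_one]

theorem term_eq (s C : ℝ) (hC : 0 < C) (k j l : ℕ) :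
    (32 * (1 / 4) ^ l) * ((C * ((2 * k + 1) * (2 ^ l / 2 ^ j)) ^ s) *
      (C * ((2 : ℝ) ^ l / 2 ^ j) ^ s) ^ k) =
    (32 * C ^ (k + 1) * (2 * k + 1) ^ s) * (2 : ℝ) ^ (-((k + 1) * s * j)) *
      ((2 : ℝ) ^ ((k + 1) * s - 2)) ^ l := by
  have hr : (0 : ℝ) < 2 ^ l / 2 ^ j := by positivity
  rw [Real.mul_rpow (by positivity) hr.le, mul_pow, ← Real.rpow_natCast (((2 : ℝ) ^ l / 2 ^ j) ^ s) k,
    ← Real.rpow_mul hr.le]
  have h1 : ((2 : ℝ) ^ l / 2 ^ j) ^ s * ((2 : ℝ) ^ l / 2 ^ j) ^ (s * k) =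
      (2 : ℝ) ^ ((k + 1) * s * l) * (2 : ℝ) ^ (-((k + 1) * s * j)) := by
    rw [← Real.rpow_add hr]
    have h2 : (2 : ℝ) ^ l / 2 ^ j = (2 : ℝ) ^ ((l : ℝ) - j) := by
      rw [Real.rpow_sub (by norm_num), Real.rpow_natCast, Real.rpow_natCast]
    rw [h2, ← Real.rpow_mul (by norm_num), ← Real.rpow_add (by norm_num)]
    congr 1
    ring
  have h3 : ((2 : ℝ) ^ ((k + 1) * s - 2)) ^ l = (2 : ℝ) ^ ((k + 1) * s * l) * (1 / 4) ^ l := by
    rw [← Real.rpow_natCast, ← Real.rpow_mul (by norm_num), sub_mul, Real.rpow_sub (by norm_num),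
      Real.rpow_mul (by norm_num) 2 (l : ℝ), Real.rpow_natCast]
    rw [show ((2 : ℝ) ^ (2 : ℝ)) = 4 by norm_num, one_div, inv_pow]
    rfl
  rw [h3]
  calc _ = 32 * C ^ (k + 1) * (2 * k + 1) ^ s * (1 / 4) ^ l *
        (((2 : ℝ) ^ l / 2 ^ j) ^ s * ((2 : ℝ) ^ l / 2 ^ j) ^ (s * k)) := by ring
    _ = _ := by rw [h1]; ring

theorem GG_avg (μ : Measure ℝ) [IsProbabilityMeasure μ] (s C : ℝ) (hC : 0 < C) (hμ : Fros μ s C)
    (k j : ℕ) (hk2 : (k + 1) * s < 2) :
    ∫⁻ q : (ℝ × (Fin k → ℝ)) × (ℝ × (Fin k → ℝ)),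
      ‖GG (2 ^ j) (q.1.1 - q.2.1) (q.1.2 - q.2.2)‖ₑ ∂((PP μ k).prod (PP μ k)) ≤
    ENNReal.ofReal ((32 * C ^ (k + 1) * (2 * k + 1) ^ s) * (2 : ℝ) ^ (-((k + 1) * s * j)) *
      (1 - (2 : ℝ) ^ ((k + 1) * s - 2))⁻¹) := by
  have hw0 : (0 : ℝ) ≤ (2 : ℝ) ^ ((k + 1) * s - 2) := by positivity
  have hw1 : (2 : ℝ) ^ ((k + 1) * s - 2) < 1 := by
    rw [← Real.rpow_zero 2]
    exact Real.rpow_lt_rpow_of_exponent_lt (by norm_num) (by linarith)
  calc _ ≤ ∫⁻ q : (ℝ × (Fin k → ℝ)) × (ℝ × (Fin k → ℝ)), ∑' l : ℕ,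
        (SS k j l).indicator (fun _ => ENNReal.ofReal (32 * (1 / 4) ^ l)) q
          ∂((PP μ k).prod (PP μ k)) := by
        refine lintegral_mono fun q => ?_
        obtain ⟨l, hl⟩ := GG_pt k j q
        exact hl.trans (ENNReal.le_tsum l)
    _ = ∑' l : ℕ, ∫⁻ q : (ℝ × (Fin k → ℝ)) × (ℝ × (Fin k → ℝ)),
        (SS k j l).indicator (fun _ => ENNReal.ofReal (32 * (1 / 4) ^ l)) q
          ∂((PP μ k).prod (PP μ k)) :=
        lintegral_tsum fun l => (measurable_const.indicator (SS_meas k j l)).aemeasurable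
    _ ≤ ∑' l : ℕ, ENNReal.ofReal ((32 * C ^ (k + 1) * (2 * k + 1) ^ s) *
          (2 : ℝ) ^ (-((k + 1) * s * j)) * ((2 : ℝ) ^ ((k + 1) * s - 2)) ^ l) := by
        refine ENNReal.tsum_le_tsum fun l => ?_
        rw [lintegral_indicator (SS_meas k j l), setLIntegral_const]
        rw [← term_eq s C hC k j l]
        rw [ENNReal.ofReal_mul (p := 32 * (1 / 4) ^ l) (by positivity)]
        refine mul_le_mul' le_rfl ((SS_bound μ s C hμ k j l).trans ?_)
        rw [ENNReal.ofReal_mul (p := C * ((2 * k + 1) * (2 ^ l / 2 ^ j)) ^ s) (by positivity),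
          ENNReal.ofReal_pow (by positivity)]
    _ = _ := by
        rw [← ENNReal.ofReal_tsum_of_nonneg (fun l => by positivity)
          ((summable_geometric_of_lt_one hw0 hw1).mul_left _), tsum_mul_left,
          tsum_geometric_of_lt_one hw0 hw1]

theorem EE_avg_le (μ : Measure ℝ) [IsProbabilityMeasure μ] (s C : ℝ) (hC : 0 < C)
    (hμ : Fros μ s C) (k j : ℕ) (hk2 : (k + 1) * s < 2) :
    ∫ z, EE μ z.1 z.2 j ∂(QQ k) ≤ (32 * C ^ (k + 1) * (2 * k + 1) ^ s) *
      (1 - (2 : ℝ) ^ ((k + 1) * s - 2))⁻¹ * (2 : ℝ) ^ (-(((k + 1) * s - 1) * j)) := by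
  have hw1 : (2 : ℝ) ^ ((k + 1) * s - 2) < 1 := by
    rw [← Real.rpow_zero 2]
    exact Real.rpow_lt_rpow_of_exponent_lt (by norm_num) (by linarith)
  have hpos : 0 ≤ (1 - (2 : ℝ) ^ ((k + 1) * s - 2))⁻¹ := inv_nonneg.2 (by linarith)
  rw [EE_avg]
  have h1 : ∫ q : (ℝ × (Fin k → ℝ)) × (ℝ × (Fin k → ℝ)),
      GG (2 ^ j) (q.1.1 - q.2.1) (q.1.2 - q.2.2) ∂((PP μ k).prod (PP μ k)) ≤
      (32 * C ^ (k + 1) * (2 * k + 1) ^ s) * (2 : ℝ) ^ (-((k + 1) * s * j)) *
      (1 - (2 : ℝ) ^ ((k + 1) * s - 2))⁻¹ := by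
    refine (le_abs_self _).trans ?_
    rw [← Real.norm_eq_abs]
    have h2 := (enorm_integral_le_lintegral_enorm (μ := (PP μ k).prod (PP μ k))
      (fun q : (ℝ × (Fin k → ℝ)) × (ℝ × (Fin k → ℝ)) =>
        GG (2 ^ j) (q.1.1 - q.2.1) (q.1.2 - q.2.2))).trans (GG_avg μ s C hC hμ k j hk2)
    rw [Real.enorm_eq_ofReal_abs, ENNReal.ofReal_le_ofReal_iff (by positivity)] at h2
    rw [Real.norm_eq_abs]
    exact h2
  calc _ ≤ 2 ^ j * ((32 * C ^ (k + 1) * (2 * k + 1) ^ s) * (2 : ℝ) ^ (-((k + 1) * s * j)) *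
      (1 - (2 : ℝ) ^ ((k + 1) * s - 2))⁻¹) := mul_le_mul_of_nonneg_left h1 (by positivity)
    _ = _ := by
      have h3 : (2 : ℝ) ^ (-(((k + 1) * s - 1) * j)) =
          2 ^ j * (2 : ℝ) ^ (-((k + 1) * s * j)) := by
        rw [← Real.rpow_natCast 2 j, ← Real.rpow_add (by norm_num)]
        congr 1
        ring
      rw [h3]; ring

theorem QQ_ae (k : ℕ) : ∀ᵐ z ∂(QQ k), (∀ i, z.1 i ∈ Icc (1 : ℝ) 2) ∧ z.2 ∈ Icc (0 : ℝ) 1 := by
  have h1 : ∀ i : Fin k, ∀ᵐ z ∂(QQ k), z.1 i ∈ Icc (1 : ℝ) 2 := fun i =>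
    ((measurePreserving_eval (fun _ : Fin k => tau) i).comp
      (measurePreserving_fst (μ := Measure.pi fun _ : Fin k => tau)
        (ν := volume.restrict (Icc (0 : ℝ) 1)))).quasiMeasurePreserving.ae
      (show ∀ᵐ x ∂tau, x ∈ Icc (1 : ℝ) 2 from by
        rw [ae_iff]; exact tau_out)
  have h2 : ∀ᵐ z ∂(QQ k), z.2 ∈ Icc (0 : ℝ) 1 :=
    (measurePreserving_snd (μ := Measure.pi fun _ : Fin k => tau)
        (ν := volume.restrict (Icc (0 : ℝ) 1))).quasiMeasurePreserving.ae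
      (ae_restrict_mem measurableSet_Icc)
  filter_upwards [ae_all_iff.2 h1, h2] with z hz1 hz2
  exact ⟨hz1, hz2⟩

theorem ej_nonneg (ν : Measure ℝ) (j : ℕ) : 0 ≤ ej ν j := by
  unfold ej
  exact tsum_nonneg fun i => by positivity

theorem second_moment (μ : Measure ℝ) [IsProbabilityMeasure μ] (hsupp : μ (Icc (-1) 1)ᶜ = 0)
    (s C : ℝ) (hs0 : 0 < s) (hs1 : s < 1) (hC : 0 < C) (hμ : Fros μ s C) (k : ℕ) (hk : 1 ≤ k)
    (hk1 : 1 < (k + 1) * s) (hk2 : (k + 1) * s < 2) (γ : ℝ) (hγ : γ < (k + 1) * s - 1) :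
    ∃ (t : Fin k → ℝ) (θ C' : ℝ), (∀ i, t i ∈ Icc (1 : ℝ) 2) ∧ θ ∈ Icc (0 : ℝ) 1 ∧
      ∀ j : ℕ, ej (sumLaw μ t θ) j ≤ C' * (2 : ℝ) ^ (-(γ * j)) := by
  set D : ℝ := (32 * C ^ (k + 1) * (2 * k + 1) ^ s) * (1 - (2 : ℝ) ^ ((k + 1) * s - 2))⁻¹ with hD
  set F : (Fin k → ℝ) × ℝ → ENNReal := fun z =>
    ∑' j : ℕ, ENNReal.ofReal ((2 : ℝ) ^ (γ * j) * EE μ z.1 z.2 j) with hF
  have hw1 : (2 : ℝ) ^ ((k + 1) * s - 2) < 1 := by
    rw [← Real.rpow_zero 2]
    exact Real.rpow_lt_rpow_of_exponent_lt (by norm_num) (by linarith)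
  have hD0 : 0 ≤ D := by
    have : 0 ≤ (1 - (2 : ℝ) ^ ((k + 1) * s - 2))⁻¹ := inv_nonneg.2 (by linarith)
    positivity
  have hmeas : ∀ j : ℕ, Measurable (fun z : (Fin k → ℝ) × ℝ =>
      ENNReal.ofReal ((2 : ℝ) ^ (γ * j) * EE μ z.1 z.2 j)) := fun j =>
    ((EE_sm μ k j).measurable.const_mul _).ennreal_ofReal
  have hFm : Measurable F := Measurable.tsum hmeas
  have hnn : ∀ j : ℕ, 0 ≤ᵐ[QQ k] fun z => (2 : ℝ) ^ (γ * j) * EE μ z.1 z.2 j := by
    intro j
    filter_upwards [QQ_ae k] with z hz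
    rw [← ej_eq μ hsupp z.1 hz.1 z.2 hz.2 j]
    exact mul_nonneg (by positivity) (ej_nonneg _ _)
  set w : ℝ := (2 : ℝ) ^ (γ - ((k + 1) * s - 1)) with hw
  have hw0' : 0 ≤ w := by positivity
  have hw1' : w < 1 := by
    rw [hw, ← Real.rpow_zero 2]
    exact Real.rpow_lt_rpow_of_exponent_lt (by norm_num) (by linarith)
  have hterm : ∀ j : ℕ, ∫⁻ z, ENNReal.ofReal ((2 : ℝ) ^ (γ * j) * EE μ z.1 z.2 j) ∂(QQ k) ≤
      ENNReal.ofReal (D * w ^ j) := by
    intro j
    rw [← ofReal_integral_eq_lintegral_ofReal ((EE_int μ k j).const_mul _) (hnn j)]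
    apply ENNReal.ofReal_le_ofReal
    rw [integral_const_mul]
    calc (2 : ℝ) ^ (γ * j) * ∫ z, EE μ z.1 z.2 j ∂(QQ k) ≤
          (2 : ℝ) ^ (γ * j) * (D * (2 : ℝ) ^ (-(((k + 1) * s - 1) * j))) :=
          mul_le_mul_of_nonneg_left (EE_avg_le μ s C hC hμ k j hk2) (by positivity)
      _ = D * w ^ j := by
          have : w ^ j = (2 : ℝ) ^ (γ * j) * (2 : ℝ) ^ (-(((k + 1) * s - 1) * j)) := by
            rw [hw, ← Real.rpow_natCast, ← Real.rpow_mul (by norm_num), ← Real.rpow_add (by norm_num)]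
            congr 1
            ring
          rw [this]; ring
  have hfin : ∫⁻ z, F z ∂(QQ k) ≠ ⊤ := by
    rw [hF, lintegral_tsum fun j => (hmeas j).aemeasurable]
    refine ne_top_of_le_ne_top ?_ (ENNReal.tsum_le_tsum hterm)
    rw [← ENNReal.ofReal_tsum_of_nonneg (fun l => by positivity)
          ((summable_geometric_of_lt_one hw0' hw1').mul_left _)]
    exact ENNReal.ofReal_ne_top
  have hae := ae_lt_top hFm hfin
  obtain ⟨z, hz, hz1, hz2⟩ := (hae.and (QQ_ae k)).exists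
  refine ⟨z.1, z.2, (F z).toReal, hz1, hz2, fun j => ?_⟩
  rw [ej_eq μ hsupp z.1 hz1 z.2 hz2 j]
  have h1 : ENNReal.ofReal ((2 : ℝ) ^ (γ * j) * EE μ z.1 z.2 j) ≤ F z := ENNReal.le_tsum j
  have h2 : (2 : ℝ) ^ (γ * j) * EE μ z.1 z.2 j ≤ (F z).toReal :=
    (ENNReal.ofReal_le_iff_le_toReal hz.ne).1 h1
  rw [Real.rpow_neg (by norm_num), ← div_eq_mul_inv, le_div_iff₀ (by positivity)]
  linarith

end Pool.Agent.NH64.DS
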