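import Mathlib
import Pool.Agent.NH64.DS.Assembly
import Pool.Agent.NH64.DS.Frost
import Pool.Agent.NH64.DS.Second

/-!
# Interior of dilated sumsets: the final theorem
-/

set_option autoImplicit false

open MeasureTheory Set Real
open scoped ENNReal

namespace Pool.Agent.NH64.DS.Mn

/-- the closed set carrying the law of the dilated sum -/
def DD (K : Set ℝ) {k : ℕ} (t : Fin k → ℝ) (θ : ℝ) : Set ℝ :=
  (fun p : ℝ × (Fin k → ℝ) => p.1 + ∑ i, t i * p.2 i + θ) '' (K ×ˢ Set.pi univ (fun _ => K))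

lemma DD_compact {K : Set ℝ} (hK : IsCompact K) {k : ℕ} (t : Fin k → ℝ) (θ : ℝ) :
    IsCompact (DD K t θ) := by
  unfold DD
  apply (hK.prod (isCompact_univ_pi (fun _ => hK))).image
  fun_prop

instance sumLaw_prob (μ : Measure ℝ) [IsProbabilityMeasure μ] {k : ℕ} (t : Fin k → ℝ) (θ : ℝ) :
    IsProbabilityMeasure (sumLaw μ t θ) := by
  unfold sumLaw
  apply Measure.isProbabilityMeasure_map
  fun_prop

lemma sumLaw_DD (μ : Measure ℝ) [IsProbabilityMeasure μ] {K : Set ℝ} (hK : IsCompact K)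
    (hμK : μ Kᶜ = 0) {k : ℕ} (t : Fin k → ℝ) (θ : ℝ) : sumLaw μ t θ (DD K t θ)ᶜ = 0 := by
  unfold sumLaw
  rw [Measure.map_apply (by fun_prop) (DD_compact hK t θ).measurableSet.compl]
  have h1 : (fun p : ℝ × (Fin k → ℝ) => p.1 + ∑ i, t i * p.2 i + θ) ⁻¹' (DD K t θ)ᶜ ⊆
      (Prod.fst ⁻¹' Kᶜ) ∪ (Prod.snd ⁻¹' (Set.pi univ (fun _ => K))ᶜ) := by
    intro p hp
    by_contra hc
    simp only [mem_union, mem_preimage, mem_compl_iff, not_or, not_not] at hc
    exact hp ⟨p, ⟨hc.1, hc.2⟩, rfl⟩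
  refine measure_mono_null h1 (measure_union_null ?_ ?_)
  · exact Measure.quasiMeasurePreserving_fst.preimage_null hμK
  · apply Measure.quasiMeasurePreserving_snd.preimage_null
    have h2 : (Set.pi univ (fun _ : Fin k => K))ᶜ ⊆ ⋃ i, (fun p : Fin k → ℝ => p i) ⁻¹' Kᶜ := by
      intro p hp
      simp only [mem_compl_iff, Set.mem_pi, mem_univ, true_implies, not_forall] at hp
      obtain ⟨i, hi⟩ := hp
      exact mem_iUnion.mpr ⟨i, hi⟩
    refine measure_mono_null h2 (measure_iUnion_null (fun i => ?_))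
    exact (Measure.quasiMeasurePreserving_eval (fun _ : Fin k => μ) i).preimage_null hμK

lemma DD_bound {K : Set ℝ} (hK1 : K ⊆ Icc (-1) 1) {k : ℕ} {t : Fin k → ℝ} {θ : ℝ}
    (ht : ∀ i, t i ∈ Icc (1 : ℝ) 2) (hθ : θ ∈ Icc (0 : ℝ) 1) :
    DD K t θ ⊆ Icc (-((2 * k + 2 : ℕ) : ℝ)) ((2 * k + 2 : ℕ) : ℝ) := by
  rintro x ⟨p, ⟨hp1, hp2⟩, rfl⟩
  have h1 := hK1 hp1
  have h2 : |∑ i, t i * p.2 i| ≤ 2 * k := by
    calc |∑ i, t i * p.2 i| ≤ ∑ i, |t i * p.2 i| := Finset.abs_sum_le_sum_abs _ _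
      _ ≤ ∑ _i : Fin k, (2 : ℝ) := by
          apply Finset.sum_le_sum
          intro i _
          have h3 := hK1 (hp2 i (mem_univ i))
          have h4 := ht i
          have h5 : |p.2 i| ≤ 1 := abs_le.mpr h3
          rw [abs_mul, abs_of_pos (by linarith [h4.1])]
          calc t i * |p.2 i| ≤ 2 * 1 := by
                gcongr
                exact h4.2
            _ = 2 := by norm_num
      _ = 2 * k := by simp [mul_comm]
  rw [abs_le] at h2
  simp only [mem_Icc] at *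
  push_cast
  constructor <;> linarith [hθ.1, hθ.2, h1.1, h1.2, h2.1, h2.2]

/-- a point all of whose dyadic intervals are charged lies in any closed carrier -/
lemma mem_of_charged {ν : Measure ℝ} {D : Set ℝ} (hD : IsClosed D) (hν : ν Dᶜ = 0) {x : ℝ} {m : ℕ}
    (h : ∀ l : ℕ, 0 < ν.real (dy (m + l) ⌊x * 2 ^ (m + l)⌋)) : x ∈ D := by
  by_contra hx
  have hnh : Dᶜ ∈ nhds x := hD.isOpen_compl.mem_nhds hx
  obtain ⟨δ, hδ, hball⟩ := Metric.mem_nhds_iff.mp hnh
  obtain ⟨l, hl⟩ := exists_pow_lt_of_lt_one hδ (by norm_num : (2⁻¹ : ℝ) < 1)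
  have hsub : dy (m + l) ⌊x * 2 ^ (m + l)⌋ ⊆ Dᶜ := by
    refine subset_trans ?_ hball
    intro y hy
    have hx' : x ∈ dy (m + l) ⌊x * 2 ^ (m + l)⌋ := mem_dy.mpr rfl
    unfold dy at hx' hy
    rw [mem_Ico] at hx' hy
    have h1 : (2⁻¹ : ℝ) ^ (m + l) < δ := by
      refine lt_of_le_of_lt ?_ hl
      exact pow_le_pow_of_le_one (by norm_num) (by norm_num) (by omega)
    rw [Metric.mem_ball, Real.dist_eq, abs_lt]
    constructor <;> linarith [hx'.1, hx'.2, hy.1, hy.2]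
  have h0 : ν (dy (m + l) ⌊x * 2 ^ (m + l)⌋) = 0 := measure_mono_null hsub hν
  have := h l
  rw [measureReal_def, h0] at this
  simp at this

/-- numerical facts -/
lemma numer {n : ℕ} (hn : 3 ≤ n) {s : ℝ} (hs : s = 2 / n - 1 / (7200 * (n : ℝ) ^ 2)) :
    0 < s ∧ s < 1 ∧ 0 < cst s ∧ 1 < ((n : ℝ) - 1) * s ∧ ((n : ℝ) - 1) * s < 2 ∧
      0 < ((n : ℝ) - 1) * s - 1 - 2 * (cst s / 20) ∧
      0 < s + cst s + (((n : ℝ) - 1) * s - 1 - 2 * (cst s / 20)) - 1 - 4 * (cst s / 20) := by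
  have hn3 : (3 : ℝ) ≤ n := by exact_mod_cast hn
  set x : ℝ := 1 / n with hx
  have hnp : (0 : ℝ) < n := by linarith
  have hx0 : 0 < x := by positivity
  have hx1 : x ≤ 1 / 3 := one_div_le_one_div_of_le (by norm_num) hn3
  have hnx : (n : ℝ) * x = 1 := by rw [hx]; field_simp
  have hsx : s = 2 * x - x ^ 2 / 7200 := by
    rw [hs, hx]
    field_simp
  have hx2 : x ^ 2 ≤ x / 3 := by nlinarith
  have hx2' : 0 < x ^ 2 := by positivity
  have hs1 : x ≤ s := by rw [hsx]; nlinarith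
  have hs2 : s ≤ 2 * x := by rw [hsx]; nlinarith
  have hs3 : 1 / 3 ≤ 1 - s := by linarith
  have hns : ((n : ℝ) - 1) * s = 2 - x / 7200 - s := by
    have : (n : ℝ) * s = 2 - x / 7200 := by
      rw [hsx]
      linear_combination (2 - x / 7200) * hnx
    linarith
  have hsp : 0 < s := by linarith
  have hc1 : x / 3600 ≤ cst s := by
    unfold cst
    have h1 : (1 / 3) ^ 2 ≤ (1 - s) ^ 2 := by gcongr
    have h2 : (1 / 3 : ℝ) ^ 2 * x ≤ (1 - s) ^ 2 * s := by gcongr
    linarith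
  have hc2 : cst s ≤ 1 / 400 := by
    unfold cst
    have h1 : (1 - s) ^ 2 ≤ 1 := by nlinarith
    have h2 : (1 - s) ^ 2 * s ≤ 1 * 1 := by
      gcongr
      linarith
    linarith
  have hcp : 0 < cst s := by linarith [div_pos hx0 (by norm_num : (0:ℝ) < 3600)]
  refine ⟨hsp, by linarith, hcp, ?_, ?_, ?_, ?_⟩
  · rw [hns]; linarith
  · rw [hns]; linarith
  · rw [hns]; linarith
  · rw [hns]
    have : s + cst s + (2 - x / 7200 - s - 1 - 2 * (cst s / 20)) - 1 - 4 * (cst s / 20)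
        = cst s * (7 / 10) - x / 7200 := by ring
    rw [this]
    linarith

theorem main (n : ℕ) (hn : 3 ≤ n) (A : Set ℝ) (hA : MeasurableSet A)
    (hdim : ENNReal.ofReal (2 / n - 1 / (7200 * (n : ℝ) ^ 2)) < dimH A) :
    ∃ t : Fin n → ℝ, (∀ i : Fin n, i.val = 0 → t i = 1) ∧
      (interior {x : ℝ | ∃ a : Fin n → ℝ, (∀ i, a i ∈ A) ∧ x = ∑ i, t i * a i}).Nonempty := by
  obtain ⟨hs0, hs1, hc0, hk1, hk2, hγ0, hβ⟩ := numer hn rfl
  set s : ℝ := 2 / n - 1 / (7200 * (n : ℝ) ^ 2) with hs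
  obtain ⟨K, hKA, hKc, μ0, hμ0, hμ0K, C, hC, hF⟩ := frostman_borel A hA s hs0 hdim
  obtain ⟨k, rfl⟩ : ∃ k, n = k + 2 := ⟨n - 2, by omega⟩
  have hk : 1 ≤ k := by omega
  -- rescaling
  obtain ⟨b, hb1, hKb⟩ : ∃ b : ℝ, 1 ≤ b ∧ K ⊆ Icc (-b) b := by
    obtain ⟨r, hr⟩ := hKc.isBounded.subset_closedBall 0
    refine ⟨max r 1, le_max_right _ _, ?_⟩
    intro x hx
    have := hr hx
    rw [Metric.mem_closedBall, dist_zero_right, Real.norm_eq_abs] at this
    exact abs_le.mp (this.trans (le_max_left _ _))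
  have hb0 : 0 < b := by linarith
  set K' : Set ℝ := {x | b * x ∈ K} with hK'
  have hK'1 : K' ⊆ Icc (-1) 1 := by
    intro x hx
    have h1 := hKb hx
    rw [mem_Icc] at h1 ⊢
    constructor
    · by_contra h
      push Not at h
      nlinarith [h1.1]
    · by_contra h
      push Not at h
      nlinarith [h1.2]
  have hK'c : IsCompact K' := by
    apply (isCompact_Icc (a := (-1 : ℝ)) (b := 1)).of_isClosed_subset _ hK'1
    exact hKc.isClosed.preimage (by fun_prop)
  have hmd : Measurable (fun x : ℝ => x / b) := by fun_prop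
  set μ : Measure ℝ := μ0.map (fun x => x / b) with hμ
  have hprob : IsProbabilityMeasure μ := Measure.isProbabilityMeasure_map hmd.aemeasurable
  have hμK : μ K'ᶜ = 0 := by
    rw [hμ, Measure.map_apply hmd hK'c.measurableSet.compl]
    have : (fun x : ℝ => x / b) ⁻¹' K'ᶜ = Kᶜ := by
      ext x
      simp only [mem_preimage, mem_compl_iff, hK', mem_ofPred_eq]
      rw [mul_div_cancel₀ _ hb0.ne']
    rw [this]
    exact hμ0K
  have hμ1 : μ (Icc (-1) 1)ᶜ = 0 := measure_mono_null (compl_subset_compl.mpr hK'1) hμK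
  have hFros : Fros μ s (C * b ^ s) := by
    intro x r hr
    rw [hμ, Measure.map_apply hmd Metric.isClosed_closedBall.measurableSet]
    have h1 : (fun x : ℝ => x / b) ⁻¹' Metric.closedBall x r ⊆
        Metric.closedBall (b * x) (b * r) := by
      intro y hy
      rw [mem_preimage, Metric.mem_closedBall, Real.dist_eq] at hy
      rw [Metric.mem_closedBall, Real.dist_eq]
      have : y - b * x = b * (y / b - x) := by field_simp
      rw [this, abs_mul, abs_of_pos hb0]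
      gcongr
    refine (measure_mono h1).trans ((hF (b * x) (b * r) (by positivity)).trans ?_)
    apply ENNReal.ofReal_le_ofReal
    rw [Real.mul_rpow hb0.le hr.le]
    linarith
  have hC' : 0 < C * b ^ s := by positivity
  obtain ⟨R1, _, hstar⟩ := star μ hs0 hs1 hC' hFros
  set η := cst s / 20 with hη
  have hηp : 0 < η := by positivity
  set γ := (((k + 2 : ℕ) : ℝ) - 1) * s - 1 - 2 * η with hγ
  have hcast : (((k + 2 : ℕ) : ℝ) - 1) = (k : ℝ) + 1 := by push_cast; ring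
  rw [hcast] at hk1 hk2
  have hγ' : γ + η < ((k : ℝ) + 1) * s - 1 := by
    rw [hγ, hcast]
    linarith
  obtain ⟨t, θ, C2, ht, hθ, hej⟩ := second_moment μ hμ1 s (C * b ^ s) hs0 hs1 hC' hFros k hk
    hk1 hk2 (γ + η) hγ'
  have hD := sumLaw_DD μ hK'c hμK t θ
  have hsupp : sumLaw μ t θ (Icc (-((2 * k + 2 : ℕ) : ℝ)) ((2 * k + 2 : ℕ) : ℝ))ᶜ = 0 :=
    measure_mono_null (compl_subset_compl.mpr (DD_bound hK'1 ht hθ)) hD
  obtain ⟨m, u, z0, r, hr, hz⟩ := assembly μ hK'1 hμK hstar (sumLaw μ t θ) (2 * k + 2) hsupp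
    hηp hγ0 hej hβ
  refine ⟨Fin.cons 1 (Fin.snoc t u), ?_, ?_⟩
  · intro i hi
    have : i = 0 := Fin.ext hi
    rw [this, Fin.cons_zero]
  · refine ⟨b * (z0 - θ), mem_interior.mpr ⟨Metric.ball (b * (z0 - θ)) (b * r), ?_,
      Metric.isOpen_ball, Metric.mem_ball_self (by positivity)⟩⟩
    intro y hy
    rw [Metric.mem_ball, Real.dist_eq] at hy
    set z := y / b + θ with hzd
    have hzz : |z - z0| < r := by
      have h1 : y - b * (z0 - θ) = b * (z - z0) := by
        rw [hzd]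
        field_simp
        ring
      rw [h1, abs_mul, abs_of_pos hb0] at hy
      exact lt_of_mul_lt_mul_left hy hb0.le
    obtain ⟨a, haK, ha⟩ := hz z hzz
    obtain ⟨p, ⟨hp1, hp2⟩, hp⟩ := mem_of_charged (DD_compact hK'c t θ).isClosed hD ha
    refine ⟨Fin.cons (b * p.1) (Fin.snoc (fun i => b * p.2 i) (b * a)), ?_, ?_⟩
    · intro i
      refine Fin.cases ?_ (fun i => ?_) i
      · rw [Fin.cons_zero]
        exact hKA hp1
      · rw [Fin.cons_succ]
        refine Fin.lastCases ?_ (fun i => ?_) i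
        · rw [Fin.snoc_last]
          exact hKA haK
        · rw [Fin.snoc_castSucc]
          exact hKA (hp2 i (mem_univ i))
    · rw [Fin.sum_univ_succ, Fin.sum_univ_castSucc]
      simp only [Fin.cons_zero, Fin.cons_succ, Fin.snoc_castSucc, Fin.snoc_last]
      have h2 : p.1 + ∑ i, t i * p.2 i + θ = z - u * a := hp
      have h3 : y = b * (z - θ) := by
        rw [hzd]
        field_simp
        ring
      have h4 : ∑ i, t i * (b * p.2 i) = b * ∑ i, t i * p.2 i := by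
        rw [Finset.mul_sum]
        apply Finset.sum_congr rfl
        intro i _
        ring
      rw [h4, h3]
      linear_combination (-b) * h2

end Pool.Agent.NH64.DS.Mn
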